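import Pool.Agent.Work.MP_849ab0_ag.G.H1.MnF
import Pool.Agent.Work.MP_849ab0_ag.G.C.Comb
import Pool.Agent.Work.MP_849ab0_ag.G.C.CFib
import Pool.Agent.Work.MP_849ab0_ag.G.Bor

-- merged part: Pool.Agent.Work.MP_849ab0_ag.G.H1.MgA
section
/-!
The classes `α g` are tautological, and linear over the cohomology of `Z`.

Hints.  Compare `H2/EsA.lean`.  Use `haveI := h.repL`, `h.repE`, `h.repσ`, `h.ok.rep`.
`taut`: `TD.gp_id_int` (with `h.admT`, `h.top.admT`, `gp_id`) replaces `Z` by `univ`;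
`TD.int_intg` (right to left) with `isSum_sum`, `q = Prod.snd`, `F₂ = Prod.fst`, `adm1`, `iadm`,
`h.top.admT`; `sm g cls = ecup (gp bt id snd γ) (eul Φ)` with
`γ = sm g (eul b1 σ (rel ∘ fst) V1 (fst ⁻¹' R0))` (`ecup_sm_left`, `gp_sm`, `gpt_id`, `gp_eul`); `dm`;
then `TD.gp_int` from the point with `φ = id`, `f' = Prod.fst` (`mapT A id = id` by `rfl`), `admP`:
`d = T.int (Act.pt H) T.rep (fun _ => ()) id id univ univ (sm (vq L E) (sm g (eul T.rep σ rel lev R0)))`.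
`ecup_al`: `TD.int_ecup` (right to left) with `U₁ = Z`, `Z₁ = univ`; `ecup_gp_left` restricts the
pulled back class to `Vt ∩ Zd` (`gp_comp`), where it is `kpt g'`, the restriction of `kpt bt Vt g'`
(`gp_id_kpt`, `ecup_gp_left` again); `sm_def`, `sm_mul`.
`Cj.pull`: `gp_conj` (ApiX) with `φ₁ = Prod.snd`, `f₁ z = z.2.2`, `φ₂ = ι ∘ ψ`,
`f₂ z = a.act (k z)⁻¹ z.2.2`; `gp_comp` through `(a.res ι, S₀)`; `gp_kpt`.
-/

noncomputable section

set_option linter.unusedSectionVars false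
set_option linter.unusedVariables false

namespace Pool.Agent.Work.MP_849ab0_ag.G

open Set Topology Matrix

namespace MND

variable {A : Type} [Fintype A] [DecidableEq A] {H : Gp} [H.Nice] {X J Jr JL JE Js : Type}
  [TopologicalSpace X] [T3Space X] [SecondCountableTopology X] [Fintype J] [Fintype Jr]
  [Fintype JL] [Fintype JE] [Fintype Js]
  {S : MND A H X J Jr JL JE Js} {a : Act H X} [a.Ok] {U Z : Set X}

theorem Ok.taut (h : S.Ok a U Z) (g : HPt (TG A H)) :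
    ∃ d, gp a id id U univ (S.al a U Z g) = kpt a U d := by
  have := h.repL
  have := h.repE
  have := h.repσ
  have := h.ok.rep
  have p1 := h.pr_V1
  have k2 : GAdm (S.bt a) (S.b1 a) id Prod.snd (S.Vt U) {z | z.2.1 ∈ S.R0} (S.V1 U)
      (Prod.fst ⁻¹' S.R0) :=
    ⟨h.pr_Vt, p1, continuous_snd.continuousOn, fun _ _ _ => rfl, fun _ k => k, fun _ _ k => k⟩
  have k3 : GAdm (S.b1 a) S.T.rep (mapT A id) Prod.fst (S.V1 U) (Prod.fst ⁻¹' S.R0) S.T.lev S.R0 :=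
    ⟨p1, h.pr_lev, continuous_fst.continuousOn, fun _ _ _ => rfl, fun _ k => k.1, fun _ _ k => k⟩
  have e0 := TD.gp_id_int h.admT h.top.admT (gadm_id h.pr h.pr.top subset_rfl (subset_univ _))
    (gadm_id h.pr_Zd h.pr_Zd subset_rfl inter_subset_right) (sm g (S.cls a U))
  rw [gp_id h.pr_Zd] at e0
  have e1 := TD.int_intg isSum_sum h.adm1 h.iadm h.top.admT (fun _ _ => rfl)
    (fun _ _ => rfl) (fun _ _ => rfl) (sm g (S.cls a U))
  have e2 := dm h.iadm h.eadm_dia (fun _ k => k.1) h.affOn h.ecup_dia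
    (sm g (eul (S.b1 a) S.σ (fun z => S.rel z.1) (S.V1 U) (Prod.fst ⁻¹' S.R0)))
  have e3 : gp (S.bt a) id Prod.snd (S.Vt U) {z | z.2.1 ∈ S.R0}
      (sm g (eul (S.b1 a) S.σ (fun z => S.rel z.1) (S.V1 U) (Prod.fst ⁻¹' S.R0))) =
      sm g (eul (S.bt a) S.σ (fun z => S.rel z.2.1) (S.Vt U) {z | z.2.1 ∈ S.R0}) := by
    rw [gp_sm k2, gpt_id, gp_eul h.eadm1 k2 (σ := S.σ) (fun _ _ => rfl)
      (F' := fun z => S.rel z.2.1) fun _ _ => rfl]
  have e4 := TD.gp_int (φ := id) h.admP h.adm1 rfl rfl (fun _ _ => rfl)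
    (gadm_pt h.pr.top id) k3 (fun _ _ => rfl) (fun _ _ => rfl) (fun _ _ => rfl) (fun _ _ => rfl)
    (sm (vq S.L S.E) (sm g (eul S.T.rep S.σ S.rel S.T.lev S.R0)))
  have e5 : ∀ c, gpt (mapT A (id : H.H → _)) c = c := gpt_id
  rw [gp_sm k3, gp_sm k3, e5, e5, gp_eul h.eadm_rel k3 (σ := S.σ) (fun _ _ => rfl)
    (F' := fun z => S.rel z.1) (fun _ _ => rfl), ← e2] at e4
  refine ⟨_, e0.trans (e1.symm.trans (Eq.trans ?_ e4.symm))⟩
  rw [cls, ← ecup_sm_left h.ecup_dia, ← e3]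
  rfl

theorem Ok.isDeg_al (h : S.Ok a U Z) {m p : ℤ} {g : HPt (TG A H)} (hg : IsDeg p g)
    (e : p + 2 * Fintype.card Jr + 2 * Fintype.card JE + 2 * Fintype.card A =
      m + 2 * Fintype.card JL + 2 * Fintype.card J) : IsDeg m (S.al a U Z g) := by
  have := h.repL
  have := h.repE
  have := h.repσ
  have := h.ok.rep
  refine TD.isDeg_int h.admT ?_
  have k : IsDeg _ (sm g (S.cls a U)) := hg.sm (isDeg_eul.ecup isDeg_eul)
  convert k using 1
  rw [Fintype.card_sum]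
  push_cast
  omega

theorem Ok.ecup_al (h : S.Ok a U Z) (hZ : Z ⊆ U) {γ : EH a Z univ} {g' : HPt (TG A H)}
    (e : gp (S.bt a) Prod.snd (fun z => z.2.2) (S.Vt U ∩ S.Zd) univ γ =
      kpt (S.bt a) (S.Vt U ∩ S.Zd) g') (g : HPt (TG A H)) :
    ecup U Z γ (S.al a U Z g) = S.al a U Z (g' * g) := by
  have := h.repL
  have := h.repE
  have := h.repσ
  have := h.ok.rep
  have pZ : a.Pr Z univ := inter_eq_right.2 hZ ▸ pr_supp h.pr
  have pD := h.pr_Zd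
  have pB := h.pr_sol
  have pL : (S.bt a).Pr ((Prod.snd ∘ Prod.snd) ⁻¹' Z) univ :=
    pZ.preimage (φ := Prod.snd) (continuous_snd.comp continuous_snd) fun _ _ => rfl
  have cZ : ∀ {V}, (S.bt a).Pr V univ → S.Vt U ∩ S.Zd ⊆ V →
      ECup (S.bt a) V univ (S.Vt U) S.Zd (S.Vt U) S.Zd := fun k e =>
    ⟨k, pD, pD, fun _ k => .inr k, fun z k => (em (z ∈ S.Zd)).imp (fun m => e ⟨k, m⟩) (⟨k, ·⟩),
      fun _ k => .inr k⟩
  have kL : GAdm (S.bt a) a Prod.snd (Prod.snd ∘ Prod.snd) ((Prod.snd ∘ Prod.snd) ⁻¹' Z) univ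
      Z univ := ⟨pL, pZ, by fun_prop, fun _ _ _ => rfl, fun _ k => k, fun _ _ _ => trivial⟩
  have iL := gadm_id pL pB h.supp (subset_univ _)
  have iV := gadm_id pD.top pB inter_subset_left (subset_univ _)
  have e3 := TD.int_ecup h.admT h.admT ⟨pZ, h.pr, h.pr, fun _ k => .inr k,
    fun z k => (em (z ∈ Z)).imp id (⟨k, ·⟩), fun _ k => .inr k⟩ (cZ pL h.supp) hZ γ
    (sm g (S.cls a U))
  rw [← gp_comp kL iL (χ := Prod.snd) (fun _ => rfl) (k := fun z => z.2.2) (fun _ _ => rfl),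
    ← gp_id_kpt iV] at e
  refine e3.symm.trans ?_
  rw [al, sm_mul pD, sm_def g', ← ecup_gp_left (cZ pB subset_rfl) iV, ← e,
    ecup_gp_left (cZ pB subset_rfl) iL]
  rfl

theorem Cj.pull (h : S.Ok a U Z) {H₀ : Gp} [H₀.Nice] {ι : H₀.H → H.H} [IsHom ι] {S₀ : Set X}
    {ψ : (TG A H).H → H₀.H} [IsHom ψ] {k : (JL → ℂ) × (J → ℂ) × X → H.H}
    (hk : S.Cj a U Z ι S₀ ψ k) {γ : EH a Z univ} {c : HPt H₀}
    (e : gp (a.res ι) ι id S₀ univ γ = kpt (a.res ι) S₀ c) :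
    gp (S.bt a) Prod.snd (fun z => z.2.2) (S.Vt U ∩ S.Zd) univ γ =
      kpt (S.bt a) (S.Vt U ∩ S.Zd) (gpt ψ c) := by
  have := h.repL
  have := h.ok.rep
  have pZ : a.Pr Z univ := inter_eq_right.2 hk.sub ▸ pr_supp h.pr
  have k1 : GAdm (S.bt a) a Prod.snd (fun z => z.2.2) (S.Vt U ∩ S.Zd) univ Z univ :=
    ⟨h.pr_sol, pZ, by fun_prop, fun _ _ _ => rfl, h.supp, fun _ _ _ => trivial⟩
  have k0 : GAdm (a.res ι) a ι id S₀ univ Z univ :=
    ⟨hk.pr, pZ, continuousOn_id, fun _ _ _ => rfl, hk.sub0, fun _ _ _ => trivial⟩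
  have k2 : GAdm (S.bt a) (a.res ι) ψ (fun z => a.act (k z)⁻¹ z.2.2) (S.Vt U ∩ S.Zd) univ S₀
      univ := by
    refine ⟨h.pr_sol, hk.pr, (Act.Ok.cont (a := a)).comp_continuousOn
      (hk.cont.inv.prodMk (by fun_prop)), fun g z hz => ?_, hk.mem, fun _ _ _ => trivial⟩
    change a.act (k ((S.bt a).act g z))⁻¹ (a.act g.2 z.2.2) =
      a.act (ι (ψ g)) (a.act (k z)⁻¹ z.2.2)
    rw [hk.eqv g z hz, ← Act.Ok.mul, ← Act.Ok.mul]
    congr 1
    group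
  rw [gp_conj k1 (k0.comp k2) hk.cont (fun z _ => by
      change z.2.2 = a.act (k z) (a.act (k z)⁻¹ z.2.2)
      rw [← Act.Ok.mul, mul_inv_cancel, Act.Ok.one]) hk.eqv γ,
    ← gp_comp k0 k2 (χ := ι ∘ ψ) (fun _ => rfl) (k := id ∘ fun z => a.act (k z)⁻¹ z.2.2)
      (fun _ _ => rfl), e, gp_kpt k2]

end MND

end Pool.Agent.Work.MP_849ab0_ag.G
end
end

-- merged part: Pool.Agent.Work.MP_849ab0_ag.G.F.Dg
section
-- merged part: Pool.Agent.Work.MP_849ab0_ag.G.F.Gb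
section
/-!
F-Gb (owner helper75). The convolution algebra for an arbitrary action `b` on `N[[t]]`; transport along equivariant maps.
Plan. Repeat C/Zs for `b` (closedness does not depend on `b`; for comp use (Q, 0) and inv_comp); base change for push along id × f (gp_intg, gp_ecup, gp_eul, gp_comp as in C/PL);
naturality of upb, twsb (linv of two bijections), cnvb, untb under gp (fun z => (z.1, f z.2)); this map is bijective on RR k and on comp by gp_htpy, gp_comp, gp_id;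
ι' k = ι k ∘ linv (gp ...); degrees by IsDeg.gp and isDeg_of_map.
-/

noncomputable section

set_option linter.unusedSectionVars false
set_option linter.unusedVariables false

namespace Pool.Agent.Work.MP_849ab0_ag.G

open Set Topology Matrix

section

variable {G : Gp} [G.Nice] {X X' : Type} [TopologicalSpace X] [T3Space X]
  [SecondCountableTopology X] [TopologicalSpace X'] [T3Space X'] [SecondCountableTopology X']
  {J J₁ : Type} [Fintype J] [Fintype J₁] {a : Act G X} [a.Ok] {a' : Act G X'} [a'.Ok]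
  {ρ : Act G (J → ℂ)} [ρ.Rep] {ρ' : Act G (J₁ → ℂ)} [ρ'.Rep]

theorem PAdm.gb {F : (J → ℂ) × X → J₁ → ℂ} {U : Set X} {Z : Set ((J → ℂ) × X)}
    {Z' : Set ((J₁ → ℂ) × X)} (hP : PAdm a ρ ρ' F U Z Z') :
    EAdm (ρ.prod (ρ'.prod a)) ρ' (fun y => y.2.1 - F (y.1, y.2.2)) (univ ×ˢ univ ×ˢ U)
      {y | y.2.1 = F (y.1, y.2.2)} ∧
    GAdm (ρ.prod (ρ'.prod a)) (ρ.prod a) id (fun y => (y.1, y.2.2)) (univ ×ˢ univ ×ˢ U)
      {y | (y.1, y.2.2) ∈ Z} (univ ×ˢ U) Z ∧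
    IAdm (ρ'.prod a) (ρ.prod (ρ'.prod a)) ρ Prod.snd Prod.fst (univ ×ˢ U) Z'
      (univ ×ˢ univ ×ˢ U) {y | (y.1, y.2.2) ∈ Z ∧ y.2.1 = F (y.1, y.2.2)} := by
  have cF := hP.cont
  have pV : (ρ.prod (ρ'.prod a)).Pr (univ ×ˢ univ ×ˢ U) univ :=
    ⟨isOpen_univ.isLocallyClosed.inter (hP.pz'.lc.preimage continuous_snd),
      fun g y m => ⟨trivial, hP.pz'.inv g _ m.2⟩, fun _ _ _ _ => trivial, fun _ _ => trivial⟩
  have eV : EAdm (ρ.prod (ρ'.prod a)) ρ' (fun y => y.2.1 - F (y.1, y.2.2)) (univ ×ˢ univ ×ˢ U)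
      {y | y.2.1 = F (y.1, y.2.2)} :=
    pl_eadm pV (by fun_prop) (by fun_prop) (fun _ _ => rfl) fun g y => hP.eqv g (y.1, y.2.2)
  have kV : GAdm (ρ.prod (ρ'.prod a)) (ρ.prod a) id (fun y => (y.1, y.2.2)) (univ ×ˢ univ ×ˢ U)
      {y | (y.1, y.2.2) ∈ Z} (univ ×ˢ U) Z :=
    ⟨hP.pz.preimage' (φ := id) pV (f := fun y => (y.1, y.2.2)) (by fun_prop)
      (fun _ m => ⟨trivial, m.2.2⟩) fun _ _ _ => rfl, hP.pz, by fun_prop, fun _ _ _ => rfl,
      fun _ m => ⟨trivial, m.2.2⟩, fun _ _ m => m⟩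
  exact ⟨eV, kV, iadm_prod hP.pz' (kV.src.inter eV.src) subset_rfl (fun y m n => by
      have := hP.maps _ m.1 n.2
      rwa [← m.2] at this) (hP.bdd.imp fun R k y m n => k (y.1, y.2.2) m.1 n.2)⟩

/-- base change for the push-forward -/
theorem gp_push {F : (J → ℂ) × X → J₁ → ℂ} {U : Set X} {Z : Set ((J → ℂ) × X)}
    {Z' : Set ((J₁ → ℂ) × X)} (hP : PAdm a ρ ρ' F U Z Z') {F' : (J → ℂ) × X' → J₁ → ℂ}
    {U' : Set X'} {W : Set ((J → ℂ) × X')} {W' : Set ((J₁ → ℂ) × X')}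
    (hP' : PAdm a' ρ ρ' F' U' W W') {f : X' → X} (hf : Continuous f)
    (he : ∀ g x, f (a'.act g x) = a.act g (f x)) (hm : MapsTo f U' U)
    (hF : ∀ v x, F (v, f x) = F' (v, x)) (hZ : ∀ v, ∀ x ∈ U', (v, f x) ∈ Z → (v, x) ∈ W)
    (hZ' : ∀ v, ∀ x ∈ U', (v, f x) ∈ Z' → (v, x) ∈ W') (c : EH (ρ.prod a) (univ ×ˢ U) Z) :
    gp (ρ'.prod a') id (fun z => (z.1, f z.2)) (univ ×ˢ U') W' (pushf a ρ ρ' F U Z Z' c) =
      pushf a' ρ ρ' F' U' W W' (gp (ρ.prod a') id (fun z => (z.1, f z.2)) (univ ×ˢ U') W c) := by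
  obtain ⟨eV, kV, iV⟩ := hP.gb
  obtain ⟨eV', kV', iV'⟩ := hP'.gb
  have k₀ : GAdm (ρ'.prod a') (ρ'.prod a) id (fun z => (z.1, f z.2)) (univ ×ˢ U') W'
      (univ ×ˢ U) Z' :=
    ⟨hP'.pz', hP.pz', by fun_prop, fun g z _ => Prod.ext rfl (he g z.2),
      fun z m => ⟨trivial, hm m.2⟩, fun z m n => hZ' z.1 z.2 m.2 n⟩
  have k₁ : GAdm (ρ.prod a') (ρ.prod a) id (fun z => (z.1, f z.2)) (univ ×ˢ U') W
      (univ ×ˢ U) Z :=
    ⟨hP'.pz, hP.pz, by fun_prop, fun g z _ => Prod.ext rfl (he g z.2),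
      fun z m => ⟨trivial, hm m.2⟩, fun z m n => hZ z.1 z.2 m.2 n⟩
  have k₃ : ∀ {A : Set ((J → ℂ) × (J₁ → ℂ) × X')} {B : Set ((J → ℂ) × (J₁ → ℂ) × X)},
      (ρ.prod (ρ'.prod a')).Pr (univ ×ˢ univ ×ˢ U') A →
      (ρ.prod (ρ'.prod a)).Pr (univ ×ˢ univ ×ˢ U) B →
      (∀ y : (J → ℂ) × (J₁ → ℂ) × X', y.2.2 ∈ U' → (y.1, y.2.1, f y.2.2) ∈ B → y ∈ A) →
      GAdm (ρ.prod (ρ'.prod a')) (ρ.prod (ρ'.prod a)) id (fun y => (y.1, y.2.1, f y.2.2))
        (univ ×ˢ univ ×ˢ U') A (univ ×ˢ univ ×ˢ U) B := fun hA hB m =>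
    ⟨hA, hB, by fun_prop, fun g y _ => Prod.ext rfl (Prod.ext rfl (he g _)),
      fun _ n => ⟨trivial, trivial, hm n.2.2⟩, fun y n => m y n.2.2⟩
  have k₄ := k₃ iV'.src iV.src fun y n m => ⟨hZ _ _ n m.1, m.2.trans (hF _ _)⟩
  have k₅ := k₃ kV'.src kV.src fun y n m => hZ _ _ n m
  have k₆ := k₃ eV'.src eV.src fun y n m => Eq.trans m (hF _ _)
  unfold pushf intf cupf gpf
  rw [gp_intg iV iV' k₀ k₄ (fun _ _ => rfl) (fun _ _ => rfl) fun _ _ => rfl,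
    gp_ecup (ecup_of kV.src eV.src iV.src fun _ m => ⟨m.1.2, m.2⟩)
      (ecup_of kV'.src eV'.src iV'.src fun _ m => ⟨m.1.2, m.2⟩) k₄ k₅ k₆ subset_rfl subset_rfl,
    gp_eul eV k₆ (σ := ρ') (fun _ _ => rfl) (F' := fun y => y.2.1 - F' (y.1, y.2.2))
      fun y _ => by rw [hF],
    gp_comp kV k₅ (χ := id) (fun _ => rfl) (k := fun y => (y.1, f y.2.2)) fun _ _ => rfl,
    gp_comp k₁ kV' (χ := id) (fun _ => rfl) (k := fun y => (y.1, f y.2.2)) fun _ _ => rfl]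

end

namespace Qv

variable {I P E κ : Type} [Fintype I] [DecidableEq I] [Fintype P] [DecidableEq P] [Fintype E]
  [Fintype κ] [DecidableEq κ] (D : Qv I P E κ) (b : Act (KT D.col κ) D.NO)

/-- the action on pairs of a loop and an element of `N[[t]]` -/
def aFb : Act D.KKT ((ℤ → Matrix P P ℂ) × D.NO) :=
  ⟨fun g z => (fun x => chr D.h g.2.2 ^ x • (g.2.1.1.1 * z.1 x * g.1.1.1ᴴ), b.act g.2 z.2)⟩

/-- homology of a closed subset of the space of triples -/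
abbrev HRb (k : ℕ) (Z : Set (En P k × D.NO)) : Type := EH ((D.aE k).prod b) univ Z

/-- push-forward along `RR k ⊆ RR (k + 1)` -/
def upb (k : ℕ) (a : D.HRb b k (D.RR k)) : D.HRb b (k + 1) (D.RR (k + 1)) :=
  gpf _ id id univ _
    (pushf b (D.aE k) (D.aE (k + 1)) (fun z w => blkAt z.1 w.1.2 w.2.2 w.1.1 w.2.1) univ
      (D.RR k) (D.RR (k + 1)) (gpf _ id id _ _ a))

/-- the twisted second factor -/
def twsb (k l : ℕ) (x : D.HRb b l (D.RR l)) :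
    EH ((D.aE k).prod ((D.aE (k + l)).prod b)) {z | (z.1, z.2.2) ∈ D.RR k} (D.Z3 k l) :=
  ginv (((D.aE (k + l)).res Prod.snd).prod (D.aFb b)) _ Prod.snd (D.qq k l) _ _
    (pushf (D.aFb b) ((D.aE l).res fun g => (g.1, g.2.2)) ((D.aE (k + l)).res Prod.snd)
      (fun z => tw k z.2.1 z.1 (k + l)) (D.UF k) (D.Z1 k l) (D.Z2 k l)
      (gpf _ (fun g : D.KKT.H => (g.1, g.2.2)) (fun z => (z.1, D.adj k z.2.1 z.2.2)) _ _ x))

/-- the convolution product -/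
def cnvb (k l : ℕ) (a : D.HRb b k (D.RR k)) (x : D.HRb b l (D.RR l)) :
    D.HRb b (k + l) (D.RR (k + l)) :=
  intf _ (D.aE k) Prod.snd Prod.fst univ _
    (cupf univ (D.Z3 k l)
      (gpf _ id (fun z => (z.1, z.2.2)) univ {z | (z.1, z.2.2) ∈ D.RR k} a) (D.twsb b k l x))

/-- the unit map -/
def untb (c : D.HP) : D.HRb b 0 (D.RR 0) := gpf _ id (fun _ => ()) univ _ c

/-- families of additive maps -/
abbrev Iob (A : Type) [Ring A] : Type := ∀ k, D.HRb b k (D.RR k) →+ A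

variable {A : Type} [Ring A]

/-- the convolution algebra -/
structure IsBFNb (ι : D.Iob b A) : Prop where
  inj : ∀ k, Function.Injective (ι k)
  incl : ∀ k a, ι (k + 1) (D.upb b k a) = ι k a
  surj : ∀ x, ∃ k a, ι k a = x
  mul : ∀ k l a x, ι (k + l) (D.cnvb b k l a x) = ι k a * ι l x
  one : ι 0 (D.untb b (eone _ univ)) = 1

/-- homogeneous elements -/
def pieceb (ι : D.Iob b A) (ν : I → ℤ) (m p : ℤ) : Set A :=
  {x | ∃ (k : ℕ) (c : ℤ) (a : D.HRb b k (D.comp ν k m c)),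
    IsDeg (p + 2 * c + 2 * Fintype.card ((P × Pos k) × (P × Pos k))) a ∧
      x = ι k (gpf _ id id univ _ a)}

/-- actions that preserve the space of triples -/
structure OAdm : Prop where
  ok : b.Ok
  rr : ∀ k, ((D.aE k).prod b).Inv (D.RR k)
  adj : ∀ k g z, z.1 ∈ D.Lp k →
    D.adj k ((D.aFb b).act g z).1 ((D.aFb b).act g z).2 = b.act (D.p13 g) (D.adj k z.1 z.2)

/-- morphisms -/
structure OMor (b' : Act (KT D.col κ) D.NO) (f : D.NO → D.NO) : Prop where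
  cont : Continuous f
  eqv : ∀ g s, f (b.act g s) = b'.act g (f s)
  rr : ∀ k Q s, (Q, f s) ∈ D.RR k ↔ (Q, s) ∈ D.RR k
  adj : ∀ k γ, γ ∈ D.Lp k → ∀ s, D.adj k γ (f s) = f (D.adj k γ s)

theorem oadm_aO : D.OAdm D.aO := ⟨inferInstance, D.inv_RR, fun k g z h => D.adj_eqv k g h⟩

theorem IsBFN.toB {D : Qv I P E κ} {ι : D.Io A} (h : D.IsBFN ι) : D.IsBFNb D.aO ι :=
  ⟨h.inj, h.incl, h.surj, h.mul, h.one⟩

theorem pieceb_aO (ι : D.Io A) (ν : I → ℤ) (m p : ℤ) :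
    D.pieceb D.aO ι ν m p = D.piece ι ν m p := rfl

section

variable {D b} (hb : D.OAdm b)
include hb

theorem OAdm.okF : (D.aFb b).Ok :=
  have := hb.ok
  ⟨fun z => Prod.ext (congrArg Prod.fst (D.aF.act_one z) :) (b.act_one _),
    fun g h z => Prod.ext (congrArg Prod.fst (D.aF.act_mul g h z) :) (b.act_mul _ _ _),
    D.cOkF.cont.fst.prodMk (b.cont_act continuous_fst.snd continuous_snd.snd)⟩

theorem OAdm.inv_UF (k : ℕ) : (D.aFb b).Inv (D.UF k) := fun g z hz =>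
  ⟨D.aF_Lp g hz.1, by
    change (tw k (D.aF.act g z).1 (0 : En P 0) k, _) ∈ _
    rw [D.zs_tw0]
    exact hb.rr k g.2 (tw k z.1 (0 : En P 0) k, z.2) hz.2⟩

theorem OAdm.inv_Z1 (k l : ℕ) (g : D.KKT.H) {Q : En P l} {z : (ℤ → Matrix P P ℂ) × D.NO}
    (hz : z.1 ∈ D.Lp k) (h : (Q, z) ∈ D.Z1 k l) :
    ((D.aE l).act (D.p13 g) Q, (D.aFb b).act g z) ∈ D.Z1 k l := by
  change (_, D.adj k ((D.aFb b).act g z).1 ((D.aFb b).act g z).2) ∈ D.RR l
  rw [hb.adj k g z hz]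
  exact hb.rr l (D.p13 g) (Q, D.adj k z.1 z.2) h

theorem OAdm.pr_U {X : Type} [TopologicalSpace X] (a : Act D.KKT X) (k : ℕ)
    {Z : Set (X × (ℤ → Matrix P P ℂ) × D.NO)} (hZ : IsClosed Z)
    (h : ∀ g, ∀ x ∈ Z, x.2 ∈ D.UF k → (a.prod (D.aFb b)).act g x ∈ Z) :
    (a.prod (D.aFb b)).Pr (univ ×ˢ D.UF k) Z :=
  ⟨(isClosed_univ.prod (D.zs_closed_UF k)).isLocallyClosed,
    fun g x hx => ⟨trivial, hb.inv_UF k g _ hx.2⟩, fun g x hx hz => h g x hz hx.2,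
    fun x hx => closure_minimal inter_subset_right hZ hx.2⟩

theorem OAdm.pr_Z1 (k l : ℕ) :
    (((D.aE l).res D.p13).prod (D.aFb b)).Pr (univ ×ˢ D.UF k) (D.Z1 k l) :=
  hb.pr_U _ k (D.zs_closed_Z1 k l) fun g x hx hu => hb.inv_Z1 k l g hu.1 hx

theorem OAdm.pr_Z2 (k l : ℕ) :
    (((D.aE (k + l)).res Prod.snd).prod (D.aFb b)).Pr (univ ×ˢ D.UF k) (D.Z2 k l) :=
  hb.pr_U _ k (D.zs_closed_Z2 k l) fun g x ⟨Q, hQ, e⟩ hu =>
    ⟨(D.aE l).act (D.p13 g) Q, hb.inv_Z1 k l g hu.1 hQ,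
      (congrArg ((D.aE (k + l)).act g.2) e).trans (D.tw_eqv k l (k + l) g x.2 Q).symm⟩

omit hb in
theorem gb_qq_eqv (k l : ℕ) (g : D.KKT.H) (x : En P (k + l) × (ℤ → Matrix P P ℂ) × D.NO) :
    D.qq k l ((((D.aE (k + l)).res Prod.snd).prod (D.aFb b)).act g x) =
      ((D.aE k).prod ((D.aE (k + l)).prod b)).act g.2 (D.qq k l x) :=
  Prod.ext (D.zs_tw0 k g x.2) rfl

theorem OAdm.act1 (k l : ℕ) (u : Ub D.col) (x : En P (k + l) × (ℤ → Matrix P P ℂ) × D.NO) :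
    (((D.aE (k + l)).res Prod.snd).prod (D.aFb b)).act ((u, 1) : D.KKT.H) x =
      (((D.aE (k + l)).res Prod.snd).prod D.aF).act ((u, 1) : D.KKT.H) x :=
  have := hb.ok
  Prod.ext rfl (Prod.ext rfl ((b.act_one x.2.2).trans (D.aO.act_one x.2.2).symm))

theorem OAdm.fib (k l : ℕ) {x x' : En P (k + l) × (ℤ → Matrix P P ℂ) × D.NO}
    (h : x.2.1 ∈ D.Lp k) (h' : x'.2.1 ∈ D.Lp k) (e : D.qq k l x = D.qq k l x') :
    ∃! u : Ub D.col,
      (((D.aE (k + l)).res Prod.snd).prod (D.aFb b)).act ((u, 1) : D.KKT.H) x = x' :=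
  (existsUnique_congr fun u => by rw [hb.act1]).1 (D.zs_fib k l h h' e)

theorem OAdm.inv_A3 (k l : ℕ) : ((D.aE k).prod ((D.aE (k + l)).prod b)).Inv (D.A3 k l) :=
  fun g z hz => hb.rr k g (z.1, z.2.2) hz

theorem OAdm.inv_Z3 (k l : ℕ) : ((D.aE k).prod ((D.aE (k + l)).prod b)).Inv (D.Z3 k l) := by
  rintro g _ ⟨x, hx, rfl⟩
  exact ⟨_, ⟨(hb.pr_Z2 k l).invz (1, g) x hx.2 hx.1, (hb.pr_Z2 k l).inv (1, g) x hx.2⟩,
    gb_qq_eqv k l (1, g) x⟩

theorem OAdm.pr_RR (k : ℕ) : ((D.aE k).prod b).Pr univ (D.RR k) :=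
  Act.pr_univ _ (D.isClosed_RR k) (hb.rr k)

theorem OAdm.pr_RR' (k : ℕ) : ((D.aE k).prod b).Pr (univ ×ˢ univ) (D.RR k) := by
  rw [univ_prod_univ]
  exact hb.pr_RR k

theorem OAdm.pr_comp (ν : I → ℤ) (k : ℕ) (m c : ℤ) :
    ((D.aE k).prod b).Pr univ (D.comp ν k m c) :=
  Act.pr_univ _ (D.isClosed_comp ν k m c) fun g z hz => ⟨hb.rr k g z hz.1,
    (D.inv_comp ν k m c g (z.1, 0) ⟨D.zero_mem_RR.2 (D.mem_RR.1 hz.1).1, hz.2⟩).2⟩

theorem OAdm.padm_incl (k : ℕ) : PAdm b (D.aE k) (D.aE (k + 1)) (fun z => upE k z.1) univ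
    (D.RR k) (D.RR (k + 1)) :=
  ⟨Act.pr_top _, hb.pr_RR' k, hb.pr_RR' (k + 1),
    (continuous_upE k).comp continuous_fst, fun g y => D.upE_eqv k g y.1,
    fun _ hy _ => D.upE_RR hy, (D.bdd_Gr k).imp fun _ h y hy _ => h _ (D.mem_RR.1 hy).1⟩

theorem OAdm.padm_tw (k l : ℕ) : PAdm (D.aFb b) ((D.aE l).res D.p13)
    ((D.aE (k + l)).res Prod.snd) (fun z => tw k z.2.1 z.1 (k + l)) (D.UF k) (D.Z1 k l)
    (D.Z2 k l) :=
  ⟨Act.pr_of _ (D.zs_closed_UF k).isLocallyClosed (hb.inv_UF k) isClosed_univ fun _ _ _ => trivial,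
    hb.pr_Z1 k l, hb.pr_Z2 k l, zs_tw k l (k + l) continuous_snd.fst continuous_fst,
    fun g y => D.tw_eqv k l (k + l) g y.2 y.1, fun y hy _ => ⟨y.1, hy, rfl⟩,
    (D.bdd_Gr l).imp fun _ h y hy _ => h _ (D.mem_RR.1 hy).1⟩

theorem OAdm.gadm_adj (k l : ℕ) : GAdm (((D.aE l).res D.p13).prod (D.aFb b)) ((D.aE l).prod b)
    D.p13 (fun z => (z.1, D.adj k z.2.1 z.2.2)) (univ ×ˢ D.UF k) (D.Z1 k l) univ (D.RR l) :=
  ⟨hb.pr_Z1 k l, hb.pr_RR l, (D.zs_cont_adj k l).continuousOn,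
    fun g x hx => Prod.ext rfl (hb.adj k g _ hx.2.1), fun _ _ => trivial, fun _ _ hx => hx⟩

theorem OAdm.pr_Z3 (k l : ℕ) : ((D.aE k).prod ((D.aE (k + l)).prod b)).Pr univ (D.Z3 k l) :=
  Act.pr_univ _ (D.isClosed_Z3 k l) (hb.inv_Z3 k l)

theorem OAdm.pr_A3 (k l : ℕ) : ((D.aE k).prod ((D.aE (k + l)).prod b)).Pr univ (D.A3 k l) :=
  Act.pr_univ _ (D.zs_closed_A3 k l) (hb.inv_A3 k l)

theorem OAdm.pr_A3Z3 (k l : ℕ) :
    ((D.aE k).prod ((D.aE (k + l)).prod b)).Pr (D.A3 k l) (D.Z3 k l) :=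
  Act.pr_of _ (D.zs_closed_A3 k l).isLocallyClosed (hb.inv_A3 k l) (D.isClosed_Z3 k l)
    (hb.inv_Z3 k l)

theorem OAdm.gadm_qq (k l : ℕ) : GAdm (((D.aE (k + l)).res Prod.snd).prod (D.aFb b))
    ((D.aE k).prod ((D.aE (k + l)).prod b)) Prod.snd
    (D.qq k l) (univ ×ˢ D.UF k) (D.Z2 k l) (D.A3 k l) (D.Z3 k l) := by
  refine ⟨hb.pr_Z2 k l, hb.pr_A3Z3 k l, (D.zs_cont_qq k l).continuousOn,
    fun g x _ => gb_qq_eqv k l g x, fun x hx => hx.2.2, fun x hx ⟨x', hx', e⟩ => ?_⟩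
  obtain ⟨u, hu, -⟩ := hb.fib k l hx'.2.2.1 hx.2.1 e
  exact hu ▸ (hb.pr_Z2 k l).invz _ x' hx'.2 hx'.1

theorem OAdm.bij_qq (k l : ℕ) : Function.Bijective
    (gp (((D.aE (k + l)).res Prod.snd).prod (D.aFb b)) Prod.snd (D.qq k l) (univ ×ˢ D.UF k)
      (D.Z2 k l) : EH ((D.aE k).prod ((D.aE (k + l)).prod b)) (D.A3 k l) (D.Z3 k l) → _) := by
  have := hb.ok
  have := hb.okF
  refine stackIso (hb.gadm_qq k l) (fun x hx hz => ⟨x, ⟨hz, hx⟩, rfl⟩) (fun y hy => ?_)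
    (fun x hx x' hx' g e => ?_) fun K _ hK => ?_
  · obtain ⟨γ, h, e⟩ := D.exists_frame (D.mem_RR.1 hy).1
    refine ⟨1, (y.2.1, γ, y.2.2), ⟨trivial, h, ?_⟩, ?_⟩
    · change (tw k γ (0 : En P 0) k, y.2.2) ∈ _
      rw [e]
      exact hy
    · rw [Act.act_one]
      exact Prod.ext e rfl
  · have m : ∀ u : Ub D.col,
        (((D.aE (k + l)).res Prod.snd).prod (D.aFb b)).act ((u, g) : D.KKT.H) x =
        (((D.aE (k + l)).res Prod.snd).prod (D.aFb b)).act ((u, 1) : D.KKT.H)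
          ((((D.aE (k + l)).res Prod.snd).prod (D.aFb b)).act ((1, g) : D.KKT.H) x) := fun u => by
      rw [← Act.act_mul]
      congr 1
      exact Prod.ext (mul_one u).symm (one_mul g).symm
    obtain ⟨u, hu, hv⟩ := hb.fib k l ((hb.pr_Z2 k l).inv (1, g) x hx).2.1 hx'.2.1
      ((gb_qq_eqv k l (1, g) x).trans e)
    refine ⟨(u, g), ⟨rfl, (m u).trans hu⟩, ?_⟩
    rintro ⟨v, g'⟩ ⟨rfl, h⟩
    exact Prod.ext (hv v ((m v).symm.trans h)) rfl
  · refine ((hK.image continuous_snd.fst).prod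
      ((D.isCompact_Lp k).prod (hK.image continuous_snd.snd))).of_isClosed_subset
      ((isClosed_univ.prod (D.zs_closed_UF k)).inter (hK.isClosed.preimage (D.zs_cont_qq k l)))
      fun x hx => ⟨⟨_, hx.2, rfl⟩, hx.1.2.1, ⟨_, hx.2, rfl⟩⟩

theorem OAdm.gadm_13 (k l : ℕ) : GAdm ((D.aE k).prod ((D.aE (k + l)).prod b)) ((D.aE k).prod b) id
    (fun z => (z.1, z.2.2)) univ (D.A3 k l) univ (D.RR k) :=
  ⟨hb.pr_A3 k l, hb.pr_RR k, (continuous_fst.prodMk continuous_snd.snd).continuousOn,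
    fun _ _ _ => rfl, fun _ _ => trivial, fun _ _ hx => hx⟩

theorem OAdm.ecup_conv (k l : ℕ) : ECup ((D.aE k).prod ((D.aE (k + l)).prod b)) univ (D.A3 k l)
    (D.A3 k l) (D.Z3 k l) univ (D.Z3 k l) :=
  ⟨hb.pr_A3 k l, hb.pr_A3Z3 k l, hb.pr_Z3 k l, (D.ecup_conv k l).ok⟩

theorem OAdm.iadm_conv (k l : ℕ) : IAdm ((D.aE (k + l)).prod b)
    ((D.aE k).prod ((D.aE (k + l)).prod b)) (D.aE k) Prod.snd Prod.fst univ
    (D.RR (k + l)) univ (D.Z3 k l) :=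
  have := hb.ok
  iadm_prod (hb.pr_RR (k + l)) (hb.pr_Z3 k l) (subset_univ _) (fun _ hy _ => (D.Z3_sub hy).2)
    ((D.bdd_Gr k).imp fun _ h y hy _ => h _ (D.mem_RR.1 (D.Z3_sub hy).1).1)

end

/-- the pull-back along `id × f` -/
abbrev trb {b' : Act (KT D.col κ) D.NO} (f : D.NO → D.NO) (k : ℕ) (Z : Set (En P k × D.NO)) :
    D.HRb b' k Z →ₗ[ℂ] D.HRb b k Z := gp ((D.aE k).prod b) id (fun z => (z.1, f z.2)) univ Z

section

variable {D b} {b' : Act (KT D.col κ) D.NO} {f : D.NO → D.NO} (hf : D.OMor b b' f)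
include hf

theorem OMor.gadm {X : Type} [TopologicalSpace X] {a : Act (KT D.col κ) X}
    {U Z U' Z' : Set (X × D.NO)} (h : (a.prod b).Pr U Z) (h' : (a.prod b').Pr U' Z')
    (m : ∀ x ∈ U, (x.1, f x.2) ∈ U') (s : ∀ x ∈ U, (x.1, f x.2) ∈ Z' → x ∈ Z) :
    GAdm (a.prod b) (a.prod b') id (fun z => (z.1, f z.2)) U Z U' Z' :=
  ⟨h, h', (continuous_fst.prodMk (hf.cont.comp continuous_snd)).continuousOn,
    fun g x _ => Prod.ext rfl (hf.eqv g x.2), m, s⟩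

theorem OMor.gadm3 {k l : ℕ} {U Z U' Z' : Set (En P k × En P l × D.NO)}
    (h : ((D.aE k).prod ((D.aE l).prod b)).Pr U Z)
    (h' : ((D.aE k).prod ((D.aE l).prod b')).Pr U' Z')
    (m : ∀ x ∈ U, (x.1, x.2.1, f x.2.2) ∈ U') (s : ∀ x ∈ U, (x.1, x.2.1, f x.2.2) ∈ Z' → x ∈ Z) :
    GAdm ((D.aE k).prod ((D.aE l).prod b)) ((D.aE k).prod ((D.aE l).prod b')) id
      (fun z => (z.1, z.2.1, f z.2.2)) U Z U' Z' :=
  ⟨h, h', (continuous_fst.prodMk
      (continuous_snd.fst.prodMk (hf.cont.comp continuous_snd.snd))).continuousOn,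
    fun g x _ => Prod.ext rfl (Prod.ext rfl (hf.eqv g x.2.2)), m, s⟩

theorem OMor.uf {k : ℕ} {γ : ℤ → Matrix P P ℂ} {s : D.NO} :
    (γ, f s) ∈ D.UF k ↔ (γ, s) ∈ D.UF k := and_congr Iff.rfl (hf.rr k _ s)

theorem OMor.z1 {k l : ℕ} {Q : En P l} {γ : ℤ → Matrix P P ℂ} (h : γ ∈ D.Lp k) {s : D.NO} :
    (Q, γ, f s) ∈ D.Z1 k l ↔ (Q, γ, s) ∈ D.Z1 k l := by
  change (Q, D.adj k γ (f s)) ∈ D.RR l ↔ _
  rw [hf.adj k γ h, hf.rr]
  rfl

theorem OMor.z2 {k l : ℕ} {Q : En P (k + l)} {γ : ℤ → Matrix P P ℂ} (h : γ ∈ D.Lp k) {s : D.NO} :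
    (Q, γ, f s) ∈ D.Z2 k l ↔ (Q, γ, s) ∈ D.Z2 k l :=
  exists_congr fun _ => and_congr (hf.z1 h) Iff.rfl

theorem OMor.z3 {k l : ℕ} {x : En P k × En P (k + l) × D.NO}
    (h : (x.1, x.2.1, f x.2.2) ∈ D.Z3 k l) : x ∈ D.Z3 k l := by
  obtain ⟨⟨Q, γ, s⟩, ⟨h1, -, h2⟩, e⟩ := h
  obtain rfl : s = f x.2.2 := congrArg (fun z => z.2.2) e
  exact ⟨(Q, γ, x.2.2), ⟨(hf.z2 h2.1).1 h1, trivial, hf.uf.1 h2⟩,
    Prod.ext (congrArg Prod.fst e :) (Prod.ext (congrArg (fun z => z.2.1) e :) rfl)⟩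

variable (hb : D.OAdm b) (hb' : D.OAdm b')
include hb hb'

theorem OMor.gRR (k : ℕ) : GAdm ((D.aE k).prod b) ((D.aE k).prod b') id (fun z => (z.1, f z.2))
    univ (D.RR k) univ (D.RR k) :=
  hf.gadm (hb.pr_RR k) (hb'.pr_RR k) (fun _ _ => trivial) fun x _ => (hf.rr k x.1 x.2).1

theorem OMor.gcomp (ν : I → ℤ) (k : ℕ) (m c : ℤ) : GAdm ((D.aE k).prod b) ((D.aE k).prod b') id
    (fun z => (z.1, f z.2)) univ (D.comp ν k m c) univ (D.comp ν k m c) :=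
  hf.gadm (hb.pr_comp ν k m c) (hb'.pr_comp ν k m c) (fun _ _ => trivial)
    fun x _ h => ⟨(hf.rr k x.1 x.2).1 h.1, h.2⟩

theorem OMor.tr_up (k : ℕ) (a : D.HRb b' k (D.RR k)) :
    D.trb b f (k + 1) _ (D.upb b' k a) = D.upb b k (D.trb b f k _ a) := by
  have := hb.ok
  have := hb'.ok
  have g₁ : ∀ k, GAdm ((D.aE k).prod b) ((D.aE k).prod b') id (fun z => (z.1, f z.2))
      (univ ×ˢ univ) (D.RR k) (univ ×ˢ univ) (D.RR k) := fun k =>
    hf.gadm (hb.pr_RR' k) (hb'.pr_RR' k) (fun _ _ => ⟨trivial, trivial⟩)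
      fun x _ => (hf.rr k x.1 x.2).1
  have i₁ := gadm_id (hb'.pr_RR' (k + 1)) (hb'.pr_RR (k + 1)) (fun _ _ => ⟨trivial, trivial⟩)
    inter_subset_right
  have i₂ := gadm_id (hb.pr_RR' (k + 1)) (hb.pr_RR (k + 1)) (fun _ _ => ⟨trivial, trivial⟩)
    inter_subset_right
  have i₃ := gadm_id (hb'.pr_RR k) (hb'.pr_RR' k) (subset_univ _) inter_subset_right
  have i₄ := gadm_id (hb.pr_RR k) (hb.pr_RR' k) (subset_univ _) inter_subset_right
  have e := gp_push (hb'.padm_incl k) (hb.padm_incl k) hf.cont hf.eqv (fun _ _ => trivial)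
    (fun _ _ => rfl) (fun v x _ => (hf.rr k v x).1) (fun v x _ => (hf.rr (k + 1) v x).1)
    (gp ((D.aE k).prod b') id id (univ ×ˢ univ) (D.RR k) a)
  rw [gp_comp i₃ (g₁ k) (χ := id) (fun _ => rfl) (k := fun z => (z.1, f z.2)) fun _ _ => rfl,
    ← gp_comp (hf.gRR hb hb' k) i₄ (χ := id) (fun _ => rfl) (k := fun z => (z.1, f z.2))
      fun _ _ => rfl] at e
  exact ((gp_comp i₁ (hf.gRR hb hb' (k + 1)) (χ := id) (fun _ => rfl)
    (k := fun z => (z.1, f z.2)) (fun _ _ => rfl) _).trans (gp_comp (g₁ (k + 1)) i₂ (χ := id)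
      (fun _ => rfl) (k := fun z => (z.1, f z.2)) (fun _ _ => rfl) _).symm).trans (congrArg _ e)

theorem OMor.tr_tws (k l : ℕ) (x : D.HRb b' l (D.RR l)) :
    gp ((D.aE k).prod ((D.aE (k + l)).prod b)) id (fun z => (z.1, z.2.1, f z.2.2)) (D.A3 k l)
      (D.Z3 k l) (D.twsb b' k l x) = D.twsb b k l (D.trb b f l _ x) := by
  have := hb.ok
  have := hb'.ok
  have := hb.okF
  have := hb'.okF
  have c₀ : Continuous fun z : (ℤ → Matrix P P ℂ) × D.NO => (z.1, f z.2) :=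
    continuous_fst.prodMk (hf.cont.comp continuous_snd)
  have g₀ : ∀ {X : Type} [TopologicalSpace X] {a : Act D.KKT X}
      {Z : Set (X × (ℤ → Matrix P P ℂ) × D.NO)}, (a.prod (D.aFb b)).Pr (univ ×ˢ D.UF k) Z →
      (a.prod (D.aFb b')).Pr (univ ×ˢ D.UF k) Z →
      (∀ x : X × (ℤ → Matrix P P ℂ) × D.NO, x.2 ∈ D.UF k → (x.1, x.2.1, f x.2.2) ∈ Z → x ∈ Z) →
      GAdm (a.prod (D.aFb b)) (a.prod (D.aFb b')) id (fun z => (z.1, z.2.1, f z.2.2))
        (univ ×ˢ D.UF k) Z (univ ×ˢ D.UF k) Z := fun h h' s =>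
    ⟨h, h', (continuous_fst.prodMk (c₀.comp continuous_snd)).continuousOn,
      fun g x _ => Prod.ext rfl (Prod.ext rfl (hf.eqv g.2 x.2.2)),
      fun x m => ⟨trivial, hf.uf.2 m.2⟩, fun x m => s x m.2⟩
  have g₁ := g₀ (hb.pr_Z1 k l) (hb'.pr_Z1 k l) fun x m => (hf.z1 m.1).1
  have g₂ := g₀ (hb.pr_Z2 k l) (hb'.pr_Z2 k l) fun x m => (hf.z2 m.1).1
  have g₃ := hf.gadm3 (hb.pr_A3Z3 k l) (hb'.pr_A3Z3 k l) (fun x m => (hf.rr k x.1 x.2.2).2 m)
    fun x _ => hf.z3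
  have e := gp_push (hb'.padm_tw k l) (hb.padm_tw k l) c₀
    (fun g x => Prod.ext rfl (hf.eqv g.2 x.2)) (fun x m => hf.uf.2 m)
    (fun _ _ => rfl) (fun v x m => (hf.z1 m.1).1) (fun v x m => (hf.z2 m.1).1)
    (gp (((D.aE l).res D.p13).prod (D.aFb b')) D.p13 (fun z => (z.1, D.adj k z.2.1 z.2.2))
      (univ ×ˢ D.UF k) (D.Z1 k l) x)
  have e' := (gp_comp (hb'.gadm_adj k l) g₁ (χ := D.p13) (fun _ => rfl)
    (k := fun z => (z.1, D.adj k z.2.1 (f z.2.2))) (fun _ _ => rfl) x).trans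
    (gp_comp (hf.gRR hb hb' l) (hb.gadm_adj k l) (χ := D.p13) (fun _ => rfl)
      (k := fun z => (z.1, D.adj k z.2.1 (f z.2.2)))
      (fun z m => Prod.ext rfl (hf.adj k _ m.2.1 _)) x).symm
  refine (hb.bij_qq k l).1 (Eq.trans ?_ (apply_linv (hb.bij_qq k l) _).symm)
  refine ((gp_comp g₃ (hb.gadm_qq k l) (χ := Prod.snd) (fun _ => rfl)
    (k := fun z => D.qq k l (z.1, z.2.1, f z.2.2)) (fun _ _ => rfl) _).trans
    (gp_comp (hb'.gadm_qq k l) g₂ (χ := Prod.snd) (fun _ => rfl)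
      (k := fun z => D.qq k l (z.1, z.2.1, f z.2.2)) (fun _ _ => rfl) _).symm).trans ?_
  exact (congrArg _ (apply_linv (hb'.bij_qq k l) _)).trans (e.trans (congrArg _ e'))

theorem OMor.tr_cnv (k l : ℕ) (a : D.HRb b' k (D.RR k)) (x : D.HRb b' l (D.RR l)) :
    D.trb b f (k + l) _ (D.cnvb b' k l a x) =
      D.cnvb b k l (D.trb b f k _ a) (D.trb b f l _ x) := by
  have := hb.ok
  have := hb'.ok
  have g₁ := hf.gadm3 (hb.pr_Z3 k l) (hb'.pr_Z3 k l) (fun _ _ => trivial) fun x _ => hf.z3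
  have g₂ := hf.gadm3 (hb.pr_A3 k l) (hb'.pr_A3 k l) (fun _ _ => trivial)
    fun x _ => (hf.rr k x.1 x.2.2).1
  have g₃ := hf.gadm3 (hb.pr_A3Z3 k l) (hb'.pr_A3Z3 k l) (fun x m => (hf.rr k x.1 x.2.2).2 m)
    fun x _ => hf.z3
  refine (gp_intg (hb'.iadm_conv k l) (hb.iadm_conv k l) (hf.gRR hb hb' (k + l)) g₁
    (fun _ _ => rfl) (fun _ _ => rfl) (fun _ _ => rfl) _).trans (congrArg _ ?_)
  refine (gp_ecup (hb'.ecup_conv k l) (hb.ecup_conv k l) g₁ g₂ g₃ subset_rfl (subset_univ _)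
    _ _).trans ?_
  exact congrArg₂ (fun u v => ecup univ (D.Z3 k l) u v)
    ((gp_comp (hb'.gadm_13 k l) g₂ (χ := id) (fun _ => rfl)
      (k := fun z => (z.1, f z.2.2)) (fun _ _ => rfl) a).trans
    (gp_comp (hf.gRR hb hb' k) (hb.gadm_13 k l) (χ := id) (fun _ => rfl)
      (k := fun z => (z.1, f z.2.2)) (fun _ _ => rfl) a).symm) (hf.tr_tws hb hb' k l x)

theorem OMor.tr_unt (c : D.HP) : D.trb b f 0 _ (D.untb b' c) = D.untb b c :=
  have := hb.ok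
  have := hb'.ok
  gp_comp (⟨hb'.pr_RR 0, Act.pr_pt _, continuousOn_const, fun _ _ _ => rfl, fun _ _ => trivial,
      fun x _ _ => D.RR_zero ▸ mem_univ x⟩ : GAdm ((D.aE 0).prod b') (Act.pt _) id (fun _ => ()) univ (D.RR 0)
      univ univ)
    (hf.gRR hb hb' 0) (χ := id) (fun _ => rfl) (k := fun _ => ()) (fun _ _ => rfl) c

theorem OMor.tr_comp (ν : I → ℤ) (k : ℕ) (m c : ℤ) (a : D.HRb b' k (D.comp ν k m c)) :
    D.trb b f k (D.RR k) (gpf ((D.aE k).prod b') id id univ (D.RR k) a) =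
      gpf ((D.aE k).prod b) id id univ (D.RR k) (D.trb b f k _ a) :=
  have := hb.ok
  have := hb'.ok
  (gp_comp (gadm_id (hb'.pr_comp ν k m c) (hb'.pr_RR k) subset_rfl fun _ h => h.2.1)
    (hf.gRR hb hb' k) (χ := id) (fun _ => rfl) (k := fun z => (z.1, f z.2)) (fun _ _ => rfl)
    a).trans (gp_comp (hf.gcomp hb hb' ν k m c)
      (gadm_id (hb.pr_comp ν k m c) (hb.pr_RR k) subset_rfl fun _ h => h.2.1)
      (χ := id) (fun _ => rfl) (k := fun z => (z.1, f z.2)) (fun _ _ => rfl) a).symm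

end

theorem trb_trb {b b' : Act (KT D.col κ) D.NO} [b.Ok] [b'.Ok] {f f' : D.NO → D.NO} {k : ℕ}
    {Z : Set (En P k × D.NO)}
    (hf : GAdm ((D.aE k).prod b) ((D.aE k).prod b') id (fun z => (z.1, f z.2)) univ Z univ Z)
    (hf' : GAdm ((D.aE k).prod b') ((D.aE k).prod b) id (fun z => (z.1, f' z.2)) univ Z univ Z)
    {Θ : ℝ → D.NO → D.NO} (hc : Continuous fun z : ℝ × D.NO => Θ z.1 z.2)
    (h : ∀ u, GAdm ((D.aE k).prod b) ((D.aE k).prod b) id (fun z => (z.1, Θ u z.2)) univ Z univ Z)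
    (e₁ : ∀ s, f' (f s) = Θ 0 s) (e : ∀ s, Θ 1 s = s) (a : D.HRb b k Z) :
    D.trb b f k Z (D.trb b' f' k Z a) = a :=
  (gp_comp hf' hf (χ := id) (fun _ => rfl) (k := fun z => (z.1, Θ 0 z.2))
    (fun z _ => Prod.ext rfl (e₁ z.2).symm) a).trans
    ((gp_htpy (F := fun u (z : En P k × D.NO) => (z.1, Θ u z.2))
      (continuous_snd.fst.prodMk (hc.comp (continuous_fst.prodMk continuous_snd.snd))).continuousOn
      (fun u _ => h u) a).trans
      ((gp_congr hf.src (k := id) (fun z _ => show (z.1, Θ 1 z.2) = z by rw [e]) a).trans (gp_id hf.src a)))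

theorem coul_transport {b b' : Act (KT D.col κ) D.NO} (hb : D.OAdm b) (hb' : D.OAdm b')
    {f f' : D.NO → D.NO} (hf : D.OMor b b' f) (hf' : D.OMor b' b f') {Θ : ℝ → D.NO → D.NO}
    (hc : Continuous fun z : ℝ × D.NO => Θ z.1 z.2) (h₁ : ∀ u, D.OMor b b (Θ u))
    (h₂ : ∀ u, D.OMor b' b' (Θ u)) (e₁ : ∀ s, f' (f s) = Θ 0 s) (e₂ : ∀ s, f (f' s) = Θ 0 s)
    (e : ∀ s, Θ 1 s = s) {ι' : D.Iob b' A} (h : D.IsBFNb b' ι') :
    ∃ ι : D.Iob b A, D.IsBFNb b ι ∧ (∀ ν m p, D.pieceb b ι ν m p = D.pieceb b' ι' ν m p) ∧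
      ∀ c, ι 0 (D.untb b c) = ι' 0 (D.untb b' c) := by
  have := hb.ok
  have := hb'.ok
  have r₁ := fun k => D.trb_trb (hf.gRR hb hb' k) (hf'.gRR hb' hb k) hc
    (fun u => (h₁ u).gRR hb hb k) e₁ e
  have r₂ := fun k => D.trb_trb (hf'.gRR hb' hb k) (hf.gRR hb hb' k) hc
    (fun u => (h₂ u).gRR hb' hb' k) e₂ e
  have r₃ := fun ν k m c => D.trb_trb (hf'.gcomp hb' hb ν k m c) (hf.gcomp hb hb' ν k m c) hc
    (fun u => (h₂ u).gcomp hb' hb' ν k m c) e₂ e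
  refine ⟨fun k => (ι' k).comp (D.trb b' f' k _).toAddMonoidHom,
    ⟨fun k => (h.inj k).comp (Function.LeftInverse.injective (r₁ k)),
      fun k a => (congrArg (ι' (k + 1)) (hf'.tr_up hb' hb k a)).trans (h.incl k _), fun x => ?_,
      fun k l a x => (congrArg (ι' (k + l)) (hf'.tr_cnv hb' hb k l a x)).trans (h.mul k l _ _),
      (congrArg (ι' 0) (hf'.tr_unt hb' hb _)).trans h.one⟩,
    fun ν m p => Set.ext fun x => ⟨fun ⟨k, c, a, ha, hx⟩ => ⟨k, c, D.trb b' f' k _ a, ha.gp _ _,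
      hx.trans (congrArg (ι' k) (hf'.tr_comp hb' hb ν k m c a))⟩,
      fun ⟨k, c, a, ha, hx⟩ => ⟨k, c, D.trb b f k _ a, ha.gp _ _, hx.trans (congrArg (ι' k)
        ((hf'.tr_comp hb' hb ν k m c _).trans (congrArg _ (r₃ ν k m c a))).symm)⟩⟩,
    fun c => congrArg (ι' 0) (hf'.tr_unt hb' hb c)⟩
  obtain ⟨k, a, rfl⟩ := h.surj x
  exact ⟨k, D.trb b f k _ a, congrArg (ι' k) (r₂ k a)⟩

end Qv

end Pool.Agent.Work.MP_849ab0_ag.G
end
end

-- merged part: Pool.Agent.Work.MP_849ab0_ag.G.F.Dg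
section
/-!
Task F-Dg. A continuous representation of a compact torus is diagonalisable, compatibly with a grading. Pure Mathlib.
Plan. `weight_span`: transport along x ↦ fun j => AddCircle.toCircle (x j) (surjective, continuous, additive to multiplicative) to UnitAddTorus κ; chr m of it is UnitAddTorus.mFourier m x.
For v and m put P m v = ∫ mFourier (-m) x • c x *ᵥ v (or coordinatewise mFourierCoeff); translation invariance of the measure gives c y *ᵥ P m v = mFourier m y • P m v.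
If a linear form φ kills all weight vectors, the continuous function x ↦ φ (c x *ᵥ v) has zero Fourier coefficients, so it vanishes (UnitAddTorus.hasSum_mFourier_series_of_summable, or
mFourierBasis), and at x = 0 this gives φ v = 0 (Submodule.exists_dual_map_eq_bot_of_lt_top or eq_top via dualAnnihilator).
`torus_diag0`: extract a basis from the spanning set (exists_linearIndependent, Basis.mk, reindex by cardinality); B' has the basis vectors as columns.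
`torus_diag`: apply it to the fibres {e // ty e = θ} (submatrix of c; sums over J reduce to the fibre) and glue.
-/

noncomputable section

set_option linter.unusedSectionVars false
set_option linter.unusedVariables false

namespace Pool.Agent.Work.MP_849ab0_ag.G

open Set Topology Matrix

variable {J C κ : Type} [Fintype J] [DecidableEq J] [Fintype κ] [DecidableEq κ]
  {c : (κ → Circle) → Matrix J J ℂ}

theorem dg_chr (m : κ → ℤ) (x : UnitAddTorus κ) :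
    chr m (fun j => AddCircle.toCircle (x j)) = UnitAddTorus.mFourier m x :=
  Finset.prod_congr rfl fun j _ => by
    rw [fourier_apply, AddCircle.toCircle_zsmul, Circle.coe_zpow]

theorem dg_add (m : κ → ℤ) (x y : UnitAddTorus κ) :
    UnitAddTorus.mFourier m (x + y) = UnitAddTorus.mFourier m x * UnitAddTorus.mFourier m y := by
  simp only [← dg_chr, chr, Pi.add_apply, AddCircle.toCircle_add, Circle.coe_mul, mul_zpow,
    Finset.prod_mul_distrib]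

open MeasureTheory UnitAddTorus in
theorem weight_span (hc : Continuous c) (h1 : c 1 = 1) (hm : ∀ σ τ, c (σ * τ) = c σ * c τ) :
    Submodule.span ℂ {v : J → ℂ | ∃ m : κ → ℤ, ∀ τ, c τ *ᵥ v = chr m τ • v} = ⊤ := by
  by_contra hne
  obtain ⟨φ, hφ, hk⟩ :=
    Submodule.exists_dual_map_eq_bot_of_lt_top (lt_top_iff_ne_top.2 hne) inferInstance
  refine hφ (LinearMap.ext fun v => ?_)
  let μ := Measure.pi fun _ : κ => (AddCircle.haarAddCircle : Measure UnitAddCircle)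
  let e : UnitAddTorus κ → κ → Circle := fun x j => AddCircle.toCircle (x j)
  have he : Continuous e :=
    continuous_pi fun j => AddCircle.continuous_toCircle.comp (continuous_apply j)
  have ha : ∀ x y, e (x + y) = e x * e y := fun x y => funext fun j => AddCircle.toCircle_add _ _
  let g : UnitAddTorus κ → J → ℂ := fun x => c (e x) *ᵥ v
  have hg : Continuous g := (hc.comp he).matrix_mulVec continuous_const
  have hi : ∀ m, Integrable (fun x => mFourier (-m) x • g x) μ := fun m =>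
    ((mFourier (-m)).continuous.smul hg).integrable_of_hasCompactSupport
      (HasCompactSupport.of_compactSpace _)
  have hw : ∀ m, φ (∫ x, mFourier (-m) x • g x ∂μ) = 0 := fun m => by
    refine (Submodule.mem_bot ℂ).1 (hk ▸ Submodule.mem_map_of_mem
      (Submodule.subset_span ⟨m, fun τ => ?_⟩))
    obtain ⟨y, rfl⟩ : ∃ y, e y = τ := by
      choose y hy using fun j => (AddCircle.homeomorphCircle (T := 1) one_ne_zero).surjective (τ j)
      exact ⟨y, funext fun j => (AddCircle.homeomorphCircle_apply _ _).symm.trans (hy j)⟩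
    refine ((c (e y)).mulVecLin.toContinuousLinearMap.integral_comp_comm (hi m)).symm.trans ?_
    rw [← integral_add_left_eq_self (fun x => mFourier (-m) x • g x) y, ← integral_smul, dg_chr]
    refine integral_congr_ae (.of_forall fun x => ?_)
    simp only [g, ha, hm, dg_add, smul_smul, ← mul_assoc, ← mFourier_add, add_neg_cancel,
      mFourier_zero, ContinuousMap.one_apply, one_mul, map_smul, ← mulVec_mulVec]
    rfl
  let f : C(UnitAddTorus κ, ℂ) := ⟨fun x => φ (g x), φ.continuous_of_finiteDimensional.comp hg⟩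
  have hf : mFourierCoeff f = 0 := funext fun m => by
    refine Eq.trans ?_ ((φ.toContinuousLinearMap.integral_comp_comm (hi m)).trans (hw m))
    exact integral_congr_ae (.of_forall fun x => (map_smul φ _ _).symm)
  have h0 := hasSum_mFourier_series_apply_of_summable (f := f) (hf ▸ summable_zero) 0
  simp only [hf, Pi.zero_apply, zero_smul] at h0
  have e0 : e 0 = 1 := funext fun j => AddCircle.toCircle_zero
  have h2 : φ (c (e 0) *ᵥ v) = 0 := h0.unique hasSum_zero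
  rwa [e0, h1, one_mulVec] at h2

theorem torus_diag0 (hc : Continuous c) (h1 : c 1 = 1) (hm : ∀ σ τ, c (σ * τ) = c σ * c τ) :
    ∃ (B B' : Matrix J J ℂ) (t : J → κ → ℤ), B * B' = 1 ∧ B' * B = 1 ∧
      ∀ τ, c τ = B' * diagonal (fun e => chr (t e) τ) * B := by
  obtain ⟨s, hs, hsp, hli⟩ :=
    exists_linearIndependent ℂ {v : J → ℂ | ∃ m : κ → ℤ, ∀ τ, c τ *ᵥ v = chr m τ • v}
  rw [weight_span hc h1 hm] at hsp
  let b0 := Module.Basis.mk hli (by rw [Subtype.range_coe]; exact hsp.ge)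
  let b := b0.reindex (b0.indexEquiv (Pi.basisFun ℂ J))
  have hb : ∀ j, ∃ m : κ → ℤ, ∀ τ, c τ *ᵥ b j = chr m τ • b j := fun j => by
    rw [Module.Basis.reindex_apply, Module.Basis.mk_apply]
    exact hs (Subtype.property _)
  choose t ht using hb
  have h2 := Module.Basis.toMatrix_mul_toMatrix_flip (Pi.basisFun ℂ J) b
  refine ⟨_, _, t, Module.Basis.toMatrix_mul_toMatrix_flip _ _, h2, fun τ => ?_⟩
  rw [← mul_one (c τ), ← h2, ← mul_assoc]
  congr 1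
  ext i j
  rw [mul_diagonal, mul_comm]
  exact congrFun (ht j τ) i

theorem dg_mul {ty : J → C} [DecidableEq C] {A : Matrix J J ℂ}
    (hA : ∀ e e', A e e' ≠ 0 → ty e = ty e') (B : Matrix J J ℂ) (θ : C) :
    (A * B).submatrix (Subtype.val : {e // ty e = θ} → J) (Subtype.val : {e // ty e = θ} → J) =
      A.submatrix Subtype.val (Subtype.val : {e // ty e = θ} → J) *
        B.submatrix Subtype.val Subtype.val := by
  ext e e'
  refine (Finset.sum_filter_of_ne (p := fun k => ty k = θ) fun k _ h => ?_).symm.trans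
    (Finset.sum_subtype _ (by simp) fun k => A e k * B k e')
  exact (hA _ _ (left_ne_zero_of_mul h)).symm.trans e.2

theorem dg_bmul {ty : J → C} {A B : Matrix J J ℂ} (hA : ∀ e e', A e e' ≠ 0 → ty e = ty e')
    (hB : ∀ e e', B e e' ≠ 0 → ty e = ty e') (e e' : J) (h : (A * B) e e' ≠ 0) :
    ty e = ty e' := by
  obtain ⟨k, -, hk⟩ := Finset.exists_ne_zero_of_sum_ne_zero h
  exact (hA e k (left_ne_zero_of_mul hk)).trans (hB k e' (right_ne_zero_of_mul hk))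

theorem dg_diag {ty : J → C} (d : J → ℂ) (e e' : J) (h : diagonal d e e' ≠ 0) : ty e = ty e' :=
  congrArg ty (by_contra fun k => h (diagonal_apply_ne d k))

theorem dg_ext {ty : J → C} {A B : Matrix J J ℂ} (hA : ∀ e e', A e e' ≠ 0 → ty e = ty e')
    (hB : ∀ e e', B e e' ≠ 0 → ty e = ty e')
    (H : ∀ θ, A.submatrix (Subtype.val : {e // ty e = θ} → J) (Subtype.val : {e // ty e = θ} → J) =
      B.submatrix Subtype.val Subtype.val) : A = B := by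
  ext e e'
  by_cases h : ty e = ty e'
  · exact congrFun (congrFun (H (ty e')) ⟨e, h⟩) ⟨e', rfl⟩
  · rw [by_contra (mt (hA e e') h), by_contra (mt (hB e e') h)]

theorem dg_glue {ty : J → C} (F : ∀ θ, Matrix {e // ty e = θ} {e // ty e = θ} ℂ) :
    ∃ A : Matrix J J ℂ, (∀ e e', A e e' ≠ 0 → ty e = ty e') ∧
      ∀ θ, A.submatrix Subtype.val Subtype.val = F θ := by
  classical
  refine ⟨fun e e' => if h : ty e = ty e' then F (ty e') ⟨e, h⟩ ⟨e', rfl⟩ else 0,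
    fun e e' h => by_contra fun k => h (dif_neg k), fun θ => ?_⟩
  ext ⟨e, h⟩ ⟨e', rfl⟩
  exact dif_pos h

theorem torus_diag (ty : J → C) (hc : Continuous c) (h1 : c 1 = 1)
    (hm : ∀ σ τ, c (σ * τ) = c σ * c τ) (ht : ∀ τ e e', c τ e e' ≠ 0 → ty e = ty e') :
    ∃ (B B' : Matrix J J ℂ) (t : J → κ → ℤ), (∀ e e', B e e' ≠ 0 → ty e = ty e') ∧
      (∀ e e', B' e e' ≠ 0 → ty e = ty e') ∧ B * B' = 1 ∧ B' * B = 1 ∧
      ∀ τ, c τ = B' * diagonal (fun e => chr (t e) τ) * B := by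
  classical
  choose B B' t h2 h3 h4 using fun θ => torus_diag0
    (c := fun τ => (c τ).submatrix (Subtype.val : {e // ty e = θ} → J) Subtype.val)
    (hc.matrix_submatrix _ _) (by rw [h1, submatrix_one _ Subtype.val_injective])
    fun σ τ => by rw [hm, dg_mul (ht σ)]
  obtain ⟨A, hA, eA⟩ := dg_glue B
  obtain ⟨A', hA', eA'⟩ := dg_glue B'
  refine ⟨A, A', fun e => t (ty e) ⟨e, rfl⟩, hA, hA',
    dg_ext (dg_bmul hA hA') (dg_diag _) fun θ => ?_,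
    dg_ext (dg_bmul hA' hA) (dg_diag _) fun θ => ?_,
    fun τ => dg_ext (ht τ) (dg_bmul (dg_bmul hA' (dg_diag _)) hA) fun θ => ?_⟩
  · rw [dg_mul hA, eA, eA', h2, submatrix_one _ Subtype.val_injective]
  · rw [dg_mul hA', eA, eA', h3, submatrix_one _ Subtype.val_injective]
  · rw [dg_mul (dg_bmul hA' (dg_diag _)), dg_mul hA', eA, eA', h4,
      submatrix_diagonal _ _ Subtype.val_injective]
    congr 3
    funext ⟨e, h⟩
    subst h
    rfl

end Pool.Agent.Work.MP_849ab0_ag.G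
end
end
end
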