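import Pool.Agent.Work.MP_849ab0_ag.G.H2.UL
import Pool.Agent.Work.MP_849ab0_ag.G.H1.MnA

-- merged part: Pool.Agent.Work.MP_849ab0_ag.G.F.TmB
section
/-!
Task F-TmB. Transposes, the moment map, stability.
Hints: x ⬝ᵥ ξ = ∑ e, trace (mat x e * (mat ξ e)ᵀ) (compare nsq_eq in QBasic). `Tm.vecMul`: test against all x with dotProduct_mulVec; Tm.sp_comm, dot_sp, dot_cm, scal_iff.
`Scal.comm`: if src e = tgt e then vtx (src e) acts as the identity on both sides of (mat y e)ᵀ; otherwise mat s e = 0 (it is diagonal with zero diagonal).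
`Tm.mu2`: write f x = cm c x + scalar (Tm.diff), the scalars drop out of the commutators (Scal.comm and its transpose), then exchange the sums.
`Tm.xs2`: a⁻¹ • c'ᵀ and a⁻¹ • cᵀ are left inverses of c and c'; Tm.inv, Tm.pres.
-/

noncomputable section

set_option linter.unusedSectionVars false
set_option linter.unusedVariables false

namespace Pool.Agent.Work.MP_849ab0_ag.G

open Set Topology Matrix

namespace Qv

variable {I P E κ : Type} [Fintype I] [DecidableEq I] [Fintype P] [DecidableEq P] [Fintype E]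
  [DecidableEq E] [Fintype κ] [DecidableEq κ] {D : Qv I P E κ} {c c' : Matrix E E ℂ}
  {f f' : Module.End ℂ D.Rep} {x y z : D.Rep} {g : Matrix P P ℂ} {ν : I → ℤ}

theorem tmb_dot (x ξ : D.Rep) : x ⬝ᵥ ξ = ∑ e, trace (D.mat x e * (D.mat ξ e)ᵀ) := by
  classical
  let F : E × Option P × Option P → ℂ := fun q =>
    D.mat x q.1 q.2.2 q.2.1 * D.mat ξ q.1 q.2.2 q.2.1
  have h1 : x ⬝ᵥ ξ = ∑ p : D.Wt, F p.1 := by simp only [dotProduct, F, mat_apply]
  have h2 : ∑ q ∈ Finset.univ.filter (fun p : E × Option P × Option P =>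
      p.2.1.map D.col = D.src p.1 ∧ p.2.2.map D.col = D.tgt p.1), F q = ∑ p : D.Wt, F p.1 :=
    Finset.sum_subtype _ (by simp) F
  rw [h1, ← h2, Finset.sum_filter_of_ne fun q _ k => by
    by_contra k'
    exact k (mul_eq_zero_of_right _ (dif_neg k'))]
  simp only [Fintype.sum_prod_type, F, trace, diag, Matrix.mul_apply, transpose_apply]
  exact Finset.sum_congr rfl fun e _ => Finset.sum_comm

theorem tmb_src (y : D.Rep) (e : E) : D.mat y e * D.vtx (D.src e) = D.mat y e := by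
  ext b a
  rw [vtx, mul_diagonal]
  split_ifs with k
  · exact mul_one _
  · rw [mul_zero, eq_comm]
    exact dif_neg fun k' => k k'.1

theorem tmb_tgt (y : D.Rep) (e : E) : D.vtx (D.tgt e) * D.mat y e = D.mat y e := by
  ext b a
  rw [vtx, diagonal_mul]
  split_ifs with k
  · exact one_mul _
  · rw [zero_mul, eq_comm]
    exact dif_neg fun k' => k k'.2

theorem tmb_tr (o : Option I) : (D.vtx o)ᵀ = D.vtx o := diagonal_transpose _

theorem dot_cm (h : D.Ty c) (x ξ : D.Rep) : D.cm c x ⬝ᵥ ξ = x ⬝ᵥ D.cm cᵀ ξ := by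
  simp only [tmb_dot, mat_cm h, mat_cm h.transpose, Finset.sum_mul, Finset.mul_sum, transpose_sum,
    transpose_smul, trace_sum, Matrix.smul_mul, Matrix.mul_smul, trace_smul, transpose_apply]
  exact Finset.sum_comm

theorem dot_sp (x ξ : D.Rep) : D.sp x ⬝ᵥ ξ = x ⬝ᵥ D.sp ξ := by
  simp only [tmb_dot, mat_sp]
  refine Finset.sum_congr rfl fun e _ => ?_
  have k : trace (D.vtx (D.src e) * (D.mat ξ e)ᵀ) = trace (D.mat ξ e) := by
    rw [← trace_transpose, transpose_mul, transpose_transpose, tmb_tr, tmb_src]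
  rw [Matrix.smul_mul, trace_smul, k, transpose_smul, Matrix.mul_smul, trace_smul, tmb_tr, tmb_src,
    smul_eq_mul, smul_eq_mul]
  ring

theorem Tm.vecMul {A : Matrix D.Wt D.Wt ℂ} (h : D.Tm A.mulVecLin c) :
    D.Tm A.vecMulLinear cᵀ := by
  classical
  have key : ∀ x ξ : D.Rep, A.vecMulLinear ξ ⬝ᵥ x = A.mulVecLin x ⬝ᵥ ξ := fun x ξ => by
    rw [vecMulLinear_apply, ← dotProduct_mulVec, dotProduct_comm, mulVecLin_apply]
  refine ⟨h.ty.transpose, fun ξ k => scal_iff.2 (dotProduct_eq _ _ fun x => ?_),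
    fun ξ k => dotProduct_eq _ _ fun x => ?_⟩
  · rw [dot_sp, key, key, ← h.sp_comm, dot_sp, scal_iff.1 k]
  · rw [key, dotProduct_comm (D.cm cᵀ ξ), ← dot_cm h.ty, ← sub_eq_zero, ← sub_dotProduct,
      ← scal_iff.1 (h.diff x), dot_sp, k, dotProduct_zero]

theorem Scal.comm (h : D.Scal x) (y : D.Rep) (e : E) :
    D.mat x e * (D.mat y e)ᵀ = (D.mat y e)ᵀ * D.mat x e := by
  obtain ⟨k, hk⟩ := h e
  by_cases l : D.src e = D.tgt e
  · have a1 : D.vtx (D.src e) * (D.mat y e)ᵀ = (D.mat y e)ᵀ := by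
      rw [← tmb_tr, ← transpose_mul, tmb_src]
    have a2 : (D.mat y e)ᵀ * D.vtx (D.src e) = (D.mat y e)ᵀ := by
      rw [← tmb_tr, ← transpose_mul, l, tmb_tgt]
    rw [hk, Matrix.smul_mul, Matrix.mul_smul, a1, a2]
  · have a0 : D.mat x e = 0 := by
      ext b a
      by_cases m : b = a
      · subst m
        exact dif_neg fun k' => l (k'.1.symm.trans k'.2)
      · rw [hk, Matrix.smul_apply, vtx, diagonal_apply_ne _ m, smul_zero, Matrix.zero_apply]
    rw [a0, Matrix.zero_mul, Matrix.mul_zero]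

variable {Q : Matrix (Option P) (Option P) ℂ}

theorem pres_vtx (hQ : IsPr (Option.map D.col) Q) (o : Option I) : Pres Q (D.vtx o) := by
  have k : D.vtx o * Q = Q * D.vtx o := by
    ext a b
    rw [vtx, diagonal_mul, mul_diagonal]
    by_cases m : a.map D.col = b.map D.col
    · rw [m, mul_comm]
    · rw [hQ.2.2 a b m, mul_zero, zero_mul]
  rw [Pres, Matrix.mul_assoc, k, ← Matrix.mul_assoc, Matrix.sub_mul, Matrix.one_mul, hQ.2.1,
    sub_self, Matrix.zero_mul]

theorem tmb_comb {V : Matrix (Option P) (Option P) ℂ} {Y : E → Matrix (Option P) (Option P) ℂ}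
    (hV : Pres Q V) (hY : ∀ e, Pres Q (Y e)) (k : ℂ) (b : E → ℂ) :
    Pres Q (k • V + ∑ e, b e • Y e) := by
  simp only [Pres] at hV hY ⊢
  simp only [Matrix.mul_add, Matrix.add_mul, Matrix.mul_sum, Matrix.sum_mul, Matrix.mul_smul,
    Matrix.smul_mul, hV, hY, smul_zero, Finset.sum_const_zero, add_zero]

theorem tmb_mat (hc : D.Ty c) (h : D.Scal (x - D.cm c y)) (e : E) :
    ∃ k : ℂ, D.mat x e = k • D.vtx (D.src e) + ∑ e', c e e' • D.mat y e' := by
  obtain ⟨k, hk⟩ := h e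
  exact ⟨k, by rw [← hk, ← mat_cm hc, ← mat_add, sub_add_cancel]⟩

theorem tmb_pres (hc : D.Ty c) (h : D.Scal (x - D.cm c y)) (hQ : IsPr (Option.map D.col) Q)
    (hy : ∀ e, Pres Q (D.mat y e)) (e : E) : Pres Q (D.mat x e) := by
  obtain ⟨k, hk⟩ := tmb_mat hc h e
  rw [hk]
  exact tmb_comb (pres_vtx hQ _) hy _ _

theorem tmb_pres' (hc : D.Ty c) (h : D.Scal (x - D.cm c y)) (hQ : IsPr (Option.map D.col) Q)
    (hy : ∀ e, Pres Q (D.mat y e)ᵀ) (e : E) : Pres Q (D.mat x e)ᵀ := by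
  obtain ⟨k, hk⟩ := tmb_mat hc h e
  rw [hk, transpose_add, transpose_smul, tmb_tr, transpose_sum]
  simp only [transpose_smul]
  exact tmb_comb (pres_vtx hQ _) hy _ _

theorem Tm.pres (h : D.Tm f c) (hQ : IsPr (Option.map D.col) Q) (hy : ∀ e, Pres Q (D.mat y e))
    (e : E) : Pres Q (D.mat (f y) e) := tmb_pres h.ty (h.diff y) hQ hy e

theorem Tm.pres' (h : D.Tm f c) (hQ : IsPr (Option.map D.col) Q) (hy : ∀ e, Pres Q (D.mat y e)ᵀ)
    (e : E) : Pres Q (D.mat (f y) e)ᵀ := tmb_pres' h.ty (h.diff y) hQ hy e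

theorem tmb_mu_l (h : D.Scal (x - y)) (ξ : D.Rep) : D.mu2 (x, ξ) = D.mu2 (y, ξ) := by
  refine Finset.sum_congr rfl fun e _ => ?_
  have k := h.comm ξ e
  rw [mat_sub', Matrix.sub_mul, Matrix.mul_sub] at k
  exact sub_eq_sub_iff_sub_eq_sub.1 k

theorem tmb_mu_r (h : D.Scal (y - z)) (x : D.Rep) : D.mu2 (x, y) = D.mu2 (x, z) := by
  refine Finset.sum_congr rfl fun e _ => ?_
  have k := congrArg transpose (h.comm x e)
  rw [transpose_mul, transpose_mul, transpose_transpose, mat_sub', transpose_sub, Matrix.sub_mul,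
    Matrix.mul_sub] at k
  exact sub_eq_sub_iff_sub_eq_sub.1 k

theorem Tm.mu2 (h : D.Tm f c) (h' : D.Tm f' c') {a : ℂ} (e : cᵀ * c' = a • 1) (x ξ : D.Rep) :
    D.mu2 (f x, f' ξ) = a • D.mu2 (x, ξ) := by
  rw [tmb_mu_l (h.diff x), tmb_mu_r (h'.diff ξ)]
  have k : ∀ e1 e2, ∑ e0, c e0 e1 * c' e0 e2 = if e1 = e2 then a else 0 := fun e1 e2 => by
    have := congrFun (congrFun e e1) e2
    simpa only [Matrix.mul_apply, transpose_apply, Matrix.smul_apply, one_apply, smul_eq_mul,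
      mul_ite, mul_one, mul_zero] using this
  have l : D.mu2 (D.cm c x, D.cm c' ξ) = ∑ e0, ∑ e1, ∑ e2, (c e0 e1 * c' e0 e2) •
      (D.mat x e1 * (D.mat ξ e2)ᵀ - (D.mat ξ e2)ᵀ * D.mat x e1) := by
    refine Finset.sum_congr rfl fun e0 _ => ?_
    simp only [mat_cm h.ty, mat_cm h'.ty, transpose_sum, transpose_smul, smul_sub,
      Finset.sum_sub_distrib]
    congr 1
    · simp only [Matrix.sum_mul, Matrix.mul_sum, Matrix.smul_mul, Matrix.mul_smul, Finset.smul_sum,
        smul_smul]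
      rw [Finset.sum_comm]
      exact Finset.sum_congr rfl fun _ _ => Finset.sum_congr rfl fun _ _ => by rw [mul_comm]
    · simp only [Matrix.sum_mul, Matrix.mul_sum, Matrix.smul_mul, Matrix.mul_smul, Finset.smul_sum,
        smul_smul]
  rw [l, Finset.sum_comm, Qv.mu2, Finset.smul_sum]
  refine Finset.sum_congr rfl fun e1 _ => ?_
  rw [Finset.sum_comm]
  simp only [← Finset.sum_smul, k, ite_smul, zero_smul, Finset.sum_ite_eq, Finset.mem_univ, if_true]

theorem Tm.xs2 (h : D.Tm f c) (h' : D.Tm f' c') {a : ℂ} (e : cᵀ * c' = a • 1) (ha : a ≠ 0)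
    {w : D.Rep × D.Rep} (hw : w ∈ D.Xs2 ν) : (f w.1, f' w.2) ∈ D.Xs2 ν := by
  have e' : c'ᵀ * c = a • 1 := by
    have := congrArg transpose e
    rwa [transpose_mul, transpose_transpose, transpose_smul, transpose_one] at this
  obtain ⟨d, hd, k⟩ := h.inv ⟨a⁻¹ • c'ᵀ, h'.ty.transpose.smul _, by
    rw [Matrix.smul_mul, e', smul_smul, inv_mul_cancel₀ ha, one_smul]⟩
  obtain ⟨d', hd', k'⟩ := h'.inv ⟨a⁻¹ • cᵀ, h.ty.transpose.smul _, by
    rw [Matrix.smul_mul, e, smul_smul, inv_mul_cancel₀ ha, one_smul]⟩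
  refine ⟨fun p q => ?_, fun Q hQ hp => hw.2 Q hQ fun e0 =>
    ⟨tmb_pres hd (k w.1) hQ (fun e1 => (hp e1).1) e0,
      tmb_pres' hd' (k' w.2) hQ (fun e1 => (hp e1).2) e0⟩⟩
  rw [h.mu2 h' e, Matrix.smul_apply, hw.1 p q, smul_zero]

end Qv

end Pool.Agent.Work.MP_849ab0_ag.G
end
end

-- merged part: Pool.Agent.Work.MP_849ab0_ag.G.F.TmC
section
/-!
Task F-TmC. The space of triples and conjugation by loops.
Hints: `pres_scal`: ser k (fun m => a m • vtx o) = ∑ m < 2 k, a m • (ser k (Pi.single 1 1)) ^ m * blockDiagonal (vtx o) (or argue with the operators of C/Band);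
Pres Q is closed under sums, scalar multiples and products when Q * Q = Q, and the graded projector ext Q commutes with the diagonal matrix of the vertex.
`Tm.rr`: mat (f y) e = ∑ c e e' • mat y e' + scalar (Tm.diff), ser is linear. `adj_scal`: mat_adj, twH_left (the hats of γ x commute with vtx o, loop_col_hat).
`sp_adj`: the trace of mat (adj k γ s m) e is the trace of mat (s m) e (trace_mul_comm, twH_right). `Tm.adj`: s = (s - sp s) + sp s, adj is additive.
-/

noncomputable section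

set_option linter.unusedSectionVars false
set_option linter.unusedVariables false

namespace Pool.Agent.Work.MP_849ab0_ag.G

open Set Topology Matrix

namespace Qv

variable {I P E κ : Type} [Fintype I] [DecidableEq I] [Fintype P] [DecidableEq P] [Fintype E]
  [DecidableEq E] [Fintype κ] [DecidableEq κ] {D : Qv I P E κ} {c c' : Matrix E E ℂ}
  {f f' : Module.End ℂ D.Rep} {x y z : D.Rep} {g : Matrix P P ℂ} {ν : I → ℤ}

variable {k : ℕ} {Q : En P k} {s : D.NO} {γ : ℤ → Matrix P P ℂ}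

/-- `ser` as a linear map -/
def tmc_ser (P : Type) [Fintype P] [DecidableEq P] (k : ℕ) :
    (ℕ → Matrix (Option P) (Option P) ℂ) →ₗ[ℂ] Matrix (Option P × Pos k) (Option P × Pos k) ℂ where
  toFun := ser k
  map_add' s t := by
    ext y x
    simp only [ser, of_apply, Matrix.add_apply, Pi.add_apply]
    split_ifs
    exacts [rfl, (add_zero _).symm]
  map_smul' a s := by
    ext y x
    simp only [ser, of_apply, Matrix.smul_apply, Pi.smul_apply, RingHom.id_apply]
    split_ifs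
    exacts [rfl, (smul_zero _).symm]

/-- the matrices that preserve the image of `Q` -/
def tmc_sub {J : Type} [Fintype J] [DecidableEq J] (Q : Matrix J J ℂ) :
    Submodule ℂ (Matrix J J ℂ) where
  carrier := {y | Pres Q y}
  add_mem' {a b} ha hb := by
    show (1 - Q) * (a + b) * Q = 0
    rw [mul_add, add_mul, show (1 - Q) * a * Q = 0 from ha, show (1 - Q) * b * Q = 0 from hb,
      add_zero]
  zero_mem' := by
    show (1 - Q) * 0 * Q = 0
    rw [mul_zero, zero_mul]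
  smul_mem' r a ha := by
    show (1 - Q) * (r • a) * Q = 0
    rw [Matrix.mul_smul, Matrix.smul_mul, show (1 - Q) * a * Q = 0 from ha, smul_zero]

theorem tmc_mul {J : Type} [Fintype J] [DecidableEq J] {Q A B : Matrix J J ℂ} (hA : Pres Q A)
    (hB : Pres Q B) : Pres Q (A * B) := by
  have e : (1 - Q) * (A * B) * Q = (1 - Q) * A * ((1 - Q) * B * Q) + (1 - Q) * A * Q * (B * Q) := by
    noncomm_ring
  rw [Pres, e, show (1 - Q) * A * Q = 0 from hA, show (1 - Q) * B * Q = 0 from hB, mul_zero,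
    zero_mul, add_zero]

theorem tmc_comm {J C : Type} [Fintype J] [DecidableEq J] {cl : J → C} {M : Matrix J J ℂ}
    (h : ∀ a b, cl a ≠ cl b → M a b = 0) (φ : C → ℂ) :
    M * diagonal (fun a => φ (cl a)) = diagonal (fun a => φ (cl a)) * M := by
  ext a b
  rw [mul_diagonal, diagonal_mul]
  by_cases e : cl a = cl b
  · rw [e, mul_comm]
  · rw [h a b e, zero_mul, mul_zero]

theorem tmc_single (n : ℕ) (A : Matrix (Option P) (Option P) ℂ) (y x : Option P × Pos k) :
    ser k (Pi.single n A) y x = if y.2.1 - x.2.1 = n then A y.1 x.1 else 0 := by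
  simp only [ser, of_apply, Pi.single_apply]
  split_ifs <;> first | rfl | omega

theorem tmc_succ (n : ℕ) (A : Matrix (Option P) (Option P) ℂ) :
    ser k (Pi.single (n + 1) A) = ser k (Pi.single 1 1) * ser k (Pi.single n A) := by
  ext y x
  have hy := Finset.mem_Ico.1 y.2.2
  have hx := Finset.mem_Ico.1 x.2.2
  simp only [mul_apply, tmc_single]
  by_cases h : -(k : ℤ) < y.2.1
  · rw [Finset.sum_eq_single (y.1, ⟨y.2.1 - 1, Finset.mem_Ico.2 (by omega)⟩)]
    · rw [if_pos (show y.2.1 - (y.2.1 - 1) = ((1 : ℕ) : ℤ) by omega), one_apply_eq, one_mul]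
      exact if_congr (by dsimp only; omega) rfl rfl
    · intro b _ hb
      split_ifs with h1 h2
      · rw [one_apply_ne, zero_mul]
        exact fun e => hb (Prod.ext e.symm (Subtype.ext (by dsimp only; omega)))
      · exact mul_zero _
      · exact zero_mul _
      · exact zero_mul _
    · exact fun hb => absurd (Finset.mem_univ _) hb
  · rw [if_neg (by omega)]
    refine (Finset.sum_eq_zero fun b _ => ?_).symm
    have hb := Finset.mem_Ico.1 b.2.2
    rw [if_neg (by omega), zero_mul]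

theorem tmc_pow (hQ : Q ∈ D.Gr k) (o : Option I) (n : ℕ) :
    Pres (ext Q) (ser k (Pi.single n (D.vtx o))) := by
  induction n with
  | zero =>
    have e : ser k (Pi.single 0 (D.vtx o)) =
        diagonal fun a : Option P × Pos k => (fun u => if u = o then (1 : ℂ) else 0)
          (a.1.map D.col) := by
      ext y x
      rw [tmc_single, vtx, diagonal_apply, diagonal_apply]
      by_cases h : y = x
      · simp [h]
      · rw [if_neg h]
        split_ifs with h1 h2 h3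
        · exact absurd (Prod.ext h2 (Subtype.ext (by omega))) h
        · exact absurd (Prod.ext h2 (Subtype.ext (by omega))) h
        · rfl
        · rfl
    rw [Pres, e, mul_assoc, ← tmc_comm hQ.1.2.2 fun u => if u = o then (1 : ℂ) else 0, ← mul_assoc,
      sub_mul, one_mul, hQ.1.2.1, sub_self, zero_mul]
  | succ n ih =>
    rw [tmc_succ]
    exact tmc_mul hQ.2 ih

theorem pres_scal (hQ : Q ∈ D.Gr k) (a : ℕ → ℂ) (o : Option I) :
    Pres (ext Q) (ser k fun m => a m • D.vtx o) := by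
  have e : (ser k fun m => a m • D.vtx o) =
      ∑ n ∈ Finset.range (2 * k), a n • ser k (Pi.single n (D.vtx o)) := by
    ext y x
    have hy := Finset.mem_Ico.1 y.2.2
    have hx := Finset.mem_Ico.1 x.2.2
    simp only [Matrix.sum_apply, Matrix.smul_apply, tmc_single]
    simp only [ser, of_apply]
    split_ifs with h
    · rw [Finset.sum_eq_single (y.2.1 - x.2.1).toNat, if_pos (by omega)]
      · rfl
      · intro b _ hb
        rw [if_neg (by omega), smul_zero]
      · exact fun hb => absurd (Finset.mem_range.2 (by omega)) hb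
    · refine (Finset.sum_eq_zero fun b _ => ?_).symm
      rw [if_neg (by omega), smul_zero]
  rw [e]
  exact (tmc_sub (ext Q)).sum_mem fun n _ => (tmc_sub (ext Q)).smul_mem _ (tmc_pow hQ o n)

theorem tmc_rr (h : D.Ty c) (hs : (Q, s) ∈ D.RR k) {t : D.NO}
    (ht : ∀ m, D.Scal (t m - D.cm c (s m))) : (Q, t) ∈ D.RR k := by
  rw [mem_RR] at hs ⊢
  refine ⟨hs.1, fun e => ?_⟩
  choose a ha using fun m => ht m e
  have e1 : (fun m => D.mat (t m) e) =
      (fun m => a m • D.vtx (D.src e)) + ∑ e', c e e' • fun m => D.mat (s m) e' := by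
    funext m
    rw [Pi.add_apply, ← ha, mat_sub', mat_cm h, Finset.sum_apply]
    exact (sub_add_cancel _ _).symm
  show tmc_ser P k (fun m => D.mat (t m) e) ∈ tmc_sub (ext Q)
  rw [e1, map_add, map_sum]
  refine add_mem (pres_scal hs.1 a _) (Submodule.sum_mem _ fun e' _ => ?_)
  rw [map_smul]
  exact Submodule.smul_mem _ _ (hs.2 e')

theorem Tm.rr (h : D.Tm f c) (hs : (Q, s) ∈ D.RR k) : (Q, fun m => f (s m)) ∈ D.RR k :=
  tmc_rr h.ty hs fun m => h.diff (s m)

theorem Tm.rr_iff (h : D.Tm f c) (h' : D.Li c) :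
    (Q, fun m => f (s m)) ∈ D.RR k ↔ (Q, s) ∈ D.RR k := by
  obtain ⟨c', h1, h2⟩ := h.inv h'
  exact ⟨fun hs => tmc_rr h1 hs fun m => h2 (s m), h.rr⟩

theorem tmc_sum {R : Type} [Ring R] {A B : ℤ → R} (hB : ∀ x, (k : ℤ) < |x| → B x = 0)
    (h : ∀ m, ∑ x ∈ Finset.Icc (-(k : ℤ)) k, A x * B (x + m) = if m = 0 then 1 else 0)
    (Φ : ℤ → R) : ∑ x ∈ Finset.Icc (-(k : ℤ)) k, ∑ y ∈ Finset.Icc (-(k : ℤ)) k,
      Φ (y - x) * (A x * B y) = Φ 0 := by
  have e : ∀ x ∈ Finset.Icc (-(k : ℤ)) k, ∑ y ∈ Finset.Icc (-(k : ℤ)) k, Φ (y - x) * (A x * B y) =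
      ∑ d ∈ Finset.Icc (-(2 * k : ℤ)) (2 * k), Φ d * (A x * B (x + d)) := fun x hx => by
    rw [Finset.mem_Icc] at hx
    rw [Finset.sum_subset (s₂ := (Finset.Icc (-(2 * k : ℤ)) (2 * k)).image fun d => x + d),
      Finset.sum_image fun a _ b _ e => add_left_cancel e]
    · simp only [add_sub_cancel_left]
    · intro y hy
      rw [Finset.mem_Icc] at hy
      exact Finset.mem_image.2 ⟨y - x, Finset.mem_Icc.2 (by omega), by ring⟩
    · intro y _ hy
      rw [hB y, mul_zero, mul_zero]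
      rw [Finset.mem_Icc, ← abs_le] at hy
      exact not_le.1 hy
  rw [Finset.sum_congr rfl e, Finset.sum_comm]
  simp only [← Finset.mul_sum, h, mul_ite, mul_one, mul_zero]
  rw [Finset.sum_ite_eq', if_pos (Finset.mem_Icc.2 (by omega))]

theorem tmc_adj (hγ : γ ∈ D.Lp k) (s : D.NO) (m : ℕ) (e : E) :
    D.mat (D.adj k γ s m) e = ∑ x ∈ Finset.Icc (-(k : ℤ)) k, ∑ y ∈ Finset.Icc (-(k : ℤ)) k,
      if 0 ≤ m + x - y then (twH γ x)ᴴ * D.mat (s (m + x - y).toNat) e * twH γ y else 0 :=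
  D.mat_adj hγ s m e

theorem adj_scal (hγ : γ ∈ D.Lp k) (h : ∀ m, D.Scal (s m)) : D.adj k γ s = s := by
  refine funext fun m => D.mat_inj fun e => ?_
  choose a ha using fun m => h m e
  have := tmc_sum (A := fun x => (twH γ x)ᴴ) (fun x => twH_out hγ) (twH_left hγ)
    fun d => if 0 ≤ m - d then a (m - d).toNat • D.vtx (D.src e) else 0
  rw [tmc_adj hγ, ha]
  refine Eq.trans (Finset.sum_congr rfl fun x _ => Finset.sum_congr rfl fun y _ => ?_)
    (this.trans (by simp))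
  rw [show (m : ℤ) - (y - x) = m + x - y by ring]
  by_cases c : 0 ≤ (m : ℤ) + x - y
  · rw [if_pos c, if_pos c]
    have e1 : (twH γ x)ᴴ * D.vtx (D.src e) = D.vtx (D.src e) * (twH γ x)ᴴ :=
      tmc_comm (cl := Option.map D.col) (fun a b hab => by
        rw [conjTranspose_apply, twH, D.loop_col_hat (hγ.2.1 x) _ b a hab.symm, star_zero])
        fun u => if u = D.src e then 1 else 0
    rw [ha, Matrix.mul_smul, e1, ← Matrix.smul_mul, mul_assoc]
  · rw [if_neg c, if_neg c, zero_mul]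

theorem sp_adj (hγ : γ ∈ D.Lp k) (s : D.NO) (m : ℕ) : D.sp (D.adj k γ s m) = D.sp (s m) := by
  refine D.mat_inj fun e => ?_
  have := tmc_sum (B := fun x => (twH γ x)ᴴ)
    (fun x hx => by rw [twH_out hγ hx, conjTranspose_zero]) (twH_right hγ)
    fun d => if 0 ≤ m + d then D.mat (s (m + d).toNat) e else 0
  have e1 : trace (D.mat (D.adj k γ s m) e) = trace (D.mat (s m) e) := by
    rw [tmc_adj hγ, Finset.sum_comm]
    refine Eq.trans ?_ ((congrArg trace this).trans (by simp))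
    simp only [trace_sum]
    refine Finset.sum_congr rfl fun y _ => Finset.sum_congr rfl fun x _ => ?_
    rw [show (m : ℤ) + (x - y) = m + x - y by ring]
    by_cases c : 0 ≤ (m : ℤ) + x - y
    · rw [if_pos c, if_pos c, mul_assoc, trace_mul_comm, mul_assoc]
    · rw [if_neg c, if_neg c, zero_mul]
  rw [mat_sp, mat_sp, e1]

theorem cm_adj (h : D.Ty c) (hγ : γ ∈ D.Lp k) (s : D.NO) :
    D.adj k γ (fun m => D.cm c (s m)) = fun m => D.cm c (D.adj k γ s m) := by
  refine funext fun m => D.mat_inj fun e => ?_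
  simp only [D.mat_adj hγ, mat_cm h, Finset.smul_sum]
  rw [Finset.sum_comm (s := Finset.univ)]
  refine Finset.sum_congr rfl fun x _ => ?_
  rw [Finset.sum_comm (s := Finset.univ)]
  refine Finset.sum_congr rfl fun y _ => ?_
  by_cases b : 0 ≤ (m : ℤ) + x - y
  · simp only [if_pos b, Finset.mul_sum, Finset.sum_mul, Matrix.mul_smul, Matrix.smul_mul]
  · simp only [if_neg b, smul_zero, Finset.sum_const_zero]

theorem tmc_add (hγ : γ ∈ D.Lp k) (s t : D.NO) (m : ℕ) :
    D.adj k γ (fun m => s m + t m) m = D.adj k γ s m + D.adj k γ t m := by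
  refine D.mat_inj fun e => ?_
  simp only [D.mat_adj hγ, mat_add, ← Finset.sum_add_distrib]
  refine Finset.sum_congr rfl fun x _ => Finset.sum_congr rfl fun y _ => ?_
  by_cases b : 0 ≤ (m : ℤ) + x - y
  · simp only [if_pos b, mul_add, add_mul]
  · simp only [if_neg b, add_zero]

theorem Tm.adj (h : D.Tm f c) (hγ : γ ∈ D.Lp k) (s : D.NO) :
    D.adj k γ (fun m => f (s m)) = fun m => f (D.adj k γ s m) := by
  have e : ∀ y, f y - D.cm c y = f (D.sp y) - D.cm c (D.sp y) := fun y => by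
    have := h.eq _ (sp_r y)
    rw [map_sub, map_sub] at this
    linear_combination (exp := 1) this
  funext m
  have := tmc_add hγ (fun m => D.cm c (s m)) (fun m => f (s m) - D.cm c (s m)) m
  simp only [add_sub_cancel] at this
  rw [this, cm_adj h.ty hγ, adj_scal hγ fun m => h.diff (s m)]
  dsimp only
  rw [e (s m), ← sp_adj hγ s m, ← e]
  exact add_sub_cancel _ _

end Qv

end Pool.Agent.Work.MP_849ab0_ag.G
end
end

-- merged part: Pool.Agent.Work.MP_849ab0_ag.G.IfH1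
section
/-!
Interface of the geometry of the quiver variety (owner helper4).
-/

noncomputable section

set_option linter.unusedSectionVars false
set_option linter.unusedVariables false

namespace Pool.Agent.Work.MP_849ab0_ag.G

open Set Topology Matrix

variable {I P E κ : Type} [Fintype I] [DecidableEq I] [Fintype P] [DecidableEq P] [Fintype E]
  [Fintype κ] [DecidableEq κ] (D : Qv I P E κ)

namespace Qv

variable {ν : I → ℤ}

theorem pr_Xs (ν : I → ℤ) : D.dbl.aN.Pr (D.Xs ν) univ := pr_Xs' ν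

theorem t3_M (hν : D.Reg ν) : T3Space (Quot (D.orb ν)) := t3_M' ν

theorem sc_M (hν : D.Reg ν) : SecondCountableTopology (Quot (D.orb ν)) := sc_M' ν

theorem ok_aM (hν : D.Reg ν) : (D.aM ν).Ok := ok_aM' ν

theorem gadm_desc (hν : D.Reg ν) : GAdm (D.dbl.aN.sub (D.Xs ν)) (D.aM ν) Prod.snd (Quot.mk _)
    univ univ univ univ := gadm_desc' ν

theorem desc_bij (hν : D.Reg ν) : Function.Bijective (D.desc ν) := desc_bij' ν

-- `kx_surj`, `kx_base`, `tors_free` are in `H3/Base.lean`.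

end Qv

end Pool.Agent.Work.MP_849ab0_ag.G
end
end

-- merged part: Pool.Agent.Work.MP_849ab0_ag.G.F.Jd
section
/-!
Task F-Jd. The identification of `N ⊕ N^*` with the representations of the doubled quiver, and of the two models of the quiver variety.
Hints: cmat_of for D.dbl; mat_gact, hat of a transpose, Matrix.transpose_nonsing_inv; act_sub for the weight ħ - t e. `jM` is Quot.map jd, its inverse Quot.map jd'.
-/

noncomputable section

set_option linter.unusedSectionVars false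
set_option linter.unusedVariables false

namespace Pool.Agent.Work.MP_849ab0_ag.G

open Set Topology Matrix

namespace Qv

variable {I P E κ : Type} [Fintype I] [DecidableEq I] [Fintype P] [DecidableEq P] [Fintype E]
  [DecidableEq E] [Fintype κ] [DecidableEq κ] {D : Qv I P E κ} {c c' : Matrix E E ℂ}
  {f f' : Module.End ℂ D.Rep} {x y z : D.Rep} {g : Matrix P P ℂ} {ν : I → ℤ}

theorem jd_col {e : E} {a b : Option P} (h : D.mat y e b a ≠ 0) :
    a.map D.col = D.src e ∧ b.map D.col = D.tgt e := by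
  by_contra k
  exact h (dif_neg k)

theorem jd_mat (w : D.Rep × D.Rep) (e : E ⊕ E) :
    D.dbl.mat (D.jd w) e = Sum.elim (D.mat w.1) (fun e => (D.mat w.2 e)ᵀ) e :=
  D.dbl.cmat_of (M := Sum.elim (D.mat w.1) fun e => (D.mat w.2 e)ᵀ) (by
    rintro (e | e) b a h
    · exact jd_col (D := D) h
    · exact (jd_col (D := D) h).symm) e

theorem jd_hatT (c : ℂ) (g : Matrix P P ℂ) : (hat c g)ᵀ = hat c gᵀ := by
  ext (_ | a) (_ | b) <;> rfl

theorem jd_chr (m : κ → ℤ) (g : κ → Circle) : chr m g⁻¹ = star (chr m g) := by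
  rw [act_star]
  exact eq_inv_of_mul_eq_one_left (by rw [← act_chr_mul, inv_mul_cancel, act_chr_one])

theorem mat_jd_inl (w : D.Rep × D.Rep) (e : E) : D.dbl.mat (D.jd w) (.inl e) = D.mat w.1 e := jd_mat w _

theorem mat_jd_inr (w : D.Rep × D.Rep) (e : E) :
    D.dbl.mat (D.jd w) (.inr e) = (D.mat w.2 e)ᵀ := jd_mat w _

theorem jd'_jd (w : D.Rep × D.Rep) : D.jd' (D.jd w) = w :=
  Prod.ext (funext fun p => (congrFun (congrFun (mat_jd_inl w _) _) _).trans (D.mat_apply _ p))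
    (funext fun p => (congrFun (congrFun (mat_jd_inr w _) _) _).trans (D.mat_apply _ p))

theorem jd_jd' (w : D.dbl.Rep) : D.jd (D.jd' w) = w := D.dbl.mat_inj (by
  rintro (e | e)
  · exact (mat_jd_inl _ e).trans (D.cmat_of (M := fun e => D.dbl.mat w (.inl e))
      (fun _ _ _ h => jd_col (D := D.dbl) h) e)
  · exact (mat_jd_inr _ e).trans (congrArg transpose
      (D.cmat_of (M := fun e => (D.dbl.mat w (.inr e))ᵀ)
        (fun _ _ _ h => (jd_col (D := D.dbl) h).symm) e)))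

theorem continuous_jd : Continuous D.jd := continuous_pi (by
  rintro ⟨⟨e | e, a, b⟩, h⟩
  · exact ((D.continuous_mat e).comp continuous_fst).matrix_elem b a
  · exact ((D.continuous_mat e).comp continuous_snd).matrix_elem a b)

theorem continuous_jd' : Continuous D.jd' :=
  (continuous_pi fun _ => (D.dbl.continuous_mat _).matrix_elem _ _).prodMk
    (continuous_pi fun _ => (D.dbl.continuous_mat _).matrix_elem _ _)

theorem Blk.invT (hg : D.Blk g) (hu : IsUnit g) : D.Blk g⁻¹ᵀ ∧ IsUnit g⁻¹ᵀ :=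
  ⟨fun a b h => Blk.inv D hg b a h.symm,
    (Matrix.isUnit_transpose _).2 (Matrix.isUnit_nonsing_inv_iff.2 hu)⟩

theorem jd_gdb (hg : D.Blk g) (hu : IsUnit g) (w : D.Rep × D.Rep) :
    D.jd (D.gdb g w) = D.dbl.gact g (D.jd w) := D.dbl.mat_inj (by
  rintro (e | e)
  · rw [mat_jd_inl, D.dbl.mat_gact hg hu, mat_jd_inl]
    exact D.mat_gact hg hu _ e
  · rw [mat_jd_inr, D.dbl.mat_gact hg hu, mat_jd_inr, gdb,
      D.mat_gact (hg.invT hu).1 (hg.invT hu).2, transpose_mul, transpose_mul,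
      Matrix.transpose_nonsing_inv, jd_hatT, transpose_transpose, ← hat_inv hu,
      Matrix.nonsing_inv_nonsing_inv _ ((Matrix.isUnit_iff_isUnit_det _).1 (isUnit_hat hu)),
      Matrix.mul_assoc])

theorem jd_Xs {w : D.Rep × D.Rep} : D.jd w ∈ D.Xs ν ↔ w ∈ D.Xs2 ν := by
  simp only [Xs, Xs2, mem_ofPred_eq, mu, mu2, Stable, Stable2, Sum.forall, mat_jd_inl, mat_jd_inr,
    forall_and]

theorem jd_act (g : (KT D.col κ).H) (w : D.Rep × D.Rep) : D.dbl.aN.act g (D.jd w) =
    D.jd (D.cm (diagonal fun e => chr (D.t e) g.2) (D.gdb g.1.1.1 w).1,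
      chr D.h g.2 • D.cm (diagonal fun e => chr (D.t e) g.2⁻¹) (D.gdb g.1.1.1 w).2) := by
  have hu : IsUnit g.1.1.1 := IsUnit.of_mul_eq_one _ (act_r g.1)
  funext p
  change chr _ g.2 * D.dbl.gact g.1.1.1 (D.jd w) p = _
  rw [← jd_gdb g.1.2 hu]
  obtain ⟨⟨e | e, a, b⟩, h⟩ := p
  · exact (congrArg _ (D.mat_apply _ ⟨(e, a, b), h⟩)).trans
      ((cm_diag (fun e => chr (D.t e) g.2) _ ⟨(e, a, b), h⟩).symm.trans
        (D.mat_apply _ ⟨(e, a, b), h⟩).symm)
  · refine (congrArg _ (D.mat_apply _ ⟨(e, b, a), h.symm⟩)).trans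
      (Eq.trans ?_ (D.mat_apply _ ⟨(e, b, a), h.symm⟩).symm)
    refine Eq.trans ?_ (congrArg (chr D.h g.2 * ·)
      (cm_diag (fun e => chr (D.t e) g.2⁻¹) _ ⟨(e, b, a), h.symm⟩).symm)
    rw [jd_chr, ← mul_assoc, ← act_sub]
    rfl

theorem gdb_Xs2 (hg : D.Blk g) (hu : IsUnit g) {w : D.Rep × D.Rep} (hw : w ∈ D.Xs2 ν) :
    D.gdb g w ∈ D.Xs2 ν := by
  rw [← jd_Xs, jd_gdb hg hu]
  exact xs_cnj (gu_hat.2 ⟨hg, hu⟩) (jd_Xs.2 hw)

theorem jd_orb {w w' : D.Xs2 ν} :
    D.orb2 ν w w' ↔ D.orb ν ⟨D.jd w.1, jd_Xs.2 w.2⟩ ⟨D.jd w'.1, jd_Xs.2 w'.2⟩ :=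
  ⟨fun ⟨g, hg, e⟩ => ⟨g, hg.1, hg.2, (congrArg D.jd e).trans (jd_gdb hg.2 hg.1 _)⟩,
    fun ⟨g, hu, hg, e⟩ => ⟨g, ⟨hu, hg⟩, by
      rw [← jd'_jd w'.1, show D.jd w'.1 = _ from e, ← jd_gdb hg hu, jd'_jd]⟩⟩

theorem jd_mk {w w' : D.Xs ν} : Quot.mk (D.orb ν) w = Quot.mk (D.orb ν) w' ↔ D.orb ν w w' :=
  mk_eq_iff.trans orb_iff.symm

/-- the identification of the stable loci -/
def jdX (ν : I → ℤ) : D.Xs2 ν ≃ₜ D.Xs ν where
  toFun w := ⟨D.jd w.1, jd_Xs.2 w.2⟩
  invFun w := ⟨D.jd' w.1, jd_Xs.1 ((jd_jd' w.1).symm ▸ w.2)⟩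
  left_inv w := Subtype.ext (jd'_jd w.1)
  right_inv w := Subtype.ext (jd_jd' w.1)
  continuous_toFun := (continuous_jd.comp continuous_subtype_val).subtype_mk _
  continuous_invFun := (continuous_jd'.comp continuous_subtype_val).subtype_mk _

theorem mk2_iff {w w' : D.Xs2 ν} : Quot.mk (D.orb2 ν) w = Quot.mk (D.orb2 ν) w' ↔
    ∃ g, D.Blk g ∧ IsUnit g ∧ w'.1 = D.gdb g w.1 := by
  refine ⟨fun h => ?_, fun ⟨g, hg, hu, e⟩ => Quot.sound ⟨g, ⟨hu, hg⟩, e⟩⟩
  obtain ⟨g, hg, e⟩ := jd_orb.2 (jd_mk.1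
    (congrArg (Quot.map (jdX ν) fun _ _ k => jd_orb.1 k) h))
  exact ⟨g, hg.2, hg.1, e⟩

theorem mk1_iff {w w' : D.Xs ν} : Quot.mk (D.orb ν) w = Quot.mk (D.orb ν) w' ↔
    ∃ g, D.Blk g ∧ IsUnit g ∧ w'.1 = D.dbl.gact g w.1 :=
  jd_mk.trans ⟨fun ⟨g, hu, hg, e⟩ => ⟨g, hg, hu, e⟩, fun ⟨g, hg, hu, e⟩ => ⟨g, hu, hg, e⟩⟩

theorem homeo_M2 (ν : I → ℤ) : Nonempty (Quot (D.orb2 ν) ≃ₜ Quot (D.orb ν)) :=
  ⟨{ Quot.congr (jdX ν).toEquiv fun _ _ => jd_orb with
      continuous_toFun := continuous_quot_lift _ (continuous_quot_mk.comp (jdX ν).continuous)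
      continuous_invFun :=
        continuous_quot_lift _ (continuous_quot_mk.comp (jdX ν).symm.continuous) }⟩

theorem t3_M2 (ν : I → ℤ) : T3Space (Quot (D.orb2 ν)) :=
  have := t3_M' (D := D) ν
  (homeo_M2 ν).elim fun e => e.symm.t3Space

theorem sc_M2 (ν : I → ℤ) : SecondCountableTopology (Quot (D.orb2 ν)) :=
  have := sc_M' (D := D) ν
  (homeo_M2 ν).elim fun e => e.secondCountableTopology

theorem t3_X2 (ν : I → ℤ) : T3Space (D.Xs2 ν) := inferInstance

end Qv

end Pool.Agent.Work.MP_849ab0_ag.G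
end
end

-- merged part: Pool.Agent.Work.MP_849ab0_ag.G.F.FvA
section
/-!
F-FvA (owner helper43). The actions attached to `F : D.Fv` and the comparison maps.
Hints: M τ is `Tm` with matrix B' * diagonal χ * B, v ↦ v ᵥ* M τ⁻¹ is `Tm` with the transposed matrix at τ⁻¹ (Tm.vecMul); equivariance by Tm.ext (both sides kill the scalars), Tm.gact, Tm.hs, aN_cm, jd_act.
gact g.1 y = D.aN.act (g.1, 1) y gives continuity; for the dual factor g⁻¹ᵀ is the entrywise conjugate of a unitary g, again in Ub.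
-/

noncomputable section

set_option linter.unusedSectionVars false
set_option linter.unusedVariables false

namespace Pool.Agent.Work.MP_849ab0_ag.G

open Set Topology Matrix

namespace Qv

variable {I P E κ : Type} [Fintype I] [DecidableEq I] [Fintype P] [DecidableEq P] [Fintype E]
  [DecidableEq E] [Fintype κ] [DecidableEq κ] {D : Qv I P E κ} {g : Matrix P P ℂ} {ν : I → ℤ}

/-- the comparison map on the double -/
def Fv.fD (F : D.Fv) (w : D.Rep × D.Rep) : D.dbl.Rep := D.jd (F.f w.1, F.d w.2)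

/-- the comparison map on the double in the other direction -/
def Fv.fD' (F : D.Fv) (w : D.dbl.Rep) : D.Rep × D.Rep := (F.f' (D.jd' w).1, F.d' (D.jd' w).2)

variable (D) in
/-- the homotopy on the double -/
def hD (u : ℝ) (w : D.Rep × D.Rep) : D.Rep × D.Rep := (D.hs u w.1, D.hs u w.2)

variable (D) in
/-- the homotopy on the double, other model -/
def hD' (u : ℝ) (w : D.dbl.Rep) : D.dbl.Rep := D.jd (D.hD u (D.jd' w))

theorem fva_unit (g : Ub D.col) : IsUnit g.1.1 := IsUnit.of_mul_eq_one _ (act_r g)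

theorem fva_inj : Function.Injective D.jd := Function.LeftInverse.injective jd'_jd

theorem fva_diag (σ τ : κ → Circle) (h : σ * τ = 1) :
    diagonal (fun e => chr (D.t e) σ) * diagonal (fun e => chr (D.t e) τ) = 1 := by
  simp only [diagonal_mul_diagonal, ← act_chr_mul, h, act_chr_one, diagonal_one]

theorem fva_kill (c : Matrix E E ℂ) {y : D.Rep} (h : D.Scal y) : (D.cm c * (1 - D.sp)) y = 0 := by
  rw [Module.End.mul_apply, LinearMap.sub_apply, Module.End.one_apply, scal_iff.1 h, sub_self,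
    map_zero]

theorem fva_tm {c : Matrix E E ℂ} (h : D.Ty c) : D.Tm (D.cm c * (1 - D.sp)) c := by
  have := (Tm.of_ty h).mul tm_r
  rwa [mul_one] at this

theorem fva_inv {c c' : Matrix E E ℂ} (h : D.Ty c) (h' : D.Ty c') (e : c * c' = 1) (y : D.Rep) :
    (D.cm c * (1 - D.sp)) ((D.cm c' * (1 - D.sp)) y) = D.hs 0 y :=
  ((fva_tm h).mul (fva_tm h')).ext (e ▸ tm_hs 0) (by
    rw [Module.End.mul_apply, fva_kill c' (scal_sp y), map_zero, hs_zero, sp_sp, sub_self])

theorem fva_int {f f' : Module.End ℂ D.Rep} {c a a' : Matrix E E ℂ} (hc : D.Ty c) (h : D.Tm f a)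
    (h' : D.Tm f' a') (e : c * a = a' * c) (y : D.Rep) :
    (D.cm c * (1 - D.sp)) (f y) = f' ((D.cm c * (1 - D.sp)) y) :=
  ((fva_tm hc).mul h).ext (e ▸ h'.mul (fva_tm hc)) (by
    rw [Module.End.mul_apply, Module.End.mul_apply f', fva_kill c (scal_sp y), map_zero]
    exact fva_kill c (h.scal _ (scal_sp y)))

theorem fva_gdb {f f' : Module.End ℂ D.Rep} {c c' : Matrix E E ℂ} (h : D.Tm f c) (h' : D.Tm f' c')
    (hg : D.Blk g) (hu : IsUnit g) (w : D.Rep × D.Rep) :
    (f (D.gdb g w).1, f' (D.gdb g w).2) = D.gdb g (f w.1, f' w.2) :=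
  Prod.ext (h.gact hg hu _) (h'.gact (hg.invT hu).1 (hg.invT hu).2 _)

theorem fva_gdb_one (w : D.Rep × D.Rep) : D.gdb 1 w = w := by
  simp only [gdb, inv_one, transpose_one, gact_one]

theorem fva_gdb_mul (g h : Ub D.col) (w : D.Rep × D.Rep) :
    D.gdb (g * h).1.1 w = D.gdb g.1.1 (D.gdb h.1.1 w) := fva_inj (by
  rw [jd_gdb (g * h).2 (fva_unit _), jd_gdb g.2 (fva_unit _), jd_gdb h.2 (fva_unit _)]
  exact D.dbl.gact_mul g.2 (fva_unit _) h.2 (fva_unit _) _)

omit [DecidableEq E] in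
theorem fva_cont : Continuous fun z : Ub D.col × D.Rep => D.gact z.1.1.1 z.2 :=
  (D.aN.cont_act (g := fun z : Ub D.col × D.Rep => (z.1, 1)) (by fun_prop) continuous_snd).congr
    fun z => funext fun p => by
      change chr _ 1 * _ = _
      rw [act_chr_one, one_mul]

theorem fva_cont2 : Continuous fun z : Ub D.col × D.Rep × D.Rep => D.gdb z.1.1.1 z.2 :=
  (continuous_jd'.comp ((fva_cont (D := D.dbl)).comp
    (continuous_fst.prodMk (continuous_jd.comp continuous_snd)))).congr fun z =>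
      (congrArg D.jd' (jd_gdb (D := D) z.1.2 (fva_unit _) z.2).symm).trans (jd'_jd _)

theorem hs_aN0 (u : ℝ) (g : (KT D.col κ).H) (y : D.Rep) :
    D.hs u (D.aN.act g y) = D.aN.act g (D.hs u y) := by
  rw [aN_cm, aN_cm, ← (Tm.of_ty (Ty.diag _)).hs, (tm_hs u).gact g.1.2 (fva_unit _)]

theorem continuous_hD : Continuous fun z : ℝ × D.Rep × D.Rep => D.hD z.1 z.2 :=
  (continuous_hs.comp (f := fun z : ℝ × D.Rep × D.Rep => (z.1, z.2.1))
    (continuous_fst.prodMk continuous_snd.fst)).prodMk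
    (continuous_hs.comp (f := fun z : ℝ × D.Rep × D.Rep => (z.1, z.2.2))
      (continuous_fst.prodMk continuous_snd.snd))

theorem continuous_hD' : Continuous fun z : ℝ × D.dbl.Rep => D.hD' z.1 z.2 :=
  continuous_jd.comp (continuous_hD.comp (f := fun z : ℝ × D.dbl.Rep => (z.1, D.jd' z.2))
    (continuous_fst.prodMk (continuous_jd'.comp continuous_snd)))

theorem hD_one (w : D.Rep × D.Rep) : D.hD 1 w = w := Prod.ext (hs_one _) (hs_one _)

theorem hD'_one (w : D.dbl.Rep) : D.hD' 1 w = w := by rw [hD', hD_one, jd_jd']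

theorem hD_Xs (u : ℝ) {w : D.Rep × D.Rep} (h : w ∈ D.Xs2 ν) : D.hD u w ∈ D.Xs2 ν :=
  (tm_hs u).xs2 (tm_hs u) (a := 1) (by simp) one_ne_zero h

theorem hD'_Xs (u : ℝ) {w : D.dbl.Rep} (h : w ∈ D.Xs ν) : D.hD' u w ∈ D.Xs ν :=
  jd_Xs.2 (hD_Xs u (jd_Xs.1 ((jd_jd' w).symm ▸ h)))

theorem hD_gdb (u : ℝ) (hg : D.Blk g) (hu : IsUnit g) (w : D.Rep × D.Rep) :
    D.hD u (D.gdb g w) = D.gdb g (D.hD u w) := fva_gdb (tm_hs u) (tm_hs u) hg hu w

theorem hD'_gact (u : ℝ) (hg : D.Blk g) (hu : IsUnit g) (w : D.dbl.Rep) :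
    D.hD' u (D.dbl.gact g w) = D.dbl.gact g (D.hD' u w) := by
  obtain ⟨w, rfl⟩ : ∃ v, D.jd v = w := ⟨_, jd_jd' w⟩
  rw [← jd_gdb hg hu, hD', hD', jd'_jd, jd'_jd, hD_gdb u hg hu, jd_gdb hg hu]

theorem hD'_act (u : ℝ) (g : (KT D.col κ).H) (w : D.dbl.Rep) :
    D.hD' u (D.dbl.aN.act g w) = D.dbl.aN.act g (D.hD' u w) := by
  obtain ⟨w, rfl⟩ : ∃ v, D.jd v = w := ⟨_, jd_jd' w⟩
  rw [jd_act, hD', hD', jd'_jd, jd'_jd, jd_act, ← hD_gdb u g.1.2 (fva_unit _)]
  exact congrArg D.jd (Prod.ext ((Tm.of_ty (Ty.diag _)).hs u _).symm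
    ((map_smul _ _ _).trans (congrArg _ ((Tm.of_ty (Ty.diag _)).hs u _).symm)))

namespace Fv

variable (F : D.Fv)

theorem fva_one (y : D.Rep) : y ᵥ* F.M 1 = y := by
  classical
  rw [show F.M 1 = 1 from Matrix.mulVec_injective (funext fun y => by rw [F.one, one_mulVec]),
    vecMul_one]

theorem fva_tmV (τ : κ → Circle) : D.Tm (chr D.h τ • (F.M τ⁻¹).vecMulLinear)
    (chr D.h τ • (F.B' * diagonal (fun e => chr (D.t e) τ⁻¹) * F.B)ᵀ) := (F.tm τ⁻¹).vecMul.smul _

theorem fva_aD (g : (KT D.col κ).H) (w : D.Rep × D.Rep) : F.aD.act g w =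
    ((F.M g.2).mulVecLin (D.gdb g.1.1.1 w).1,
      (chr D.h g.2 • (F.M g.2⁻¹).vecMulLinear) (D.gdb g.1.1.1 w).2) := rfl

instance okN : F.aN.Ok where
  one y := (F.one _).trans (D.gact_one y)
  mul g h y := by
    change F.M (g.2 * h.2) *ᵥ D.gact (g.1.1.1 * h.1.1.1) y =
      F.M g.2 *ᵥ D.gact g.1.1.1 ((F.M h.2).mulVecLin (D.gact h.1.1.1 y))
    rw [← (F.tm h.2).gact g.1.2 (fva_unit _), F.mul, ← mulVec_mulVec,
      D.gact_mul g.1.2 (fva_unit _) h.1.2 (fva_unit _)]
    rfl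
  cont := by
    have h := (fva_cont (D := D)).comp (f := fun z : (KT D.col κ).H × D.Rep => (z.1.1, z.2))
      (continuous_fst.fst.prodMk continuous_snd)
    exact (F.cont.comp continuous_fst.snd).matrix_mulVec h

instance okD : F.aD.Ok where
  one y := by
    change (F.M 1 *ᵥ (D.gdb 1 y).1, chr D.h 1 • (D.gdb 1 y).2 ᵥ* F.M 1⁻¹) = y
    rw [fva_gdb_one, F.one, inv_one, F.fva_one, act_chr_one, one_smul]
  mul g h y := by
    rw [F.fva_aD g, F.fva_aD h, ← fva_gdb (F.tm h.2) (F.fva_tmV h.2) g.1.2 (fva_unit _),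
      ← fva_gdb_mul]
    change (F.M (g.2 * h.2) *ᵥ _, chr D.h (g.2 * h.2) • _ ᵥ* F.M (g.2 * h.2)⁻¹) =
      (F.M g.2 *ᵥ F.M h.2 *ᵥ _, chr D.h g.2 • (chr D.h h.2 • _ ᵥ* F.M h.2⁻¹) ᵥ* F.M g.2⁻¹)
    rw [F.mul, mulVec_mulVec, _root_.mul_inv_rev, F.mul, smul_vecMul, vecMul_vecMul, smul_smul,
      act_chr_mul]
    rfl
  cont := by
    have h := (fva_cont2 (D := D)).comp (f := fun z : (KT D.col κ).H × D.Rep × D.Rep => (z.1.1, z.2))
      (continuous_fst.fst.prodMk continuous_snd)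
    exact ((F.cont.comp continuous_fst.snd).matrix_mulVec h.fst).prodMk
      (((isChar_chr _).cont.comp continuous_fst.snd).smul
        (h.snd.matrix_vecMul (F.cont.comp continuous_fst.snd.inv)))

instance okO : F.aO.Ok := by
  refine ⟨fun s => funext fun m => ?_, fun g h s => funext fun m => ?_, continuous_pi fun m =>
    (((isChar_chr _).cont.comp continuous_fst.snd).pow m).smul
      (F.aN.cont_act continuous_fst ((continuous_apply m).comp continuous_snd))⟩
  · simp only [aO, Gp.prod_one_snd, act_chr_one, one_pow, one_smul, Act.act_one]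
  · have e (c : ℂ) (y : D.Rep) : F.aN.act g (c • y) = c • F.aN.act g y := by
      simp only [aN, gact_smul', mulVec_smul]
    simp only [aO, Gp.prod_mul_snd, act_chr_mul, mul_pow, Act.act_mul, e, smul_smul]

theorem tm_f : D.Tm F.f F.B := fva_tm F.ty

theorem tm_f' : D.Tm F.f' F.B' := fva_tm F.ty'

theorem tm_d : D.Tm F.d F.B'ᵀ := fva_tm F.ty'.transpose

theorem tm_d' : D.Tm F.d' F.Bᵀ := fva_tm F.ty.transpose

theorem f'_f (y : D.Rep) : F.f' (F.f y) = D.hs 0 y := fva_inv F.ty' F.ty F.inv' y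

theorem f_f' (y : D.Rep) : F.f (F.f' y) = D.hs 0 y := fva_inv F.ty F.ty' F.inv y

theorem fva_f (τ : κ → Circle) (y : D.Rep) :
    F.f ((F.M τ).mulVecLin y) = D.cm (diagonal fun e => chr (D.t e) τ) (F.f y) :=
  fva_int F.ty (F.tm τ) (Tm.of_ty (Ty.diag _))
    (by rw [← mul_assoc, ← mul_assoc, F.inv, one_mul]) y

theorem fva_f' (τ : κ → Circle) (y : D.Rep) :
    F.f' (D.cm (diagonal fun e => chr (D.t e) τ) y) = (F.M τ).mulVecLin (F.f' y) :=
  fva_int F.ty' (Tm.of_ty (Ty.diag _)) (F.tm τ) (by rw [mul_assoc _ F.B, F.inv, mul_one]) y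

theorem fva_d (τ : κ → Circle) (y : D.Rep) :
    F.d ((F.M τ).vecMulLinear y) = D.cm (diagonal fun e => chr (D.t e) τ) (F.d y) :=
  fva_int F.ty'.transpose (F.tm τ).vecMul (Tm.of_ty (Ty.diag _))
    (by rw [← transpose_mul, mul_assoc _ F.B, F.inv, mul_one, transpose_mul, diagonal_transpose]) y

theorem fva_d' (τ : κ → Circle) (y : D.Rep) :
    F.d' (D.cm (diagonal fun e => chr (D.t e) τ) y) = (F.M τ).vecMulLinear (F.d' y) :=
  fva_int F.ty.transpose (Tm.of_ty (Ty.diag _)) (F.tm τ).vecMul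
    (by rw [← transpose_mul, ← mul_assoc, ← mul_assoc, F.inv, one_mul, transpose_mul,
      diagonal_transpose]) y

theorem f_aN (g : (KT D.col κ).H) (y : D.Rep) : F.f (F.aN.act g y) = D.aN.act g (F.f y) := by
  rw [aN_cm, ← F.tm_f.gact g.1.2 (fva_unit _)]
  exact F.fva_f _ _

theorem f'_aN (g : (KT D.col κ).H) (y : D.Rep) : F.f' (D.aN.act g y) = F.aN.act g (F.f' y) := by
  rw [aN_cm, F.fva_f', F.tm_f'.gact g.1.2 (fva_unit _)]
  rfl

theorem hs_aN (u : ℝ) (g : (KT D.col κ).H) (y : D.Rep) :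
    D.hs u (F.aN.act g y) = F.aN.act g (D.hs u y) :=
  ((F.tm g.2).hs u _).symm.trans (congrArg _ ((tm_hs u).gact g.1.2 (fva_unit _) y))

/-- the action of `F` differs from the diagonal one by a map given by a matrix up to scalars -/
theorem aN_eq (τ : κ → Circle) : ∃ (u : Module.End ℂ D.Rep) (c : Matrix E E ℂ), D.Tm u c ∧
    ∀ g : (KT D.col κ).H, g.2 = τ → ∀ y, F.aN.act g y = u (D.aN.act g y) :=
  ⟨_, _, (F.tm τ).mul (Tm.of_ty (Ty.diag fun e => chr (D.t e) τ⁻¹)), by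
    rintro g rfl y
    rw [aN_cm, Module.End.mul_apply, ← cm_mul (Ty.diag _), fva_diag _ _ (inv_mul_cancel _), cm_one]
    rfl⟩

theorem continuous_fD : Continuous F.fD :=
  continuous_jd.comp ((F.f.continuous_of_finiteDimensional.comp continuous_fst).prodMk
    (F.d.continuous_of_finiteDimensional.comp continuous_snd))

theorem continuous_fD' : Continuous F.fD' :=
  (F.f'.continuous_of_finiteDimensional.comp continuous_jd'.fst).prodMk
    (F.d'.continuous_of_finiteDimensional.comp continuous_jd'.snd)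

theorem fD'_fD (w : D.Rep × D.Rep) : F.fD' (F.fD w) = D.hD 0 w := by
  rw [fD, fD', jd'_jd]
  exact Prod.ext (F.f'_f _) (fva_inv F.ty.transpose F.ty'.transpose
    (by rw [← transpose_mul, F.inv', transpose_one]) _)

theorem fD_fD' (w : D.dbl.Rep) : F.fD (F.fD' w) = D.hD' 0 w :=
  congrArg D.jd (Prod.ext (F.f_f' _) (fva_inv F.ty'.transpose F.ty.transpose
    (by rw [← transpose_mul, F.inv, transpose_one]) _))

theorem fD_Xs {w : D.Rep × D.Rep} (h : w ∈ D.Xs2 ν) : F.fD w ∈ D.Xs ν :=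
  jd_Xs.2 (F.tm_f.xs2 F.tm_d (a := 1)
    (by rw [← transpose_mul, F.inv', transpose_one, one_smul]) one_ne_zero h)

theorem fD'_Xs {w : D.dbl.Rep} (h : w ∈ D.Xs ν) : F.fD' w ∈ D.Xs2 ν :=
  F.tm_f'.xs2 F.tm_d' (a := 1) (by rw [← transpose_mul, F.inv, transpose_one, one_smul])
    one_ne_zero (jd_Xs.1 ((jd_jd' w).symm ▸ h))

theorem aD_Xs (g : (KT D.col κ).H) {w : D.Rep × D.Rep} (h : w ∈ D.Xs2 ν) :
    F.aD.act g w ∈ D.Xs2 ν :=
  (F.tm g.2).xs2 (F.fva_tmV g.2) (a := chr D.h g.2) (by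
    rw [Matrix.mul_smul, ← transpose_mul, mul_assoc _ F.B, ← mul_assoc F.B, ← mul_assoc F.B, F.inv,
      one_mul, ← mul_assoc, mul_assoc F.B', fva_diag _ _ (inv_mul_cancel _), mul_one, F.inv',
      transpose_one]) (act_chr_ne _ _) (gdb_Xs2 g.1.2 (fva_unit _) h)

theorem fD_gdb (hg : D.Blk g) (hu : IsUnit g) (w : D.Rep × D.Rep) :
    F.fD (D.gdb g w) = D.dbl.gact g (F.fD w) :=
  (congrArg D.jd (fva_gdb F.tm_f F.tm_d hg hu w)).trans (jd_gdb hg hu _)

theorem fD'_gact (hg : D.Blk g) (hu : IsUnit g) (w : D.dbl.Rep) :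
    F.fD' (D.dbl.gact g w) = D.gdb g (F.fD' w) := by
  obtain ⟨w, rfl⟩ : ∃ v, D.jd v = w := ⟨_, jd_jd' w⟩
  rw [← jd_gdb hg hu, fD', fD', jd'_jd, jd'_jd]
  exact fva_gdb F.tm_f' F.tm_d' hg hu w

theorem fD_act (g : (KT D.col κ).H) (w : D.Rep × D.Rep) :
    F.fD (F.aD.act g w) = D.dbl.aN.act g (F.fD w) := by
  rw [fD, fD, jd_act, ← fva_gdb F.tm_f F.tm_d g.1.2 (fva_unit _)]
  exact congrArg D.jd (Prod.ext (F.fva_f _ _) ((map_smul _ _ _).trans (congrArg _ (F.fva_d _ _))))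

theorem fD'_act (g : (KT D.col κ).H) (w : D.dbl.Rep) :
    F.fD' (D.dbl.aN.act g w) = F.aD.act g (F.fD' w) := by
  obtain ⟨w, rfl⟩ : ∃ v, D.jd v = w := ⟨_, jd_jd' w⟩
  rw [jd_act, fD', fD', jd'_jd, jd'_jd, fva_aD, ← fva_gdb F.tm_f' F.tm_d' g.1.2 (fva_unit _)]
  exact Prod.ext (F.fva_f' _ _) ((map_smul _ _ _).trans (congrArg _ (F.fva_d' _ _)))

theorem hD_act (u : ℝ) (g : (KT D.col κ).H) (w : D.Rep × D.Rep) :
    D.hD u (F.aD.act g w) = F.aD.act g (D.hD u w) := by
  rw [fva_aD, fva_aD, ← hD_gdb u g.1.2 (fva_unit _)]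
  exact Prod.ext ((F.tm _).hs u _).symm ((F.fva_tmV _).hs u _).symm

theorem aD_split (g : (KT D.col κ).H) (w : D.Rep × D.Rep) :
    F.aD.act g w = D.gdb g.1.1.1 (F.aD.act (1, g.2) w) := by
  rw [fva_aD, fva_gdb (F.tm _) (F.fva_tmV _) g.1.2 (fva_unit _), fva_aD]
  exact congrArg _ (by rw [show D.gdb (((1, g.2) : (KT D.col κ).H).1.1.1) w = w from fva_gdb_one w])

theorem aD_gdb (τ : κ → Circle) (hg : D.Blk g) (hu : IsUnit g) (w : D.Rep × D.Rep) :
    F.aD.act (1, τ) (D.gdb g w) = D.gdb g (F.aD.act (1, τ) w) := by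
  have e (v) : D.gdb (((1, τ) : (KT D.col κ).H).1.1.1) v = v := fva_gdb_one v
  rw [fva_aD, fva_aD, e, e]
  exact fva_gdb (F.tm _) (F.fva_tmV _) hg hu w

end Fv

end Qv

end Pool.Agent.Work.MP_849ab0_ag.G
end
end

-- merged part: Pool.Agent.Work.MP_849ab0_ag.G.F.Hg
section
/-!
F-Hg (owner helper4). Transport of the Higgs side.
Plan. Abstractly: X₁, X₂ with actions of K × T, quotient maps π i : X i → M i intertwining them with actions of T, continuous equivariant maps f, f' and homotopies f' ∘ f ≃ id, f ∘ f' ≃ id that respect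
the fibres of π i. They descend to M i (Quot.map; joint continuity of the descended homotopy and of the action aM by IsQuotientMap.continuous_lift_prod_right, the parameter space is locally compact),
gp_htpy, gp_comp and gp_id make gp f and gp of the descended map bijective, and the square with the two descent maps commutes (gp_comp). Then desc_bij' gives the first claim, ψ is gp of the descended map
(gpAlg, IsDeg.gp), and the Kirwan maps match after applying the injective descent map (apply_linv). Instances: t3_M2, sc_M2, t3_M', sc_M', ok_aM', Act.ok_sub; aM on classes as in aM_mk (mk2_iff, aD_gdb).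
-/

noncomputable section

set_option linter.unusedSectionVars false
set_option linter.unusedVariables false

namespace Pool.Agent.Work.MP_849ab0_ag.G

open Set Topology Matrix

section

variable {G G' : Gp} [G.Nice] [G'.Nice] {X Y M N : Type}
  [TopologicalSpace X] [T3Space X] [SecondCountableTopology X]
  [TopologicalSpace Y] [T3Space Y] [SecondCountableTopology Y]
  [TopologicalSpace M] [T3Space M] [SecondCountableTopology M]
  [TopologicalSpace N] [T3Space N] [SecondCountableTopology N]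
  {a : Act G X} [a.Ok] {b : Act G Y} [b.Ok] {m : Act G' M} [m.Ok] {n : Act G' N} [n.Ok]
  {φ : G.H → G'.H} [IsHom φ] {π : X → M} {π' : Y → N}

theorem Hg_adm (hf : Continuous π) (e : ∀ g x, π (a.act g x) = m.act (φ g) (π x)) :
    GAdm a m φ π univ univ univ univ :=
  ⟨a.pr_top, m.pr_top, hf.continuousOn, fun g x _ => e g x, mapsTo_univ _ _, fun _ _ _ => trivial⟩

variable (a b) in
/-- continuous families of equivariant maps -/
def Hg_Fam (f : ℝ → X → Y) : Prop :=
  (Continuous fun z : ℝ × X => f z.1 z.2) ∧ ∀ s g x, f s (a.act g x) = b.act g (f s x)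

theorem Hg_Fam.adm {f : ℝ → X → Y} (h : Hg_Fam a b f) (s : ℝ) :
    GAdm a b id (f s) univ univ univ univ :=
  Hg_adm (h.1.comp (Continuous.prodMk_right s)) (h.2 s)

theorem Hg_inv {f : X → Y} {f' : Y → X} {h : ℝ → X → X} (k : GAdm a b id f univ univ univ univ)
    (k' : GAdm b a id f' univ univ univ univ) (hh : Hg_Fam a a h) (h0 : ∀ x, h 0 x = f' (f x))
    (h1 : ∀ x, h 1 x = x) (c : EH a univ univ) :
    gp a id f univ univ (gp b id f' univ univ c) = c := by
  rw [gp_comp k' k (χ := id) (fun _ => rfl) (k := h 0) fun x _ => h0 x,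
    gp_htpy hh.1.continuousOn fun s _ => hh.adm s, gp_congr a.pr_top (k := id) fun x _ => h1 x,
    gp_id a.pr_top]

theorem Hg_lift (hφ : Function.Surjective φ) (q : IsQuotientMap π)
    (k : GAdm a m φ π univ univ univ univ) (k' : GAdm b n φ π' univ univ univ univ)
    {f : ℝ → X → Y} (hf : Hg_Fam a b f) (r : ∀ s x y, π x = π y → π' (f s x) = π' (f s y)) :
    ∃ F, Hg_Fam m n F ∧ ∀ s x, F s (π x) = π' (f s x) := by
  have e : ∀ s x, π' (f s (Function.surjInv q.surjective (π x))) = π' (f s x) := fun s x =>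
    r s _ _ (Function.surjInv_eq _ _)
  refine ⟨fun s y => π' (f s (Function.surjInv q.surjective y)), ⟨q.continuous_lift_prod_right
    (((continuousOn_univ.1 k'.cont).comp hf.1).congr fun z => (e _ _).symm), fun s g x => ?_⟩, e⟩
  obtain ⟨x, rfl⟩ := q.surjective x
  obtain ⟨g, rfl⟩ := hφ g
  dsimp only
  rw [← k.eqv g x trivial, e, e, hf.2, k'.eqv g _ trivial]

theorem Hg_main (hφ : Function.Surjective φ) (q : IsQuotientMap π) (q' : IsQuotientMap π')
    (k : GAdm a m φ π univ univ univ univ) (k' : GAdm b n φ π' univ univ univ univ)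
    {f : X → Y} {f' : Y → X} {h : ℝ → X → X} {h' : ℝ → Y → Y} (hf : Hg_Fam a b fun _ => f)
    (hf' : Hg_Fam b a fun _ => f') (hh : Hg_Fam a a h) (hh' : Hg_Fam b b h')
    (r : ∀ x y, π x = π y → π' (f x) = π' (f y)) (r' : ∀ x y, π' x = π' y → π (f' x) = π (f' y))
    (t : ∀ s x y, π x = π y → π (h s x) = π (h s y))
    (t' : ∀ s x y, π' x = π' y → π' (h' s x) = π' (h' s y)) (h0 : ∀ x, h 0 x = f' (f x))
    (h0' : ∀ x, h' 0 x = f (f' x)) (h1 : ∀ x, h 1 x = x) (h1' : ∀ x, h' 1 x = x)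
    (hb : Function.Bijective (gp b φ π' univ univ : EH n univ univ → _)) :
    Function.Bijective (gp a φ π univ univ : EH m univ univ → _) ∧
      ∃ ψ : EH n univ univ →ₗ[ℂ] EH m univ univ, Function.Bijective ψ ∧
        (∀ x y, ψ (ecup univ univ x y) = ecup univ univ (ψ x) (ψ y)) ∧
        (∀ p x, IsDeg p x → IsDeg p (ψ x)) ∧ ∀ c : HPt G,
          ψ (linv (gp b φ π' univ univ) (gp b id (fun _ => ()) univ univ c)) =
            linv (gp a φ π univ univ) (gp a id (fun _ => ()) univ univ c) := by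
  obtain ⟨F, a1, a2⟩ := Hg_lift hφ q k k' hf fun _ => r
  obtain ⟨F', b1, b2⟩ := Hg_lift hφ q' k' k hf' fun _ => r'
  obtain ⟨H, c1, c2⟩ := Hg_lift hφ q k k hh t
  obtain ⟨H', d1, d2⟩ := Hg_lift hφ q' k' k' hh' t'
  have u : Function.Bijective (gp a id f univ univ : EH b univ univ → _) :=
    Function.bijective_iff_has_inverse.2 ⟨gp b id f' univ univ,
      Hg_inv (hf'.adm 0) (hf.adm 0) hh' h0' h1', Hg_inv (hf.adm 0) (hf'.adm 0) hh h0 h1⟩
  have v : Function.Bijective (gp m id (F 0) univ univ : EH n univ univ → _) :=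
    Function.bijective_iff_has_inverse.2 ⟨gp n id (F' 0) univ univ,
      Hg_inv (b1.adm 0) (a1.adm 0) d1 (q'.surjective.forall.2 fun x => by rw [d2, b2, a2, h0'])
        (q'.surjective.forall.2 fun x => by rw [d2, h1']),
      Hg_inv (a1.adm 0) (b1.adm 0) c1 (q.surjective.forall.2 fun x => by rw [c2, a2, b2, h0])
        (q.surjective.forall.2 fun x => by rw [c2, h1])⟩
  have sq : ∀ c : EH n univ univ, gp a φ π univ univ (gp m id (F 0) univ univ c) =
      gp a id f univ univ (gp b φ π' univ univ c) := fun c =>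
    (gp_comp (a1.adm 0) k (χ := φ) (fun _ => rfl) (fun x _ => (a2 0 x).symm) c).trans
      (gp_comp k' (hf.adm 0) (fun _ => rfl) (fun _ _ => rfl) c).symm
  have w : Function.Bijective (gp a φ π univ univ : EH m univ univ → _) :=
    (Function.Bijective.of_comp_iff _ v).1 (by convert u.comp hb using 1; exact funext sq)
  refine ⟨w, gp m id (F 0) univ univ, v, map_mul (gpAlg (a1.adm 0)), fun p x e => e.gp _ _,
    fun c => w.1 ?_⟩
  rw [sq, apply_linv hb, apply_linv w]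
  exact gp_comp (gadm_pt b.pr_top id) (hf.adm 0) (fun _ => rfl) (fun _ _ => rfl) c

end

namespace Qv

variable {I P E κ : Type} [Fintype I] [DecidableEq I] [Fintype P] [DecidableEq P] [Fintype E]
  [DecidableEq E] [Fintype κ] [DecidableEq κ] {D : Qv I P E κ}

/-- the descent map -/
def Fv.desc (F : D.Fv) (ν : I → ℤ) :
    EH (F.aM ν) univ univ →ₗ[ℂ] EH (F.aD.sub (D.Xs2 ν)) univ univ :=
  gp _ Prod.snd (Quot.mk _) univ univ

/-- the Kirwan map -/
def Fv.kir (F : D.Fv) (ν : I → ℤ) : D.HP →ₗ[ℂ] EH (F.aM ν) univ univ :=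
  linv (F.desc ν) ∘ₗ gp _ id (fun _ => ()) univ univ

theorem Hg_mk (F : D.Fv) {ν : I → ℤ} (g : κ → Circle) (x : D.Xs2 ν) :
    (F.aM ν).act g (Quot.mk _ x) = Quot.mk _ ⟨F.aD.act (1, g) x.1, F.aD_Xs _ x.2⟩ := by
  obtain ⟨h, h1, h2, e⟩ := mk2_iff.1 (Quot.out_eq (Quot.mk (D.orb2 ν) x))
  refine mk2_iff.2 ⟨h, h1, h2, ?_⟩
  rw [Act.sub_val (F.aD.res (G' := Gp.tor κ) fun τ => (1, τ)) fun g y hy => F.aD_Xs (1, g) hy]
  exact (congrArg _ e).trans (F.aD_gdb g h1 h2 _)

theorem Hg_ok (F : D.Fv) (ν : I → ℤ) : (F.aM ν).Ok := by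
  refine ⟨Quot.ind fun x => ?_, fun g h => Quot.ind fun x => ?_, ?_⟩
  · exact (Hg_mk F 1 x).trans (congrArg _ (Subtype.ext (F.aD.act_one _)))
  · rw [Hg_mk, Hg_mk, Hg_mk]
    refine congrArg _ (Subtype.ext (Eq.trans ?_ (F.aD.act_mul (1, g) (1, h) _)))
    exact congrArg (F.aD.act · x.1) (Prod.ext (one_mul 1).symm rfl)
  · refine isQuotientMap_quot_mk.continuous_lift_prod_right (Y := κ → Circle) ?_
    exact (continuous_quot_mk.comp ((F.aD.cont_act (continuous_const.prodMk continuous_fst)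
      (continuous_subtype_val.comp continuous_snd)).subtype_mk
        fun z => F.aD_Xs (1, z.1) z.2.2)).congr fun z => (Hg_mk F z.1 z.2).symm

theorem Fv.higgs (F : D.Fv) (ν : I → ℤ) : Function.Bijective (F.desc ν) ∧
    ∃ ψ : D.HM ν →ₗ[ℂ] EH (F.aM ν) univ univ, Function.Bijective ψ ∧
      (∀ x y, ψ (ecup univ univ x y) = ecup univ univ (ψ x) (ψ y)) ∧
      (∀ p x, IsDeg p x → IsDeg p (ψ x)) ∧ ∀ c, ψ (D.kir ν c) = F.kir ν c := by
  have := t3_M' (D := D) ν
  have := sc_M' (D := D) ν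
  have := t3_M2 (D := D) ν
  have := sc_M2 (D := D) ν
  have := ok_aM' (D := D) ν
  have := Hg_ok F ν
  have i2 : F.aD.Inv (D.Xs2 ν) := fun g _ hx => F.aD_Xs g hx
  have := D.dbl.aN.ok_sub (desc_inv ν)
  have := F.aD.ok_sub i2
  have s1 := D.dbl.aN.sub_val (desc_inv ν)
  have s2 := F.aD.sub_val i2
  have cv : ∀ {A : Type} [TopologicalSpace A] {S : Set A},
      Continuous fun z : ℝ × S => (z.1, z.2.1) := by fun_prop
  refine Hg_main (a := F.aD.sub (D.Xs2 ν)) (b := D.dbl.aN.sub (D.Xs ν)) (φ := Prod.snd)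
    (f := fun x => ⟨F.fD x.1, F.fD_Xs x.2⟩) (f' := fun x => ⟨F.fD' x.1, F.fD'_Xs x.2⟩)
    (h := fun s x => ⟨D.hD s x.1, hD_Xs s x.2⟩) (h' := fun s x => ⟨D.hD' s x.1, hD'_Xs s x.2⟩)
    (fun g => ⟨(1, g), rfl⟩) isQuotientMap_quot_mk isQuotientMap_quot_mk
    (Hg_adm continuous_quot_mk fun g x => ?_) (gadm_desc' ν)
    ⟨(F.continuous_fD.comp cv.snd).subtype_mk _, fun _ g x => Subtype.ext ?_⟩
    ⟨(F.continuous_fD'.comp cv.snd).subtype_mk _, fun _ g x => Subtype.ext ?_⟩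
    ⟨(continuous_hD.comp cv).subtype_mk _, fun s g x => Subtype.ext ?_⟩
    ⟨(continuous_hD'.comp cv).subtype_mk _, fun s g x => Subtype.ext ?_⟩
    (fun x y e => mk1_iff.2 ((mk2_iff.1 e).imp fun g k =>
      ⟨k.1, k.2.1, (congrArg F.fD k.2.2).trans (F.fD_gdb k.1 k.2.1 _)⟩))
    (fun x y e => mk2_iff.2 ((mk1_iff.1 e).imp fun g k =>
      ⟨k.1, k.2.1, (congrArg F.fD' k.2.2).trans (F.fD'_gact k.1 k.2.1 _)⟩))
    (fun s x y e => mk2_iff.2 ((mk2_iff.1 e).imp fun g k =>
      ⟨k.1, k.2.1, (congrArg (D.hD s) k.2.2).trans (hD_gdb s k.1 k.2.1 _)⟩))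
    (fun s x y e => mk1_iff.2 ((mk1_iff.1 e).imp fun g k =>
      ⟨k.1, k.2.1, (congrArg (D.hD' s) k.2.2).trans (hD'_gact s k.1 k.2.1 _)⟩))
    (fun x => Subtype.ext (F.fD'_fD _).symm) (fun x => Subtype.ext (F.fD_fD' _).symm)
    (fun x => Subtype.ext (hD_one _)) (fun x => Subtype.ext (hD'_one _)) (desc_bij' ν)
  · exact ((Hg_mk F g.2 x).trans (mk2_iff.2 ⟨_, g.1.2, (ku_Ub g.1).gu.unit,
      (s2 g x).trans (F.aD_split g _)⟩)).symm
  · exact (congrArg F.fD (s2 g x)).trans ((F.fD_act g _).trans (s1 g ⟨_, F.fD_Xs x.2⟩).symm)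
  · exact (congrArg F.fD' (s1 g x)).trans ((F.fD'_act g _).trans (s2 g ⟨_, F.fD'_Xs x.2⟩).symm)
  · exact (congrArg (D.hD s) (s2 g x)).trans
      ((F.hD_act s g _).trans (s2 g ⟨_, hD_Xs s x.2⟩).symm)
  · exact (congrArg (D.hD' s) (s1 g x)).trans
      ((hD'_act s g _).trans (s1 g ⟨_, hD'_Xs s x.2⟩).symm)

end Qv

end Pool.Agent.Work.MP_849ab0_ag.G
end
end
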