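import Pool.Agent.Work.MP_849ab0_ag.G.H1.MnF
import Pool.Agent.Work.MP_849ab0_ag.G.F.Dg
import Pool.Agent.Work.MP_849ab0_ag.G.H1.StCh
import Pool.Agent.Work.MP_849ab0_ag.G.H2.EsJ
import Pool.Agent.Work.MP_849ab0_ag.G.Goal
import Pool.Agent.Work.MP_849ab0_ag.G.F.Hg
import Pool.Agent.Work.MP_849ab0_ag.G.H2.UL
import Pool.Agent.Work.MP_849ab0_ag.G.IfC
import Pool.Agent.Work.MP_849ab0_ag.G.Gen

-- merged part: Pool.Agent.Work.MP_849ab0_ag.G.H1.MgS
section
/-!
The class `α (e (st))` is nonzero on transversal slices.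

Hints.  Compare `H2/EsC.lean`.  `TD.gp_int` with `φ = fun _ => 1` from `Gp.one`, `X' = J' → ℂ` with
the trivial action, `Y' = (J ⊕ JL → ℂ) × (J' → ℂ)`, `ρ' = (T.rep.sum L).res (mapT A fun _ => 1)`,
`b' = ρ'.prod ((Act.triv _ _).res Prod.snd)`, `T' = ⟨T.m, fun q _ => T.c q 1, T.θ⟩`,
`f' z = (z.1 ∘ inr, z.1 ∘ inl, β z.2)`, `V' = {z | z.1 ∘ inl ∈ lev ∧ z.2 ∈ O}`, `W' = f' ⁻¹' Zd`
(`Act.Pr.preimage'`; the bound for `Adm` is `R ∘ β` with `R` from `h.bound`).  The pulled back class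
is `sm (euc st') (eul (rel, Φ))` (`gp_sm`, `euc_res`, `gp_ecup`, `gp_eul`, `eul_sum`), which is the
image of `eul Γ V' W''`, `Γ z = ((rel, Φ), z.1 ∘ inr ∘ si)`, `W'' = W' ∩ {z.1 ∘ inr ∘ si = 0}`
(`gp_eul`, `eul_sum` with supports `W'` and `univ`, `eul_univ`, `ecup_comm`, `ecup_sm_left`,
`eone_ecup`).  `TD.int_gp_id`, then `TD.norm` with the open set `{z | z.2 ∈ O}`, `V₀ = V'`,
`i = Sum.inl`, `mt = Sum.elim T.m mL`, `z₀ = (Sum.elim y₀ l₀, 0)` and `hs.pt`.
-/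

noncomputable section

set_option linter.unusedSectionVars false
set_option linter.unusedVariables false

namespace Pool.Agent.Work.MP_849ab0_ag.G

open Set Topology Matrix

theorem MgS_eul_sum_univ {G : Gp} [G.Nice] {Y J₁ J₂ : Type} [TopologicalSpace Y] [T3Space Y]
    [SecondCountableTopology Y] [Fintype J₁] [Fintype J₂] {b : Act G Y} [b.Ok]
    {ρ₁ : Act G (J₁ → ℂ)} [ρ₁.Rep] {ρ₂ : Act G (J₂ → ℂ)} [ρ₂.Rep] {F₁ : Y → J₁ → ℂ}
    {F₂ : Y → J₂ → ℂ} {V W : Set Y} (h₁ : EAdm b ρ₁ F₁ V W) (h₂ : EAdm b ρ₂ F₂ V univ) :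
    eul b (ρ₁.sum ρ₂) (fun y => Sum.elim (F₁ y) (F₂ y)) V W = sm (euc ρ₂) (eul b ρ₁ F₁ V W) := by
  have k := (ecup_top h₁.src).symm
  refine (eul_sum (F := fun y => Sum.elim (F₁ y) (F₂ y)) isSum_sum h₁ h₂ h₁.src
    fun _ k => k.1.2).trans ((congrArg _ (eul_univ h₂)).trans ?_)
  rw [ecup_sm_right k ev_eucT, ecup_eone k (gadm_id h₁.src h₁.src subset_rfl inter_subset_right),
    gp_id h₁.src]
  rfl

namespace MND

variable {A : Type} [Fintype A] [DecidableEq A] {H : Gp} [H.Nice] {X J Jr JL JE Js : Type}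
  [TopologicalSpace X] [T3Space X] [SecondCountableTopology X] [Fintype J] [Fintype Jr]
  [Fintype JL] [Fintype JE] [Fintype Js]
  {S : MND A H X J Jr JL JE Js} {a : Act H X} [a.Ok] {U Z : Set X}

theorem Ok.slice_ne (h : S.Ok a U Z) {J' : Type} [Fintype J'] {β : (J' → ℂ) → X}
    {O : Set (J' → ℂ)} (hs : S.Slice U Z β O) :
    gp (Act.triv Gp.one (J' → ℂ)) (fun _ => 1) β O {0} (S.al a U Z (euc S.st)) ≠ 0 := by
  have := h.repσ
  have := h.repL
  have := h.repE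
  have := h.ok.rep
  have := rep_st (S := S)
  obtain ⟨l₀, y₀, m₁, m₂, m₃, s₀, u₀, r', Φ', dr, dΦ, hk⟩ := hs.pt
  obtain ⟨R, cR, -, hR⟩ := h.bound
  let ψ := mapT A (H := H) (H' := Gp.one) fun _ => 1
  let ρ := (S.T.rep.sum S.L).res ψ
  let t := Act.triv Gp.one (J' → ℂ)
  let b := ρ.prod (t.res (G' := TG A Gp.one) Prod.snd)
  let τ := S.st.res ψ
  let σ := ((S.σ.res ψ).sum (S.E.res ψ)).sum τ
  let D : TD A J Gp.one := ⟨S.T.m, fun q _ => S.T.c q 1, S.T.θ⟩
  let f : (J ⊕ JL → ℂ) × (J' → ℂ) → (JL → ℂ) × (J → ℂ) × X :=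
    fun z => (z.1 ∘ .inr, z.1 ∘ .inl, β z.2)
  let V : Set ((J ⊕ JL → ℂ) × (J' → ℂ)) := {z | z.1 ∘ .inl ∈ S.T.lev ∧ z.2 ∈ O}
  let Γ : (J ⊕ JL → ℂ) × (J' → ℂ) → (Jr ⊕ JE) ⊕ Js → ℂ := fun z =>
    Sum.elim (Sum.elim (S.rel (z.1 ∘ .inl)) (S.Φ (f z))) (z.1 ∘ .inr ∘ S.si)
  let A₁ : ((J ⊕ JL → ℂ) × (J' → ℂ)) →L[ℝ] J → ℂ :=
    .pi fun q => (ContinuousLinearMap.proj (.inl q)).comp (.fst ℝ _ _)
  let A₂ : ((J ⊕ JL → ℂ) × (J' → ℂ)) →L[ℝ] JL → ℂ :=
    .pi fun q => (ContinuousLinearMap.proj (.inr q)).comp (.fst ℝ _ _)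
  have cf : ContinuousOn f {z | z.2 ∈ O} := A₂.continuous.continuousOn.prodMk
    (A₁.continuous.continuousOn.prodMk (hs.cont.comp continuousOn_snd fun _ k => k))
  have cV : ContinuousOn f V := cf.mono fun _ k => k.2
  have ef : ∀ g v, f (b.act g v) = (S.bt a).act (ψ g) (f v) := fun g v =>
    Prod.ext rfl (Prod.ext rfl (a.act_one _).symm)
  have pV : b.Pr V univ := ⟨(h.pr_lev.lc.preimage A₁.continuous).inter
    (hs.op.preimage continuous_snd).isLocallyClosed, fun g z k => ⟨h.pr_lev.inv (ψ g) _ k.1, k.2⟩,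
    fun _ _ _ _ => trivial, fun _ _ => trivial⟩
  have mV : MapsTo f V (S.Vt U) := fun _ k => ⟨k.1, hs.maps k.2⟩
  have gf : ∀ {Z}, (S.bt a).Pr (S.Vt U) Z → GAdm b (S.bt a) ψ f V (f ⁻¹' Z) (S.Vt U) Z := fun k =>
    ⟨k.preimage' pV cV mV fun g v _ => ef g v, k, cV, fun g v _ => ef g v, mV, fun _ _ k => k⟩
  have hρ : ∀ g w q, ρ.act g w q = chr (Sum.elim S.T.m S.mL q) g.1 * w q := by
    rintro g w (q | q)
    · exact congrArg (· * w _) ((congrArg _ (h.ok.ch q).one).trans (mul_one _))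
    · exact h.wL g.1 _ q
  have k₀ := gf h.pr_Zd
  have k₁ := gf h.pr_Vt
  have k₂ := gf h.eadm_dia.src
  have e₁ : EAdm b (S.σ.res ψ) (fun z => S.rel (z.1 ∘ .inl)) V (f ⁻¹' {z | z.2.1 ∈ S.R0}) :=
    ⟨k₁.src, Act.Rep.pr _, (h.eadm_relT.comp k₁).cont, (h.eadm_relT.comp k₁).eqv, mapsTo_univ _ _,
      fun _ _ k => k⟩
  have e₂ : EAdm b (S.E.res ψ) (fun v => S.Φ (f v)) V (f ⁻¹' (S.Φ ⁻¹' {0})) :=
    ⟨k₂.src, Act.Rep.pr _, (h.eadm_dia.comp k₂).cont, (h.eadm_dia.comp k₂).eqv, mapsTo_univ _ _,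
      fun _ _ k => k⟩
  have c₃ : Continuous fun z : (J ⊕ JL → ℂ) × (J' → ℂ) => z.1 ∘ .inr ∘ S.si :=
    (cont_comp_right _).comp continuous_fst
  have q₃ : ∀ g z, (b.act g z).1 ∘ .inr ∘ S.si = τ.act g (z.1 ∘ .inr ∘ S.si) := fun g z =>
    funext fun q => hρ g z.1 (.inr (S.si q))
  have p₃ : b.Pr univ {z | z.1 ∘ .inr ∘ S.si = 0} := (Act.Rep.pr τ).preimage (φ := id) c₃ q₃
  have e₄ : ∀ {Z}, b.Pr univ Z → {z | z.1 ∘ .inr ∘ S.si = 0} ⊆ Z →
      EAdm b τ (fun z => z.1 ∘ .inr ∘ S.si) V Z :=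
    fun k m => ⟨k.mono k₀.src (subset_univ _), Act.Rep.pr _, c₃.continuousOn,
      fun g v _ => q₃ g v, mapsTo_univ _ _, fun _ _ k => m k⟩
  have e₅ := IsSum.eadm (F := fun v => Sum.elim (S.rel (v.1 ∘ .inl)) (S.Φ (f v))) isSum_sum e₁ e₂
    k₀.src fun _ k => ⟨k.1.2, k.2⟩
  have p₆ := k₀.src.inter (e₄ p₃ subset_rfl).src
  have e₆ := IsSum.eadm (F := Γ) isSum_sum e₅ (e₄ p₃ subset_rfl) p₆ fun _ k => ⟨k.1.2, k.2⟩
  have tO : t.Pr O {0} :=
    t.pr_of hs.op.isLocallyClosed (fun _ _ k => k) isClosed_singleton fun _ _ k => k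
  have z₀ : ∀ z ∈ f ⁻¹' S.Zd, z.1 ∘ .inl ∈ S.T.lev → z.2 ∈ O → z.2 = 0 := fun z k k' k'' =>
    hs.zero _ k'' (h.supp (f z) ⟨⟨k', hs.maps k''⟩, k⟩)
  have ad : ∀ {Z}, b.Pr V Z → Z ⊆ f ⁻¹' S.Zd →
      D.Adm t b ρ Prod.snd Prod.fst (fun z => z.1 ∘ .inl) O {0} V Z := fun k m =>
    ⟨⟨fun q => (h.ok.ch q).comp (G' := Gp.one) fun _ => 1, h.ok.free⟩,
      fib_prod (tO.preimage (b := t.res (G' := TG A Gp.one) Prod.snd) (φ := Prod.snd)
        continuous_id fun _ _ => rfl), tO, k, A₁.continuous.continuousOn, fun _ _ _ => rfl,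
      fun _ k k' => ⟨k, k'⟩, fun z k k' k'' => z₀ z (m k) k' k'', R ∘ β,
      cR.comp hs.cont hs.maps, fun _ _ _ => rfl, fun z k k' k'' =>
      ((nsq_splitT (Equiv.refl _) _).trans (add_comm _ _)).trans_le
        (hR (f z) ⟨⟨k', hs.maps k''⟩, m k⟩)⟩
  have g₆ := gadm_id p₆ k₀.src subset_rfl fun _ k => k.2.1
  have key : gp b ψ f V (f ⁻¹' S.Zd) (sm (euc S.st) (S.cls a U)) =
      gp b id id V (f ⁻¹' S.Zd) (eul b σ Γ V (f ⁻¹' S.Zd ∩ {z | z.1 ∘ .inr ∘ S.si = 0})) := by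
    have c₀ : ECup b _ _ _ _ _ _ := ⟨k₁.src, k₂.src, k₀.src,
      .of_subset subset_rfl subset_rfl fun _ _ k k' => ⟨k, k'⟩⟩
    rw [gp_eul e₆ g₆ (σ := σ) (fun _ _ => rfl) (F' := Γ) fun _ _ => rfl,
      MgS_eul_sum_univ e₅ (e₄ b.pr_top (subset_univ _)), gp_sm k₀, euc_res, cls,
      gp_ecup h.ecup_dia c₀ k₀ k₁ k₂ subset_rfl subset_rfl,
      gp_eul h.eadm_relT k₁ (σ := S.σ.res ψ) (fun _ _ => rfl) (F' := fun v => S.rel (v.1 ∘ .inl))
        fun _ _ => rfl, gp_eul h.eadm_dia k₂ (σ := S.E.res ψ) (fun _ _ => rfl)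
        (F' := fun v => S.Φ (f v)) fun _ _ => rfl]
    exact congrArg _ (eul_sum (F := fun v => Sum.elim (S.rel (v.1 ∘ .inl)) (S.Φ (f v))) isSum_sum
      e₁ e₂ k₀.src fun _ k => ⟨k.1.2, k.2⟩).symm
  rw [al, intT, TD.gp_int (φ := fun _ => 1) h.admT (ad k₀.src subset_rfl) rfl rfl
    (fun _ _ => rfl) ⟨tO, h.pr, hs.cont, fun _ _ _ => (a.act_one _).symm, hs.maps, hs.zero⟩ k₀
    (fun _ _ => rfl) (fun _ _ => rfl) (fun z _ => Sum.elim_comp_inl_inr z.1) fun _ _ => rfl, key,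
    TD.int_gp_id (ad p₆ inter_subset_left) (ad k₀.src subset_rfl) g₆]
  let A₃ := A₂.prod (A₁.prod (ContinuousLinearMap.snd ℝ (J ⊕ JL → ℂ) (J' → ℂ)))
  have dΓ : HasFDerivAt Γ (ContinuousLinearMap.pi (Sum.elim (Sum.elim
      (fun q => (ContinuousLinearMap.proj q).comp (r'.comp A₁))
      fun q => (ContinuousLinearMap.proj q).comp (Φ'.comp A₃))
      fun z => (ContinuousLinearMap.proj (S.si z)).comp A₂)) (Sum.elim y₀ l₀, 0) :=
    hasFDerivAt_pi.2 (by
      rintro ((q | q) | z)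
      · exact hasFDerivAt_pi'.1 (HasFDerivAt.comp (f := A₁) _ dr A₁.hasFDerivAt) q
      · exact hasFDerivAt_pi'.1 (HasFDerivAt.comp (f := A₃) (Sum.elim y₀ l₀, 0) dΦ
          A₃.hasFDerivAt) q
      · exact ((ContinuousLinearMap.proj (R := ℝ) (φ := fun _ => ℂ) (S.si z)).comp A₂).hasFDerivAt)
  refine TD.norm (σ := σ) (z₀ := (Sum.elim y₀ l₀, 0)) hρ .inl (fun _ => rfl) hs.op
    (ad p₆ inter_subset_left) m₁ (fun z k k' k'' => ?_) (O := {z | z.2 ∈ O})
    (hs.op.preimage continuous_snd) hs.mem (fun _ k => k) (fun _ _ k => k)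
    (Γ := Γ) ?_ (fun g z _ => ?_) ?_ p₆ (fun _ k => ⟨k.2, k⟩) (fun _ k k' => ⟨k', k⟩)
    e₆.supp (gp_id p₆ _) dΓ (fun δ k k' => ?_) ?_
  · obtain ⟨g, g₁, g₂⟩ := u₀ (z.1 ∘ .inr) _ k' k.1.1 (z₀ z k.1 k' k'' ▸ k.1.2) k.2
    refine ⟨(g, 1), funext ?_⟩
    rintro (q | q)
    exacts [congrFun g₂ q, congrFun g₁ q]
  · refine continuousOn_pi.2 ?_
    rintro ((q | q) | z)
    exacts [((continuous_apply q).comp (h.contr.comp A₁.continuous)).continuousOn,
      ((continuous_apply q).comp h.contΦ).comp_continuousOn cf,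
      ((continuous_apply z).comp c₃).continuousOn]
  · funext q
    rcases q with (q | q) | q
    exacts [congrFun (h.eqvr (ψ g) _) q, congrFun ((congrArg _ (ef g z)).trans (h.eqvΦ _ _)) q,
      hρ g z.1 (.inr (S.si q))]
  · funext q
    rcases q with (q | q) | q
    exacts [congrFun m₂ q, congrFun m₃ q, congrFun s₀ q]
  · obtain ⟨a₀, ξ, a₁, a₂⟩ := hk (A₂ δ) (A₁ δ) δ.2 (funext fun q => congrFun k (.inl (.inl q)))
      (funext fun q => congrFun k (.inl (.inr q))) (funext fun q => congrFun k (.inr q)) k'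
    refine ⟨ξ, a₀, ?_⟩
    rintro (q | q)
    exacts [a₂ q, a₁ q]
  · have := hs.dim
    simp only [Fintype.card_sum]
    omega

end MND

end Pool.Agent.Work.MP_849ab0_ag.G
end
end

-- merged part: Pool.Agent.Work.MP_849ab0_ag.G.H1.MgM
section
/-!
The abstract theorem of McGerty and Nevins.
-/

noncomputable section

set_option linter.unusedSectionVars false
set_option linter.unusedVariables false

namespace Pool.Agent.Work.MP_849ab0_ag.G

open Set Topology Matrix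

namespace MND

variable {A : Type} [Fintype A] [DecidableEq A] {H : Gp} [H.Nice] {X J Jr JL JE Js : Type}
  [TopologicalSpace X] [T3Space X] [SecondCountableTopology X] [Fintype J] [Fintype Jr]
  [Fintype JL] [Fintype JE] [Fintype Js]
  {S : MND A H X J Jr JL JE Js} {a : Act H X} [a.Ok] {U Z : Set X}

theorem Ok.main (h : S.Ok a U Z) {H₀ : Gp} [H₀.Nice] {ι : H₀.H → H.H} [IsHom ι] {S₀ : Set X}
    {ψ : (TG A H).H → H₀.H} [IsHom ψ] {k : (JL → ℂ) × (J → ℂ) × X → H.H}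
    (hk : S.Cj a U Z ι S₀ ψ k) {J' B : Type} [Fintype J'] [TopologicalSpace B]
    (hc : ∀ x ∈ Z, ∃ g, ∃ (O : Set (B × (J' → ℂ))) (f : B × (J' → ℂ) → X) (z : B), IsOpen O ∧
      (z, 0) ∈ O ∧ f (z, 0) = a.act g x ∧ (∀ w ∈ O, f w ∈ Z ↔ w.2 = 0) ∧
      (∃ hm : MapsTo f O U, IsOpenEmbedding (hm.restrict f O U)) ∧
      S.Slice U Z (fun v => f (z, v)) {v | (z, v) ∈ O}) :
    ∃ τ : EH a U Z, Function.Surjective (fun g : EH a Z univ => ecup U Z g τ) ∧
      ∀ (c : HPt H₀) (g : EH a Z univ), gp (a.res ι) ι id S₀ univ g = kpt (a.res ι) S₀ c →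
        ∃ d, gp a id id U univ (ecup U Z g τ) = kpt a U d := by
  refine ⟨S.al a U Z (euc S.st), ?_, fun c g e => ?_⟩
  · rcases Z.eq_empty_or_nonempty with rfl | ⟨x₀, hx₀⟩
    · exact fun y => ⟨0, (eq_zero_of_disjoint h.pr (inter_empty _) _).trans
        (eq_zero_of_disjoint h.pr (inter_empty _) y).symm⟩
    · obtain ⟨_, _, _, _, -, -, -, -, -, h0⟩ := hc x₀ hx₀
      have := rep_st (S := S)
      refine (thom_loc (J := J') (A := B) h.pr hk.sub (h.isDeg_al isDeg_eul ?_)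
        fun x hx => ?_).2
      · have := h0.dim
        omega
      · obtain ⟨g, O, f, z, h1, h2, h3, h4, h5, h6⟩ := hc x hx
        exact ⟨g, O, f, z, h1, h2, h3, h4, h5, h.slice_ne h6⟩
  · rw [h.ecup_al hk.sub (hk.pull h e)]
    exact h.taut _

end MND

end Pool.Agent.Work.MP_849ab0_ag.G
end
end

-- merged part: Pool.Agent.Work.MP_849ab0_ag.G.H1.MN
section
/-!
The theorem of McGerty and Nevins for one stratum.
-/

noncomputable section

set_option linter.unusedSectionVars false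
set_option linter.unusedVariables false

namespace Pool.Agent.Work.MP_849ab0_ag.G

open Set Topology Matrix

namespace Qv

variable {I P E κ : Type} [Fintype I] [DecidableEq I] [Fintype P] [DecidableEq P] [Fintype E]
  [Fintype κ] [DecidableEq κ] {D : Qv I P E κ} {ν : I → ℤ} {ρ r : Option P → ℤ}
  {W δ : D.tri.Rep} {x y ε : D.dbl.Rep} {l l' : D.J3l → ℂ} {U : Set D.dbl.Rep}

theorem Step.mn' (h : D.Step ν ρ U) : ∃ τ : EH D.dbl.aN U (D.Sr ν ρ),
    Function.Surjective (fun g : EH D.dbl.aN (D.Sr ν ρ) univ => ecup U (D.Sr ν ρ) g τ) ∧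
    ∀ (c : HPt (KT (D.cr ρ) κ)) (g : EH D.dbl.aN (D.Sr ν ρ) univ),
      gp (D.aR ρ) (D.iK ρ) id (D.S0 ν ρ) univ g = kpt (D.aR ρ) (D.S0 ν ρ) c →
        ∃ d, gp D.dbl.aN id id U univ (ecup U (D.Sr ν ρ) g τ) = D.kx U d := by
  obtain ⟨r, r1, r2⟩ := exists_refine ρ
  have hr : Rf ρ r := ⟨r1, r2⟩
  refine (ok_mnd hr h).main (cj_mnd hr h) (J' := Fin (D.cod ρ)) (B := D.ChA ρ) ?_
  rintro x ⟨k, hk, y, hy, rfl⟩
  obtain ⟨u, hu⟩ := exists_act (D := D.dbl) hk.adj
  obtain ⟨O, f, z, L, h1, h2, h3, h4, ⟨hm, h5⟩, h6, h7, h8⟩ := h.chart hy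
  have e : D.dbl.aN.act (u, 1) (D.dbl.cnj k y) = y := by
    rw [hu, ← hk.inv_eq]
    exact cj_inv (D := D.dbl) hk.gu y
  have cf : ContinuousOn f O := continuousOn_iff_continuous_domRestrict.2
    (continuous_subtype_val.comp h5.continuous)
  subst h3
  refine ⟨(u, 1), O, f, z, h1, h2, e.symm, h4, ⟨hm, h5⟩, slice_mnd hr
    (h1.preimage (Continuous.prodMk_right z)) h2
    (cf.comp (Continuous.prodMk_right z).continuousOn fun _ hv => hv) (fun _ hv => hm hv)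
    (fun v hv k => (h4 _ hv).1 k) hy h6.hasFDerivAt h7 h8⟩


end Qv

end Pool.Agent.Work.MP_849ab0_ag.G
end
end

-- merged part: Pool.Agent.Work.MP_849ab0_ag.G.H3.If
section
/-!
The two inputs of the induction over the strata.
-/

noncomputable section

set_option linter.unusedSectionVars false
set_option linter.unusedVariables false

namespace Pool.Agent.Work.MP_849ab0_ag.G

open Set Topology Matrix

namespace Qv

variable {I P E κ : Type} [Fintype I] [DecidableEq I] [Fintype P] [DecidableEq P] [Fintype E]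
  [Fintype κ] [DecidableEq κ] {D : Qv I P E κ}
  {ν : I → ℤ} {ρ : Option P → ℤ} {U : Set D.dbl.Rep}

/-- MN (helper4) -/
theorem Step.mn (hν : D.Gen ν) (h : D.Step ν ρ U) : ∃ τ : EH D.dbl.aN U (D.Sr ν ρ),
    Function.Surjective (fun g : EH D.dbl.aN (D.Sr ν ρ) univ => ecup U (D.Sr ν ρ) g τ) ∧
    ∀ (c : HPt (KT (D.cr ρ) κ)) (g : EH D.dbl.aN (D.Sr ν ρ) univ),
      gp (D.aR ρ) (D.iK ρ) id (D.S0 ν ρ) univ g = kpt (D.aR ρ) (D.S0 ν ρ) c →
        ∃ d, gp D.dbl.aN id id U univ (ecup U (D.Sr ν ρ) g τ) = D.kx U d := h.mn'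

/-- ES -/
theorem es_surj (hν : D.Gen ν) (hρ : Bx ρ) :
    Function.Surjective (kpt (D.aR ρ) (D.Flev ν ρ)) := es_surj' hν ρ

end Qv

end Pool.Agent.Work.MP_849ab0_ag.G
end
end

-- merged part: Pool.Agent.Work.MP_849ab0_ag.G.H3.BC
section
/-!
Base change and torsion freeness from surjectivity for all coordinate subtori (owner helper37).
-/

noncomputable section

set_option linter.unusedSectionVars false
set_option linter.unusedVariables false

namespace Pool.Agent.Work.MP_849ab0_ag.G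

open Set Topology Matrix

section

variable {G G' G'' : Gp} [G.Nice] [G'.Nice] [G''.Nice] {X : Type}
  [TopologicalSpace X] [T3Space X] [SecondCountableTopology X]
  {a : Act G X} [a.Ok] {a' : Act G' X} [a'.Ok] {a'' : Act G'' X} [a''.Ok] {U : Set X}

/-- base change for the kernels of the tautological maps -/
def BCh (a : Act G X) (a' : Act G' X) (ψ : G.H → G'.H) [IsHom ψ] (U : Set X) : Prop :=
  ∀ c : HPt G', kpt a U (gpt ψ c) = 0 → ∃ c', kpt a' U c' = 0 ∧ gpt ψ c' = gpt ψ c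

theorem pr_of_res {ψ : G.H → G'.H} (h : a'.Pr U univ) (e : ∀ g x, a.act g x = a'.act (ψ g) x) :
    a.Pr U univ :=
  ⟨h.lc, fun g x k => e g x ▸ h.inv _ x k, fun _ _ _ _ => trivial, fun _ _ => trivial⟩

theorem gadm_of_res {ψ : G.H → G'.H} (h : a'.Pr U univ)
    (e : ∀ g x, a.act g x = a'.act (ψ g) x) : GAdm a a' ψ id U univ U univ :=
  ⟨pr_of_res h e, h, continuousOn_id, fun g x _ => e g x, fun _ k => k, fun _ _ _ => trivial⟩

theorem kpt_res {ψ : G.H → G'.H} [IsHom ψ] (h : a'.Pr U univ)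
    (e : ∀ g x, a.act g x = a'.act (ψ g) x) {c : HPt G'} (hc : kpt a' U c = 0) :
    kpt a U (gpt ψ c) = 0 := by
  rw [← gp_kpt (gadm_of_res h e), hc, map_zero]

theorem BCh.step {ψ : G.H → G'.H} [IsHom ψ] {χ : G'.H → ℂ} (hχ : IsChar χ)
    (hs : ∀ z : ℂ, ‖z‖ = 1 → ∃ g, χ g = z) (hψ : Function.Injective ψ)
    (hk : ∀ g, χ g = 1 ↔ g ∈ range ψ) (h : a'.Pr U univ) (e : ∀ g x, a.act g x = a'.act (ψ g) x)
    (hO : Function.Surjective (kpt a' U)) : BCh a a' ψ U := by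
  intro c hc
  obtain ⟨x, hx⟩ := gysin_ker hχ hs hψ hk h e (y := kpt a' U c)
    (by rw [gp_kpt (gadm_of_res h e), hc])
  obtain ⟨d, rfl⟩ := hO x
  refine ⟨c - eu χ * d, by rw [map_sub, kpt_mul h, ← hx, sub_self], ?_⟩
  have : (fun g => χ (ψ g)) = fun _ => 1 := funext fun g => (hk _).2 ⟨g, rfl⟩
  rw [map_sub, map_mul, gpt_eu hχ, this, eu_one, zero_mul, sub_zero]

theorem BCh.trans {ψ : G.H → G'.H} [IsHom ψ] {ψ' : G'.H → G''.H} [IsHom ψ'] {ω : G.H → G''.H}
    [IsHom ω] (e : ∀ g, ω g = ψ' (ψ g)) (h : BCh a a' ψ U) (h' : BCh a' a'' ψ' U)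
    {π : G''.H → G'.H} [IsHom π] (hπ : ∀ g, π (ψ' g) = g) : BCh a a'' ω U := by
  intro c hc
  obtain ⟨d, d1, d2⟩ := h (gpt ψ' c) (by rw [gpt_comp e, hc])
  have e1 : gpt ψ' (gpt π d) = d := by
    rw [gpt_comp (χ := id) (fun g => (hπ g).symm), gpt_id]
  obtain ⟨c', c1, c2⟩ := h' (gpt π d) (by rw [e1, d1])
  exact ⟨c', c1, by rw [← gpt_comp e, c2, e1, d2, gpt_comp e]⟩

theorem BCh.transfer {ψ : G.H → G'.H} [IsHom ψ] {ι : G.H → G''.H} [IsHom ι] {m : G''.H → G'.H}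
    [IsHom m] {n : G'.H → G''.H} [IsHom n] (e₁ : ∀ g, ψ g = m (ι g)) (e₂ : ∀ g, ι g = n (ψ g))
    (h : a''.Pr U univ) (e : ∀ g x, a'.act g x = a''.act (n g) x) (hB : BCh a a'' ι U) :
    BCh a a' ψ U := by
  intro c hc
  obtain ⟨d, d1, d2⟩ := hB (gpt m c) (by rw [gpt_comp e₁, hc])
  exact ⟨gpt n d, kpt_res h e d1, by rw [gpt_comp e₂, d2, gpt_comp e₁]⟩

end

/-! ### coordinate subtori -/

section

variable {κ κ₀ κ₁ : Type} [Fintype κ] [DecidableEq κ] [Fintype κ₀] [DecidableEq κ₀] [Fintype κ₁]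
  [DecidableEq κ₁]

/-- the inclusion of a coordinate subtorus -/
def exT (ι : κ₀ → κ) (g : κ₀ → Circle) : κ → Circle := Function.extend ι g 1

instance isHom_exT (ι : κ₀ → κ) : IsHom (G := Gp.tor κ) (G' := Gp.tor κ₀) (exT ι) where
  mul g h := by
    have := Function.extend_mul ι g h 1 1
    rwa [one_mul] at this
  cont := continuous_pi fun j => by
    simp only [exT, Function.extend_def]
    split_ifs
    · exact continuous_apply _
    · exact continuous_const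

theorem exT_apply {ι : κ₀ → κ} (h : Function.Injective ι) (g : κ₀ → Circle) (i : κ₀) :
    exT ι g (ι i) = g i := h.extend_apply _ _ _

theorem exT_not {ι : κ₀ → κ} (g : κ₀ → Circle) {j : κ} (h : j ∉ range ι) : exT ι g j = 1 :=
  Function.extend_apply' _ _ _ h

theorem exT_comp {ι : κ₁ → κ} {ι' : κ₀ → κ₁} (h : Function.Injective ι)
    (h' : Function.Injective ι') (g : κ₀ → Circle) : exT (ι ∘ ι') g = exT ι (exT ι' g) :=
  h'.extend_comp h g 1

theorem chr_exT {ι : κ₀ → κ} (h : Function.Injective ι) (m : κ → ℤ) (g : κ₀ → Circle) :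
    chr m (exT ι g) = chr (m ∘ ι) g :=
  (Fintype.prod_of_injective ι h _ _ (fun j hj => by rw [exT_not g hj]; simp)
    fun i => by rw [exT_apply h]; rfl).symm

variable (K : Gp) [K.Nice]

/-- the inclusion `K × T₀ → K × T` -/
def exK (ι : κ₀ → κ) : (K.prod (Gp.tor κ₀)).H → (K.prod (Gp.tor κ)).H := fun g => (g.1, exT ι g.2)

instance isHom_exK (ι : κ₀ → κ) : IsHom (exK K ι) :=
  IsHom.prodMk IsHom.fst (IsHom.comp (h := isHom_exT ι) (k := IsHom.snd))

/-- the projection `K × T → K × T₀` -/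
def prK (ι : κ₀ → κ) : (K.prod (Gp.tor κ)).H → (K.prod (Gp.tor κ₀)).H := fun g => (g.1, g.2 ∘ ι)

instance isHom_prK (ι : κ₀ → κ) : IsHom (prK K ι) :=
  ⟨fun _ _ => rfl, continuous_fst.prodMk (continuous_pi fun i =>
    (continuous_apply (ι i)).comp continuous_snd)⟩

theorem prK_exK {ι : κ₀ → κ} (h : Function.Injective ι) (g : (K.prod (Gp.tor κ₀)).H) :
    prK K ι (exK K ι g) = g := Prod.ext rfl (funext fun i => exT_apply h g.2 i)

theorem exK_comp {ι : κ₁ → κ} {ι' : κ₀ → κ₁} (h : Function.Injective ι)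
    (h' : Function.Injective ι') (g : (K.prod (Gp.tor κ₀)).H) :
    exK K (ι ∘ ι') g = exK K ι (exK K ι' g) := Prod.ext rfl (exT_comp h h' g.2)

/-- the coordinate characters -/
def crd (j : κ) : (K.prod (Gp.tor κ)).H → ℂ := fun g => g.2 j

theorem isChar_crd (j : κ) : IsChar (crd K j) :=
  ⟨fun _ _ => Circle.coe_mul _ _, continuous_subtype_val.comp
    ((continuous_apply j).comp continuous_snd), fun g => Circle.norm_coe _⟩

theorem crd_surj (j : κ) (z : ℂ) (hz : ‖z‖ = 1) : ∃ g, crd K j g = z :=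
  ⟨(1, fun _ => ⟨z, by simpa [Submonoid.unitSphere] using hz⟩), rfl⟩

theorem crd_ker (j : κ) (g : (K.prod (Gp.tor κ)).H) :
    crd K j g = 1 ↔ g ∈ range (exK K (Subtype.val : {i // i ≠ j} → κ)) := by
  have hj : j ∉ range (Subtype.val : {i // i ≠ j} → κ) := fun ⟨i, k⟩ => i.2 k
  refine ⟨fun k => ⟨prK K Subtype.val g, Prod.ext rfl (funext fun i => ?_)⟩, ?_⟩
  · by_cases e : i = j
    · subst e
      exact (exT_not _ hj).trans (Circle.ext k.symm)
    · exact exT_apply Subtype.val_injective _ ⟨i, e⟩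
  · rintro ⟨g, rfl⟩
    exact congrArg Subtype.val (exT_not g.2 hj)

variable {K} {X : Type} [TopologicalSpace X] [T3Space X] [SecondCountableTopology X]

/-- the tautological maps are onto for all coordinate subtori -/
def AllSurj (a : Act (K.prod (Gp.tor κ)) X) (U : Set X) : Prop :=
  ∀ (κ₀ : Type) [Fintype κ₀] [DecidableEq κ₀] (ι : κ₀ → κ), Function.Injective ι →
    ∀ a₀ : Act (K.prod (Gp.tor κ₀)) X, (∀ g x, a₀.act g x = a.act (exK K ι g) x) →
      Function.Surjective (kpt a₀ U)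

variable {U : Set X}

theorem AllSurj.self {a : Act (K.prod (Gp.tor κ)) X} (h : AllSurj a U) :
    Function.Surjective (kpt a U) :=
  h κ id Function.injective_id a fun g x => by
    rw [show exK K id g = g from prK_exK K Function.injective_id g]

theorem AllSurj.res {a : Act (K.prod (Gp.tor κ)) X} (h : AllSurj a U) {ι : κ₀ → κ}
    (hι : Function.Injective ι) : AllSurj (a.res (exK K ι)) U :=
  fun κ₁ _ _ ι' h' a₀ e => h κ₁ (ι ∘ ι') (hι.comp h') a₀ fun g x => by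
    rw [e, exK_comp K hι h']; rfl

theorem AllSurj.bch (n : ℕ) : ∀ (κ : Type) [Fintype κ] [DecidableEq κ] (ι : κ₀ → κ),
    Function.Injective ι → Fintype.card κ = Fintype.card κ₀ + n →
    ∀ (a : Act (K.prod (Gp.tor κ)) X) [a.Ok], a.Pr U univ → AllSurj a U →
    ∀ (a₀ : Act (K.prod (Gp.tor κ₀)) X) [a₀.Ok], (∀ g x, a₀.act g x = a.act (exK K ι g) x) →
      BCh a₀ a (exK K ι) U := by
  induction n with
  | zero =>
    intro κ _ _ ι hι hc a _ h _ a₀ _ e c k
    have hb : Function.Surjective ι :=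
      ((Fintype.bijective_iff_injective_and_card ι).2 ⟨hι, hc.symm⟩).2
    have e1 : ∀ g, exK K ι (prK K ι g) = g := fun g => Prod.ext rfl (funext fun j => by
      obtain ⟨i, rfl⟩ := hb j
      exact exT_apply hι _ i)
    refine ⟨c, ?_, rfl⟩
    have := kpt_res (a := a) (ψ := prK K ι) (pr_of_res h e) (fun g x => by rw [e, e1]) k
    rwa [gpt_comp (χ := id) (fun g => (e1 g).symm), gpt_id] at this
  | succ n ih =>
    intro κ _ _ ι hι hc a _ h hs a₀ _ e
    obtain ⟨j, hj⟩ : ∃ j, j ∉ range ι := by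
      by_contra! k
      have := Fintype.card_le_of_surjective ι k
      omega
    have hv : Function.Injective (Subtype.val : {i // i ≠ j} → κ) := Subtype.val_injective
    let ι₁ : κ₀ → {i // i ≠ j} := fun i => ⟨ι i, fun k => hj ⟨i, k⟩⟩
    have h₁ : Function.Injective ι₁ := fun _ _ k => hι (congrArg Subtype.val k)
    have e₁ : ∀ g, exK K ι g = exK K Subtype.val (exK K ι₁ g) := exK_comp K hv h₁
    exact BCh.trans e₁ (ih _ ι₁ h₁ (by simp; omega) (a.res (exK K Subtype.val)) (h.res _)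
      (hs.res hv) a₀ fun g x => by rw [e, e₁]; rfl)
      (BCh.step (isChar_crd K j) (crd_surj K j)
        (Function.LeftInverse.injective (prK_exK K hv)) (crd_ker K j) h (fun _ _ => rfl) hs.self)
      (prK_exK K hv)

/-- setting the variable `j` to zero -/
def kil (j : κ) : MvPolynomial κ ℂ →ₐ[ℂ] MvPolynomial {i // i ≠ j} ℂ :=
  MvPolynomial.aeval fun i => if h : i = j then 0 else MvPolynomial.X ⟨i, h⟩

theorem dvd_of_kil (j : κ) (s : MvPolynomial κ ℂ) (h : kil j s = 0) : MvPolynomial.X j ∣ s := by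
  have : (Ideal.Quotient.mkₐ ℂ (Ideal.span {(MvPolynomial.X j : MvPolynomial κ ℂ)})).comp
      ((MvPolynomial.rename Subtype.val).comp (kil j)) = Ideal.Quotient.mkₐ ℂ _ := by
    refine MvPolynomial.algHom_ext fun i => ?_
    by_cases e : i = j
    · subst e
      simp [kil, eq_comm]
    · simp [kil, e]
  have := DFunLike.congr_fun this s
  simp only [AlgHom.comp_apply, h, map_zero, Ideal.Quotient.mkₐ_eq_mk] at this
  exact Ideal.mem_span_singleton.1 (Ideal.Quotient.eq_zero_iff_mem.1 this.symm)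

theorem gpt_pol_X (j : κ) :
    gpt (Prod.snd : (K.prod (Gp.tor κ)).H → _) (pol κ (MvPolynomial.X j)) = eu (crd K j) := by
  rw [pol_X]
  exact gpt_eu (G := Gp.tor κ) ⟨fun _ _ => Circle.coe_mul _ _,
    continuous_subtype_val.comp (continuous_apply j), fun g => Circle.norm_coe _⟩

theorem gpt_exK_pol (j : κ) (s : MvPolynomial κ ℂ) :
    gpt (exK K (Subtype.val : {i // i ≠ j} → κ)) (gpt Prod.snd (pol κ s)) =
      gpt Prod.snd (pol _ (kil j s)) := by
  have : ((gpt (exK K (Subtype.val : {i // i ≠ j} → κ))).comp (gpt Prod.snd)).comp (pol κ) =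
      ((gpt Prod.snd).comp (pol _)).comp (kil j) := by
    refine MvPolynomial.algHom_ext fun i => ?_
    simp only [AlgHom.comp_apply]
    rw [gpt_pol_X, gpt_eu (isChar_crd K i)]
    by_cases e : i = j
    · subst e
      have : (fun g => crd K i (exK K (Subtype.val : {l // l ≠ i} → κ) g)) = fun _ => 1 :=
        funext fun g => (crd_ker K i _).2 ⟨g, rfl⟩
      rw [this, eu_one]
      simp [kil]
    · have : (fun g => crd K i (exK K (Subtype.val : {l // l ≠ j} → κ) g)) = crd K ⟨i, e⟩ :=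
        funext fun g => congrArg Subtype.val (exT_apply Subtype.val_injective g.2 ⟨i, e⟩)
      rw [this, ← gpt_pol_X]
      simp [kil, e]
  exact DFunLike.congr_fun this s

theorem AllSurj.tors
    (hK : ∀ (κ : Type) [Fintype κ] [DecidableEq κ] (c : HPt (K.prod (Gp.tor κ))), Ev c) (n : ℕ) :
    ∀ (κ : Type) [Fintype κ] [DecidableEq κ], Fintype.card κ = n →
    ∀ (a : Act (K.prod (Gp.tor κ)) X) [a.Ok], a.Pr U univ → AllSurj a U →
    ∀ s : MvPolynomial κ ℂ, s ≠ 0 → ∀ y : EH a U univ, sm (gpt Prod.snd (pol κ s)) y = 0 →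
      y = 0 := by
  induction n with
  | zero =>
    intro κ _ _ hc a _ h _ s hs y hy
    have := Fintype.card_eq_zero_iff.1 hc
    obtain ⟨z, rfl⟩ := MvPolynomial.C_surjective κ s
    have hz : z ≠ 0 := fun e => hs (by rw [e, map_zero])
    rw [show (MvPolynomial.C z : MvPolynomial κ ℂ) = z • 1 by
      rw [MvPolynomial.smul_eq_C_mul, mul_one], map_smul, map_smul, map_one, map_one, map_smul,
      LinearMap.smul_apply, sm_one h] at hy
    exact (smul_eq_zero.1 hy).resolve_left hz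
  | succ n ih =>
    intro κ _ _ hc a _ h hs s h0 y hy
    obtain ⟨j⟩ : Nonempty κ := Fintype.card_pos_iff.1 (by omega)
    have hv : Function.Injective (Subtype.val : {i // i ≠ j} → κ) := Subtype.val_injective
    have hi := Function.LeftInverse.injective (prK_exK K hv)
    have nz : ∀ x : EH a U univ, sm (eu (crd K j)) x = 0 → x = 0 := fun x =>
      gysin_inj (isChar_crd K j) (crd_surj K j) hi (crd_ker K j) h (a₀ := a.res _)
        (fun _ _ => rfl) (ev_of_kpt (hK _) (hs.res hv).self) (ev_of_kpt (hK _) hs.self x)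
    have mul : ∀ (f g : MvPolynomial κ ℂ) (x : EH a U univ), sm (gpt Prod.snd (pol κ (f * g))) x =
        sm (gpt Prod.snd (pol κ f)) (sm (gpt Prod.snd (pol κ g)) x) := fun f g x => by
      rw [map_mul, map_mul, sm_mul h]
    obtain ⟨m, s', h1, rfl⟩ := WfDvdMonoid.max_power_factor' h0
      (MvPolynomial.X_prime (i := j) (R := ℂ)).not_isUnit
    have h2 : sm (gpt Prod.snd (pol κ s')) y = 0 := by
      induction m with
      | zero => simpa using hy
      | succ m ihm =>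
        refine ihm (fun e => h0 (by rw [pow_succ', mul_assoc, e, mul_zero])) (nz _ ?_)
        rw [← gpt_pol_X, ← mul, ← mul_assoc, ← pow_succ', hy]
    refine eq_zero_of_div (L := sm (eu (crd K j))) (fun p x k => by
      rw [add_comm]; exact (isDeg_eu (isChar_crd K j)).sm k)
      (Q := fun y => sm (gpt Prod.snd (pol κ s')) y = 0) (fun y hy => ?_) h2
    have k := gadm_of_res (a := a.res (exK K (Subtype.val : {i // i ≠ j} → κ))) h fun _ _ => rfl
    obtain ⟨z, rfl⟩ := gysin_ker (isChar_crd K j) (crd_surj K j) hi (crd_ker K j) h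
      (a₀ := a.res _) (fun _ _ => rfl) (y := y)
      (ih _ (by simp; omega) _ (h.res _) (hs.res hv) (kil j s') (fun e => h1 (dvd_of_kil j s' e))
        _ (by rw [← gpt_exK_pol, ← gp_sm k, hy, map_zero]))
    refine ⟨z, nz _ ?_, rfl⟩
    rw [← gpt_pol_X, ← mul, mul_comm, mul, gpt_pol_X, hy]

end

end Pool.Agent.Work.MP_849ab0_ag.G
end
end

-- merged part: Pool.Agent.Work.MP_849ab0_ag.G.H3.Base
section
/-!
Kirwan surjectivity, base change and torsion freeness (owner helper37).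
-/

noncomputable section

set_option linter.unusedSectionVars false
set_option linter.unusedVariables false

namespace Pool.Agent.Work.MP_849ab0_ag.G

open Set Topology Matrix

theorem chr_sub' {κ : Type} [Fintype κ] (m m' : κ → ℤ) (g : κ → Circle) :
    chr (m - m') g = chr m g / chr m' g := by
  simp [chr, zpow_sub₀, Finset.prod_div_distrib]

namespace Qv

variable {I P E κ : Type} [Fintype I] [DecidableEq I] [Fintype P] [DecidableEq P] [Fintype E]
  [Fintype κ] [DecidableEq κ] (D : Qv I P E κ) {ν : I → ℤ}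

theorem kx_surj_gen (hν : D.Gen ν) : Function.Surjective (D.kx (D.Xs ν)) := by
  refine strata_ind hν (Q := fun U => Function.Surjective (D.kx U))
    (fun y => ⟨0, by
      rw [map_zero]
      exact (eq_zero_of_disjoint (Act.pr_empty _ univ) (empty_inter _) y).symm⟩)
    fun ρ U h _ hO => surj_step h.pr hO fun y => ?_
  obtain ⟨τ, h1, h2⟩ := h.mn hν
  obtain ⟨g, rfl⟩ := h1 y
  have k : GAdm (D.aR ρ) (D.aR ρ) id id (D.Flev ν ρ) univ (D.S0 ν ρ) univ :=
    gadm_id pr_S0 pr_Flev (fun _ k => Fr_sub_S0 k.1) (subset_univ _)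
  obtain ⟨c, hc⟩ := es_surj hν h.bx (gp (D.aR ρ) id id (D.Flev ν ρ) univ
    (gp (D.aR ρ) (D.iK ρ) id (D.S0 ν ρ) univ g))
  exact h2 c g (s0_flev_bij.1 (by rw [gp_id_kpt k, hc]))

theorem kx_surj (hν : D.Reg ν) : Function.Surjective (D.kx (D.Xs ν)) :=
  xs_pert hν ▸ D.kx_surj_gen (gen_pert ν)

/-- the action for other weights -/
theorem chg_act {κ' : Type} [Fintype κ'] [DecidableEq κ'] (t : E → κ' → ℤ) (h : κ' → ℤ)
    (φ : (κ → Circle) → κ' → Circle) (ht : ∀ e g, chr (t e) (φ g) = chr (D.t e) g)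
    (hh : ∀ g, chr h (φ g) = chr D.h g) (g : (KT D.col κ).H) (x : D.dbl.Rep) :
    D.dbl.aN.act g x = (D.chg t h).dbl.aN.act (g.1, φ g.2) x := funext fun p => by
  have : chr (D.dbl.t p.1.1) g.2 = chr ((D.chg t h).dbl.t p.1.1) (φ g.2) := by
    rcases p.1.1 with e | e <;> simp [chr_sub', ht, hh]
  exact congrArg (· * D.dbl.gact g.1.1.1 x p) this

theorem allSurj (hν : D.Reg ν) : AllSurj D.dbl.aN (D.Xs ν) := by
  intro κ₀ _ _ ι hι a₀ e
  obtain rfl : a₀ = (D.chg (fun e => D.t e ∘ ι) (D.h ∘ ι)).dbl.aN := by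
    obtain ⟨f⟩ := a₀
    exact congrArg Act.mk (funext fun g => funext fun x => (e g x).trans
      ((D.chg (fun e => D.t e ∘ ι) (D.h ∘ ι)).chg_act D.t D.h (exT ι)
        (fun e g => chr_exT hι _ g) (fun g => chr_exT hι _ g) g x).symm)
  exact (D.chg (fun e => D.t e ∘ ι) (D.h ∘ ι)).kx_surj hν

theorem tors_free (hν : D.Reg ν) {s : MvPolynomial κ ℂ} (hs : s ≠ 0)
    {y : EH D.dbl.aN (D.Xs ν) univ} (hy : sm (gpt Prod.snd (pol κ s)) y = 0) : y = 0 :=
  AllSurj.tors (fun _ _ _ => ev_blk D.col) _ κ rfl _ (D.pr_Xs ν) (D.allSurj hν) s hs y hy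

theorem chr_elim {κ' : Type} [Fintype κ'] (m : κ → ℤ) (m' : κ' → ℤ) (g : κ ⊕ κ' → Circle) :
    chr (Sum.elim m m') g = chr m (g ∘ Sum.inl) * chr m' (g ∘ Sum.inr) := by
  simp [chr, Fintype.prod_sum_type]

theorem kx_base (hν : D.Reg ν) {κ' : Type} [Fintype κ'] [DecidableEq κ'] (t : E → κ' → ℤ)
    (h : κ' → ℤ) (φ : (Gp.tor κ).H → (Gp.tor κ').H) [IsHom φ]
    (ht : ∀ e g, chr (t e) (φ g) = chr (D.t e) g) (hh : ∀ g, chr h (φ g) = chr D.h g)
    (π : (Gp.tor κ').H → (Gp.tor κ).H) [IsHom π] (hπ : ∀ g, π (φ g) = g)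
    (ψ : (KT D.col κ).H → (KT D.col κ').H) [IsHom ψ] (hψ : ∀ g, ψ g = (g.1, φ g.2))
    (c : (D.chg t h).HP) (hc : D.kx (D.Xs ν) (gpt ψ c) = 0) :
    ∃ c' : (D.chg t h).HP, (D.chg t h).kx ((D.chg t h).Xs ν) c' = 0 ∧ gpt ψ c' = gpt ψ c := by
  let D₂ := D.chg (fun e => Sum.elim (D.t e) (t e)) (Sum.elim D.h h)
  let m : (KT D.col (κ ⊕ κ')).H → (KT D.col κ').H :=
    fun g => (g.1, φ (g.2 ∘ Sum.inl) * (g.2 ∘ Sum.inr))
  let n₀ : (κ' → Circle) → κ ⊕ κ' → Circle := fun g => Sum.elim (π g) (g * (φ (π g))⁻¹)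
  let n : (KT D.col κ').H → (KT D.col (κ ⊕ κ')).H := fun g => (g.1, n₀ g.2)
  have φm : ∀ g g' : κ → Circle, φ (g * g') = φ g * φ g' := IsHom.mul (φ := φ)
  have πm : ∀ g g' : κ' → Circle, π (g * g') = π g * π g' := IsHom.mul (φ := π)
  have : IsHom m := ⟨fun g g' => Prod.ext rfl (by
      change φ ((g.2 ∘ Sum.inl) * (g'.2 ∘ Sum.inl)) * ((g.2 ∘ Sum.inr) * (g'.2 ∘ Sum.inr)) = _
      rw [φm, mul_mul_mul_comm]; rfl),
    continuous_fst.prodMk (((IsHom.cont (φ := φ)).comp (continuous_pi fun i =>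
      (continuous_apply (Sum.inl i)).comp continuous_snd)).mul
        (continuous_pi fun i => (continuous_apply (Sum.inr i)).comp continuous_snd))⟩
  have cπ : Continuous fun g : κ' → Circle => (π g : κ → Circle) := IsHom.cont (φ := π)
  have cφ : Continuous fun g : κ → Circle => (φ g : κ' → Circle) := IsHom.cont (φ := φ)
  have cn : Continuous n₀ := continuous_pi fun j => by
    rcases j with j | j
    · exact (continuous_apply j).comp cπ
    · exact (continuous_apply j).comp (continuous_id.mul (cφ.comp cπ).inv)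
  have : IsHom n := ⟨fun g g' => Prod.ext rfl (funext fun j => by
      rcases j with j | j
      · exact congrFun (πm g.2 g'.2) j
      · change (g.2 * g'.2 * (φ (π (g.2 * g'.2)))⁻¹) j = (g.2 * (φ (π g.2))⁻¹ *
          (g'.2 * (φ (π g'.2))⁻¹)) j
        rw [πm, φm, mul_inv, mul_mul_mul_comm]),
    continuous_fst.prodMk (cn.comp continuous_snd)⟩
  have e1 : ∀ g : κ → Circle, exT (Sum.inl : κ → κ ⊕ κ') g ∘ Sum.inl = g :=
    fun g => funext fun i => exT_apply Sum.inl_injective g i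
  have e2 : ∀ g : κ → Circle, exT (Sum.inl : κ → κ ⊕ κ') g ∘ Sum.inr = 1 :=
    fun g => funext fun i => exT_not g (by simp)
  have e3 : ∀ (w : κ → ℤ) (w' : κ' → ℤ), (∀ g, chr w' (φ g) = chr w g) →
      ∀ g, chr (Sum.elim w w') (n₀ g) = chr w' g := fun w w' k g => by
    rw [chr_elim, Sum.elim_comp_inl, Sum.elim_comp_inr, ← k, ← (isChar_chr w').mul,
      mul_comm g, mul_inv_cancel_left]
  let a₁ : Act (KT D.col κ') D.dbl.Rep := (D.chg t h).dbl.aN
  let a₂ : Act (KT D.col (κ ⊕ κ')) D.dbl.Rep := D₂.dbl.aN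
  have : a₁.Ok := (inferInstance : (D.chg t h).dbl.aN.Ok)
  have : a₂.Ok := (inferInstance : D₂.dbl.aN.Ok)
  have p₂ : a₂.Pr (D.Xs ν) univ := D₂.pr_Xs ν
  have s₂ : AllSurj a₂ (D.Xs ν) := D₂.allSurj hν
  refine BCh.transfer (a := D.dbl.aN) (a' := a₁) (a'' := a₂) (U := D.Xs ν)
    (ι := exK (Gp.blk D.col) Sum.inl) (m := m) (n := n)
    (fun g => ?_) (fun g => ?_) p₂ (fun g x => (D.chg t h).chg_act _ _ n₀
      (fun e => e3 _ _ (ht e)) (e3 _ _ hh) g x)
    (AllSurj.bch (Fintype.card κ') _ Sum.inl Sum.inl_injective Fintype.card_sum a₂ p₂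
      s₂ D.dbl.aN fun g x => D.chg_act _ _ (exT Sum.inl)
        (fun e g => chr_exT Sum.inl_injective _ g) (fun g => chr_exT Sum.inl_injective _ g) g x)
    c hc
  · rw [hψ]
    refine Prod.ext rfl ?_
    change φ g.2 = φ (exT Sum.inl g.2 ∘ Sum.inl) * (exT Sum.inl g.2 ∘ Sum.inr)
    rw [e1, e2, mul_one]
  · rw [hψ]
    refine Prod.ext rfl ?_
    change exT Sum.inl g.2 = Sum.elim (π (φ g.2)) (φ g.2 * (φ (π (φ g.2)))⁻¹)
    rw [hπ, mul_inv_cancel, ← Sum.elim_comp_inl_inr (exT Sum.inl g.2), e1, e2]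

end Qv

end Pool.Agent.Work.MP_849ab0_ag.G
end
end

-- merged part: Pool.Agent.Work.MP_849ab0_ag.G.H2.EsK
section
/-!
From the toric level set to the stable locus.
-/

noncomputable section

set_option linter.unusedSectionVars false
set_option linter.unusedVariables false

namespace Pool.Agent.Work.MP_849ab0_ag.G

open Set Topology Matrix

namespace Qv

variable {I P E κ C : Type} [Fintype I] [DecidableEq I] [Fintype P] [DecidableEq P] [Fintype E]
  [Fintype κ] [DecidableEq κ] {D : Qv I P E κ} {ν : I → ℤ} {ρ : Option P → ℤ} {m : ℤ}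
  {r : Option P → ℤ} {c' : P → C} {a : Act (KT c' κ) D.dbl.Rep} [a.Ok] {Lv : Set D.dbl.Rep}

/-- a class that dies on the toric level set dies on the stable locus -/
theorem kx_of_ker (hν : D.Gen ν) (hC : D.Contr) (hr : Function.Injective r) {c : D.HP}
    (hc : D.lam c * D.eR (D.lp.pD 0 1 2) (D.pS 0 1 r) ∈ kerT
      (fun x : D.JE 0 1 => D.dbl.wt x.1) (fun x => D.dbl.t x.1.1.1) (ν ∘ D.col)) :
    D.kx (D.Xs ν) c = 0 := by
  have h : D.Hy ν 0 1 r D.col D.dbl.aN (D.Xs ν ∩ D.dbl.Lev ν) :=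
    ⟨hν, hr, fun a b => by simp, fun _ _ => rfl,
      fun y => ⟨fun k => ⟨k.1, fun p hp => absurd (one_dvd _) hp, k.2⟩, fun k => ⟨k.1, k.2.2⟩⟩,
      pr_Xlev ν⟩
  obtain ⟨v, hv⟩ := hC
  obtain ⟨W, τ, s, h1, h2, h3, h4⟩ := exists_tau (m := fun x : D.JE 0 1 => D.dbl.wt x.1)
    (t := fun x => D.dbl.t x.1.1.1) (θ := ν ∘ D.col) (fun x => x.1.1.2.1) (fun x => x.1.1.2.2)
    (fun _ => rfl) v (by
      rintro ⟨⟨⟨e | e, _⟩, _⟩, _⟩
      exacts [(hv e).1, (hv e).2])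
  rw [mem_kerT, map_mul, pol2_lam, ← euc_sigR] at hc
  have h5 := h.ok.tors h2 h3 h4 hc
  have k := gadm_id (pr_Xs' (D := D) ν) (pr_Xlev ν) inter_subset_left inter_subset_right
  refine D.tors_free (fun S hS _ => hν S hS) h1 ((res_lev_bij ν).1 ?_)
  rw [map_zero, gp_sm k, gpt_id]
  erw [gp_id_kpt k]
  refine h.ok.isUnit_NN.mul_left_eq_zero.1 ?_
  exact (ecup_sm_left (ecup_top (pr_Xlev ν)) _ _ _).trans h5

end Qv

end Pool.Agent.Work.MP_849ab0_ag.G
end
end

-- merged part: Pool.Agent.Work.MP_849ab0_ag.G.H2.Huni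
section
/-!
The residue description of the kernel of the Kirwan map.
-/

noncomputable section

set_option linter.unusedSectionVars false
set_option linter.unusedVariables false

namespace Pool.Agent.Work.MP_849ab0_ag.G

open Set Topology Matrix

variable {k n : ℕ} {E κ : Type} [Fintype E] [DecidableEq E] [Fintype κ] [DecidableEq κ]
  (D : Qv (Fin k) (Fin n) E κ)

namespace Qv

theorem contr_un' : D.un.Contr := ⟨fun j => j.elim 2 fun _ => 1, fun e => by
  simp [mul_sub, Pi.single_apply]⟩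

theorem huni_gen {ν : Fin k → ℤ} (hν : D.Gen ν) (c : D.un.HP) :
    D.un.kx (D.un.Xs ν) c = 0 ↔
      MvPolynomial.map (eta E κ).toRingHom (D.un.lam c) ∈ D.toQD.uni.IT ν := by
  refine ⟨fun h => D.IT_un (D.un.dirA hν h), fun h => ?_⟩
  obtain ⟨r, hr, -⟩ := exists_refine (0 : Option (Fin n) → ℤ)
  exact kx_of_ker (D := D.un) hν D.contr_un' hr (D.IT_span hν h (fun _ => one_dvd _)
    (fun _ => one_dvd _) (hr.comp (Option.some_injective _))
    (fun _ => and_iff_right (one_dvd _)) _ cut_kerT)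

theorem huni' {ν : Fin k → ℤ} (hν : D.Reg ν) (c : D.un.HP) :
    D.un.kx (D.un.Xs ν) c = 0 ↔
      MvPolynomial.map (eta E κ).toRingHom (D.un.lam c) ∈ D.toQD.uni.IT ν := by
  have e : per n ν 1 = D.pert ν := funext fun i => by simp [per, pert]
  rw [← xs_pert (D := D.un) hν, ← D.toQD.uni.IT_per ν, e]
  exact D.huni_gen (gen_pert ν) c

end Qv

end Pool.Agent.Work.MP_849ab0_ag.G
end
end

-- merged part: Pool.Agent.Work.MP_849ab0_ag.G.IfH2
section
/-!
Interface of the residue description of the kernel (owner helper87).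
-/

noncomputable section

set_option linter.unusedSectionVars false
set_option linter.unusedVariables false

namespace Pool.Agent.Work.MP_849ab0_ag.G

open Set Topology Matrix

variable {k n : ℕ} {E κ : Type} [Fintype E] [DecidableEq E] [Fintype κ] [DecidableEq κ]
  (D : Qv (Fin k) (Fin n) E κ)

namespace Qv

theorem huni {ν : Fin k → ℤ} (hν : D.Reg ν) (c : D.un.HP) :
    D.un.kx (D.un.Xs ν) c = 0 ↔
      MvPolynomial.map (eta E κ).toRingHom (D.un.lam c) ∈ D.toQD.uni.IT ν := D.huni' hν c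

end Qv

end Pool.Agent.Work.MP_849ab0_ag.G
end
end

-- merged part: Pool.Agent.Work.MP_849ab0_ag.G.Final
section
/-!
Assembly.
-/

noncomputable section

set_option linter.unusedSectionVars false
set_option linter.unusedVariables false

namespace Pool.Agent.Work.MP_849ab0_ag

namespace QD

variable {k n : ℕ} {E R : Type} [Fintype E] [CommRing R] (D : QD k n E R)
  {K : Type} [CommRing K] [Algebra (MvPolynomial (Fin n) R) K] [MulSemiringAction D.Lat K]
  {ν : Fin k → ℤ} {x y : D.Op K}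

theorem fin_JJ_right (hx : x ∈ D.JJ K ν) (hy : y ∈ D.Alg K) (h0 : D.Hom K ν 0 y) :
    x * y ∈ D.JJ K ν := by
  induction hx using AddSubgroup.closure_induction with
  | mem x hx =>
    obtain ⟨m, hm, b, hb, a, ha, h1, h2, rfl⟩ := hx
    exact AddSubgroup.subset_closure ⟨m, hm, b, hb, a * y, mul_mem ha hy, h1,
      by simpa using h2.mul D h0, mul_assoc _ _ _⟩
  | zero => rw [zero_mul]; exact zero_mem _
  | add a b _ _ ha hb => rw [add_mul]; exact add_mem ha hb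
  | neg a _ ha => rw [neg_mul]; exact neg_mem ha

theorem fin_JJ_left (hx : x ∈ D.JJ K ν) (hy : y ∈ D.Alg K) (h0 : D.Hom K ν 0 y) :
    y * x ∈ D.JJ K ν := by
  induction hx using AddSubgroup.closure_induction with
  | mem x hx =>
    obtain ⟨m, hm, b, hb, a, ha, h1, h2, rfl⟩ := hx
    exact AddSubgroup.subset_closure ⟨m, hm, y * b, mul_mem hy hb, a, ha,
      by simpa using h0.mul D h1, h2, (mul_assoc _ _ _).symm⟩
  | zero => rw [mul_zero]; exact zero_mem _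
  | add a b _ _ ha hb => rw [mul_add]; exact add_mem ha hb
  | neg a _ ha => rw [mul_neg]; exact neg_mem ha

end QD

namespace G

open Set Topology Matrix

theorem fin_sq {G₁ G₂ G₃ G₄ : Gp} [G₁.Nice] [G₂.Nice] [G₃.Nice] [G₄.Nice] (φ : G₂.H → G₁.H)
    (ψ : G₄.H → G₂.H) (φ' : G₃.H → G₁.H) (ψ' : G₄.H → G₃.H) [IsHom φ] [IsHom ψ] [IsHom φ']
    [IsHom ψ'] (e : ∀ g, φ (ψ g) = φ' (ψ' g)) (c : HPt G₁) :
    gpt ψ (gpt φ c) = gpt ψ' (gpt φ' c) :=
  (gpt_comp (φ := φ) (ψ := ψ) (χ := φ ∘ ψ) (fun _ => rfl) c).trans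
    (gpt_comp (φ := φ') (ψ := ψ') (χ := φ ∘ ψ) e c).symm

variable {k n : ℕ} {E κ : Type} [Fintype E] [DecidableEq E] [Fintype κ] [DecidableEq κ]
  (D : Qv (Fin k) (Fin n) E κ) {ν : Fin k → ℤ}

namespace Qv

/-- the weights of the coordinates of the universal torus -/
def uw : Option (E ⊕ κ) → κ → ℤ
  | none => D.h
  | some (.inl e) => D.t e
  | some (.inr j) => Pi.single j 1

/-- the homomorphism to the universal torus -/
def uphi : (Gp.tor κ).H → (Gp.tor (Option (E ⊕ κ))).H := fun g o => ∏ j, g j ^ D.uw o j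

theorem coe_uphi (g : κ → Circle) (o : Option (E ⊕ κ)) : (D.uphi g o : ℂ) = chr (D.uw o) g :=
  (map_prod Circle.coeHom _ _).trans (Finset.prod_congr rfl fun _ _ => Circle.coe_zpow _ _)

instance : IsHom D.uphi where
  mul g h := funext fun o => by
    simp only [uphi, Pi.mul_apply, mul_zpow, Finset.prod_mul_distrib]
  cont := continuous_pi fun o => continuous_finsetProd _ fun j _ =>
    (continuous_apply j).zpow _

/-- the retraction of `uphi` -/
def upi (E κ : Type) [Fintype E] [DecidableEq E] [Fintype κ] [DecidableEq κ] :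
    (Gp.tor (Option (E ⊕ κ))).H → (Gp.tor κ).H := fun g j => g (some (.inr j))

instance : IsHom (upi E κ) := ⟨fun _ _ => rfl, continuous_pi fun _ => continuous_apply _⟩

theorem upi_uphi (g : κ → Circle) : upi E κ (D.uphi g) = g :=
  funext fun j => Circle.ext ((D.coe_uphi g _).trans (chr_single j g))

/-- the homomorphism `K × T → K × T'` -/
def upsi : (KT D.col κ).H → (KT D.col (Option (E ⊕ κ))).H := fun g => (g.1, D.uphi g.2)

instance : IsHom D.upsi :=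
  IsHom.prodMk IsHom.fst (IsHom.comp (φ := D.uphi) (k := IsHom.snd (G := Gp.blk D.col)))

/-- the homomorphism `T_K × T → T_K × T'` -/
def upsT : ((Gp.tor (Fin n)).prod (Gp.tor κ)).H →
    ((Gp.tor (Fin n)).prod (Gp.tor (Option (E ⊕ κ)))).H := fun g => (g.1, D.uphi g.2)

instance : IsHom D.upsT :=
  IsHom.prodMk IsHom.fst (IsHom.comp (φ := D.uphi) (k := IsHom.snd (G := Gp.tor (Fin n))))

/-- specialisation of the universal weights -/
def uth : MvPolynomial (Option (E ⊕ κ)) ℂ →+* MvPolynomial κ ℂ :=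
  D.toQD.ev.comp (eta E κ).toRingHom

theorem uth_X (o : Option (E ⊕ κ)) : D.uth (MvPolynomial.X o) = lf ℂ (D.uw o) := by
  rcases o with _ | e | j <;>
    simp [uth, uw, eta_none, eta_inl, eta_inr, QD.ev, lf_single]

theorem uth_C (z : ℂ) : D.uth (MvPolynomial.C z) = MvPolynomial.C z := by
  simp [uth, eta_C, QD.ev]

theorem pol_uth (s : MvPolynomial (Option (E ⊕ κ)) ℂ) :
    pol κ (D.uth s) = gpt D.uphi (pol _ s) := by
  induction s using MvPolynomial.induction_on with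
  | C z =>
    rw [uth_C, ← MvPolynomial.algebraMap_eq, ← MvPolynomial.algebraMap_eq, AlgHom.commutes,
      AlgHom.commutes, AlgHom.commutes]
  | add p q hp hq => simp only [map_add, hp, hq]
  | mul_X p o hp =>
    rw [map_mul, map_mul, map_mul, map_mul, hp, uth_X, pol_lf, ← lf_single, pol_lf,
      gpt_eu (isChar_chr _)]
    simp only [chr_single, coe_uphi]

theorem pol2_uth (f : MvPolynomial (Fin n) (MvPolynomial (Option (E ⊕ κ)) ℂ)) :
    pol2 (Fin n) κ (MvPolynomial.map D.uth f) = gpt D.upsT (pol2 _ _ f) := by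
  induction f using MvPolynomial.induction_on with
  | C s =>
    rw [MvPolynomial.map_C, pol2_C, pol2_C, pol_uth]
    apply fin_sq
    exact fun _ => rfl
  | add p q hp hq => simp only [map_add, hp, hq]
  | mul_X p j hp =>
    rw [map_mul, map_mul, map_mul, map_mul, hp, MvPolynomial.map_X, pol2_X, pol2_X, polx, polx,
      AlgHom.comp_apply, AlgHom.comp_apply]
    congr 1
    symm
    apply gpt_comp
    exact fun _ => rfl

theorem lam_upsi (c : D.un.HP) : D.lam (gpt D.upsi c) = MvPolynomial.map D.uth (D.un.lam c) := by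
  apply pol2_bij.injective
  rw [pol2_lam, pol2_uth, pol2_lam]
  apply fin_sq
  exact fun _ => rfl

theorem gadm_un (ν : Fin k → ℤ) :
    GAdm D.dbl.aN D.un.dbl.aN D.upsi id (D.Xs ν) univ (D.un.Xs ν) univ :=
  ⟨D.pr_Xs ν, D.un.pr_Xs ν, continuousOn_id, fun g x _ => funext fun p => by
    have : chr (D.dbl.t p.1.1) g.2 = chr (D.un.dbl.t p.1.1) (D.uphi g.2) := by
      rcases p.1.1 with e | e <;> simp [chr_sub, chr_single, coe_uphi, uw]
    exact congrArg (· * D.dbl.gact g.1.1.1 x p) this, fun _ h => h, fun _ _ _ => trivial⟩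

theorem hker (hν : D.Reg ν) (c : D.HP) : D.kx (D.Xs ν) c = 0 ↔ D.lam c ∈ D.toQD.IU ν := by
  have e (f : MvPolynomial (Fin n) (MvPolynomial (Option (E ⊕ κ)) ℂ)) :
      MvPolynomial.map D.uth f =
        MvPolynomial.map D.toQD.ev (MvPolynomial.map (eta E κ).toRingHom f) := by
    rw [MvPolynomial.map_map]; rfl
  have e' (f : MvPolynomial (Fin n) (Polynomial (MvPolynomial E (MvPolynomial κ ℂ)))) :
      MvPolynomial.map (eta E κ).toRingHom (MvPolynomial.map (eta E κ).symm.toRingHom f) = f := by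
    rw [MvPolynomial.map_map, RingEquiv.toRingHom_comp_symm_toRingHom, MvPolynomial.map_id]
  constructor
  · intro h
    let s : MvPolynomial κ ℂ →+* Polynomial (MvPolynomial E (MvPolynomial κ ℂ)) :=
      Polynomial.C.comp MvPolynomial.C
    obtain ⟨c₁, h1⟩ := D.un.exists_lam
      (QD.map_mem_Inv (eta E κ).symm.toRingHom
        (QD.map_mem_Inv (R' := Polynomial (MvPolynomial E (MvPolynomial κ ℂ))) s (D.lam_mem c)))
    have h2 : gpt D.upsi c₁ = c := D.lam_inj <| by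
      rw [lam_upsi, h1, e, e', MvPolynomial.map_map,
        show D.toQD.ev.comp s = RingHom.id _ from RingHom.ext fun r => by simp [s, QD.ev],
        MvPolynomial.map_id]
    obtain ⟨c₂, h3, h4⟩ := D.kx_base hν _ _ D.uphi
      (fun e g => by rw [chr_single, coe_uphi]; rfl) (fun g => by rw [chr_single, coe_uphi]; rfl)
      (upi E κ) D.upi_uphi D.upsi (fun _ => rfl) c₁ (h2.symm ▸ h)
    exact ⟨_, (D.huni hν c₂).1 h3, by rw [← e, ← lam_upsi, h4, h2]⟩
  · rintro ⟨q, hq, h⟩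
    obtain ⟨c₁, h1⟩ := D.un.exists_lam (QD.map_mem_Inv (eta E κ).symm.toRingHom hq.1)
    have h2 : gpt D.upsi c₁ = c := D.lam_inj <| by rw [lam_upsi, h1, e, e', h]
    have h3 := (D.huni hν c₁).2 (by rwa [h1, e'])
    have h4 := gp_comp (gadm_pt (D.un.pr_Xs ν) id) (D.gadm_un ν) (χ := D.upsi) (fun _ => rfl)
      (k := fun _ => ()) (fun _ _ => rfl) c₁
    have h5 := gp_comp (gadm_pt (Act.pr_pt _) D.upsi) (gadm_pt (D.pr_Xs ν) id) (χ := D.upsi)
      (fun _ => rfl) (k := fun _ => ()) (fun _ _ => rfl) c₁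
    rw [← h2, gpt_apply]
    refine h5.trans (h4.symm.trans ?_)
    rw [show gp D.un.dbl.aN id (fun _ => ()) (D.un.Xs ν) univ c₁ = 0 from h3, map_zero]

omit [DecidableEq E]

theorem ok_sub (ν : Fin k → ℤ) : (D.dbl.aN.sub (D.Xs ν)).Ok := Act.ok_sub _ (D.pr_Xs ν).inv

theorem pr_sub (ν : Fin k → ℤ) : (D.dbl.aN.sub (D.Xs ν)).Pr univ univ :=
  Act.pr_univ _ isClosed_univ fun _ _ _ => trivial

theorem gadm_val (ν : Fin k → ℤ) :
    GAdm (D.dbl.aN.sub (D.Xs ν)) D.dbl.aN id Subtype.val univ univ (D.Xs ν) univ :=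
  ⟨D.pr_sub ν, D.pr_Xs ν, continuous_subtype_val.continuousOn,
    fun g x _ => Act.sub_val _ (D.pr_Xs ν).inv g x, fun x _ => x.2, fun _ _ _ => trivial⟩

theorem val_bij (ν : Fin k → ℤ) : Function.Bijective
    (gp (D.dbl.aN.sub (D.Xs ν)) id Subtype.val univ univ : EH D.dbl.aN (D.Xs ν) univ → _) := by
  have := D.ok_sub ν
  refine stackIso (D.gadm_val ν) (fun _ _ _ => trivial)
    (fun y hy => ⟨1, ⟨y, hy⟩, trivial, Act.act_one _ _⟩)
    (fun x _ x' _ g h => ⟨g, ⟨rfl, Subtype.ext ((Act.sub_val _ (D.pr_Xs ν).inv g x).trans h)⟩,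
      fun _ k => k.1⟩) fun K hK h => ?_
  rw [univ_inter, Subtype.isCompact_iff, Subtype.image_preimage_coe, inter_eq_right.2 hK]
  exact h

theorem desc_kir (hν : D.Reg ν) (c : D.HP) : D.desc ν (D.kir ν c) =
    gp (D.dbl.aN.sub (D.Xs ν)) id (fun _ => ()) univ univ c :=
  apply_linv (D.desc_bij hν) _

theorem desc_kir' (hν : D.Reg ν) (c : D.HP) : D.desc ν (D.kir ν c) =
    gp (D.dbl.aN.sub (D.Xs ν)) id Subtype.val univ univ (D.kx (D.Xs ν) c) := by
  have := D.ok_sub ν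
  exact (D.desc_kir hν c).trans (gp_comp (gadm_pt (D.pr_Xs ν) id) (D.gadm_val ν) (χ := id)
    (fun _ => rfl) (fun _ _ => rfl) c).symm

theorem kir_surj (hν : D.Reg ν) : Function.Surjective (D.kir ν) := fun y => by
  obtain ⟨z, hz⟩ := (D.val_bij ν).2 (D.desc ν y)
  obtain ⟨c, rfl⟩ := D.kx_surj hν z
  exact ⟨c, (D.desc_bij hν).1 ((D.desc_kir' hν c).trans hz)⟩

theorem kir_zero (hν : D.Reg ν) (c : D.HP) : D.kir ν c = 0 ↔ D.lam c ∈ D.toQD.IU ν := by
  classical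
  rw [← D.hker hν, ← map_eq_zero_iff _ (D.desc_bij hν).1, D.desc_kir' hν,
    map_eq_zero_iff _ (D.val_bij ν).1]

theorem kir_mul (hν : D.Reg ν) (c d : D.HP) :
    D.kir ν (c * d) = ecup univ univ (D.kir ν c) (D.kir ν d) := by
  have := D.ok_sub ν
  have := D.t3_M hν
  have := D.sc_M hν
  have := D.ok_aM hν
  apply (D.desc_bij hν).1
  have h1 := map_mul (gpAlg (D.gadm_desc hν)) (D.kir ν c) (D.kir ν d)
  have h2 := map_mul (gpAlg (gadm_pt (G' := KT D.col κ) (D.pr_sub ν) id)) c d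
  refine (D.desc_kir hν _).trans (h2.trans (Eq.trans ?_ h1.symm))
  exact congrArg₂ (· * ·) (D.desc_kir hν c).symm (D.desc_kir hν d).symm

theorem kir_deg (hν : D.Reg ν) {p : ℤ} {c : D.HP} (hc : IsDeg p c) : IsDeg p (D.kir ν c) :=
  isDeg_of_map (L := D.desc ν) (D.desc_bij hν).1 (d := 0)
    (fun q x hx => by rw [add_zero]; exact hx.gp _ _)
    (by rw [add_zero, D.desc_kir hν]; exact hc.gp _ _)

theorem cst_JJ (hν : D.Reg ν) (c : D.HP) :
    D.toQD.cst (KF n κ) (D.lam c) ∈ D.toQD.JJ _ ν ↔ D.kir ν c = 0 :=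
  ((D.toQD.stmt3 (D.reg_toQD hν)).2 _ (D.lam_mem c)).trans (D.kir_zero hν c).symm

theorem goal (hν : D.Reg ν) : Function.Bijective (D.dsc ν) ∧
    ∃ (A : Type) (_ : Ring A) (ι : D.Io A) (Φ : A → D.HM ν), D.IsBFN ι ∧ D.IsHik ι ν Φ := by
  obtain ⟨ι, h1, h2, h3, h4⟩ := D.cmain hν
  have ex (x : D.toQD.Alg (KF n κ)) : ∃ c : D.HP, x ∈ D.wsp ι ν 0 →
      x.1 - D.toQD.cst (KF n κ) (D.lam c) ∈ D.toQD.JJ _ ν := by
    by_cases hx : x ∈ D.wsp ι ν 0
    · obtain ⟨f, hf, h⟩ := (D.toQD.stmt3 (D.reg_toQD hν)).1 _ x.2 ((h2 0 _).1 hx)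
      obtain ⟨c, rfl⟩ := D.exists_lam hf
      exact ⟨c, fun _ => h⟩
    · exact ⟨0, fun h => absurd h hx⟩
  choose s hs using ex
  have key {x : D.toQD.Alg (KF n κ)} (hx : x ∈ D.wsp ι ν 0) (c : D.HP)
      (h : x.1 - D.toQD.cst (KF n κ) (D.lam c) ∈ D.toQD.JJ _ ν) :
      D.kir ν (s x) = D.kir ν c := by
    have h5 := sub_mem h (hs x hx)
    rw [sub_sub_sub_cancel_left, ← QD.cstHom_apply, ← QD.cstHom_apply, ← map_sub, ← map_sub,
      QD.cstHom_apply, D.cst_JJ hν] at h5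
    exact sub_eq_zero.1 ((map_sub _ _ _).symm.trans h5)
  have alg (c : D.HP) : ι 0 (D.cst c) ∈ D.wsp ι ν 0 ∧ D.kir ν (s (ι 0 (D.cst c))) = D.kir ν c := by
    have h5 : ι 0 (D.cst c) ∈ D.wsp ι ν 0 := (h2 0 _).2 (by rw [h3]; exact D.toQD.hom_cst ν _)
    exact ⟨h5, key h5 c (by rw [h3, sub_self]; exact zero_mem _)⟩
  refine ⟨D.desc_bij hν, _, inferInstance, ι, fun x => D.kir ν (s x), h1, fun x hx y hy => ?_,
    fun x hx y hy => ?_, fun x hx => ?_, fun y => ?_, alg, fun p x hx => ?_⟩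
  · refine (key (add_mem hx hy) (s x + s y) ?_).trans (map_add _ _ _)
    have h5 := add_mem (hs x hx) (hs y hy)
    rw [map_add, ← QD.cstHom_apply, map_add]
    rwa [← add_sub_add_comm] at h5
  · have h6 : x * y ∈ D.wsp ι ν 0 :=
      (h2 0 _).2 (by simpa using ((h2 0 _).1 hx).mul _ ((h2 0 _).1 hy))
    refine ⟨h6, (key h6 (s x * s y) ?_).trans (D.kir_mul hν _ _)⟩
    have h5 := add_mem (D.toQD.fin_JJ_right (hs x hx) y.2 ((h2 0 _).1 hy))
      (D.toQD.fin_JJ_left (hs y hy) (D.toQD.cst_mem (D.lam_mem (s x))) (D.toQD.hom_cst ν _))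
    rw [map_mul, ← QD.cstHom_apply, map_mul]
    rwa [sub_mul, mul_sub, sub_add_sub_cancel] at h5
  · have h5 : D.kir ν (s x) = 0 ↔ x.1 ∈ D.toQD.JJ _ ν := by
      refine (D.cst_JJ hν _).symm.trans ⟨fun h => ?_, fun h => ?_⟩
      · simpa using add_mem (hs x hx) h
      · simpa using sub_mem h (hs x hx)
    have h6 : (AddSubgroup.closure
        {z | ∃ m < 0, ∃ b ∈ D.wsp ι ν m, ∃ a ∈ D.wsp ι ν (-m), z = b * a}).map
          (D.toQD.Alg (KF n κ)).subtype.toAddMonoidHom = D.toQD.JJ _ ν := by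
      rw [AddMonoidHom.map_closure, QD.JJ]
      congr 1
      ext z
      constructor
      · rintro ⟨_, ⟨m, hm, b, hb, a, ha, rfl⟩, rfl⟩
        exact ⟨m, hm, b.1, b.2, a.1, a.2, (h2 _ _).1 hb, (h2 _ _).1 ha, rfl⟩
      · rintro ⟨m, hm, b, hb, a, ha, k1, k2, rfl⟩
        exact ⟨_, ⟨m, hm, ⟨b, hb⟩, (h2 _ _).2 k1, ⟨a, ha⟩, (h2 _ _).2 k2, rfl⟩, rfl⟩
    refine h5.trans ?_
    rw [← h6]
    exact AddSubgroup.mem_map_iff_mem (f := (D.toQD.Alg (KF n κ)).subtype.toAddMonoidHom)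
      Subtype.val_injective
  · obtain ⟨c, rfl⟩ := D.kir_surj hν y
    exact ⟨_, alg c⟩
  · obtain ⟨c, hc, h⟩ := h4 p x hx
    have h5 : x ∈ D.wsp ι ν 0 := AddSubgroup.subset_closure (mem_iUnion.2 ⟨p, hx⟩)
    exact (key h5 c h).symm ▸ D.kir_deg hν hc

end Qv

theorem goal2 : Goal2 := fun D _ hν => D.goal hν

end G

end Pool.Agent.Work.MP_849ab0_ag
end
end

-- merged part: Pool.Agent.Work.MP_849ab0_ag.G.F.Fin
section
/-!
Assembly for a general flavour torus.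
-/

noncomputable section

set_option linter.unusedSectionVars false
set_option linter.unusedVariables false

namespace Pool.Agent.Work.MP_849ab0_ag.G

open Set Topology Matrix

namespace Qv

variable {I P E κ : Type} [Fintype I] [DecidableEq I] [Fintype P] [DecidableEq P] [Fintype E]
  [DecidableEq E] [Fintype κ] [DecidableEq κ] {D : Qv I P E κ}

theorem Tm.omor {f : Module.End ℂ D.Rep} {c : Matrix E E ℂ} (h : D.Tm f c) (h' : D.Li c)
    {a a' : Act (KT D.col κ) D.Rep} (e : ∀ g y, f (a.act g y) = a'.act g (f y)) :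
    D.OMor ⟨fun g s m => chr D.h g.2 ^ m • a.act g (s m)⟩
      ⟨fun g s m => chr D.h g.2 ^ m • a'.act g (s m)⟩ fun s m => f (s m) :=
  ⟨continuous_pi fun m => f.continuous_of_finiteDimensional.comp (continuous_apply m),
    fun g s => funext fun m => (map_smul f _ _).trans (congrArg _ (e g _)),
    fun k Q s => h.rr_iff h', fun k γ hγ s => h.adj hγ s⟩

namespace Fv

variable (F : D.Fv)

theorem aO_eq (τ : κ → Circle) : ∃ (u : Module.End ℂ D.Rep) (c : Matrix E E ℂ), D.Tm u c ∧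
    ∀ g : (KT D.col κ).H, g.2 = τ → ∀ s, F.aO.act g s = fun m => u (D.aO.act g s m) := by
  obtain ⟨u, c, h, e⟩ := F.aN_eq τ
  exact ⟨u, c, h, fun g hg s => funext fun m =>
    (congrArg _ (e g hg _)).trans (map_smul u _ _).symm⟩

theorem oadm : D.OAdm F.aO := by
  refine ⟨inferInstance, fun k g z hz => ?_, fun k g z hz => ?_⟩
  · obtain ⟨u, c, h, e⟩ := F.aO_eq g.2
    change (_, F.aO.act g z.2) ∈ _
    rw [e g rfl]
    exact h.rr (D.inv_RR k g z hz)
  · obtain ⟨u, c, h, e⟩ := F.aO_eq g.2.2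
    change D.adj k (D.aF.act g z).1 (F.aO.act g.2 z.2) = _
    rw [e g.2 rfl, e (D.p13 g) rfl, h.adj (D.aF_Lp g hz), ← D.adj_eqv k g hz]
    rfl

theorem coul {A : Type} [Ring A] {ι' : D.Io A} (h : D.IsBFN ι') :
    ∃ ι : D.Iob F.aO A, D.IsBFNb F.aO ι ∧ (∀ ν m p, D.pieceb F.aO ι ν m p = D.piece ι' ν m p) ∧
      ∀ c, ι 0 (D.untb F.aO c) = ι' 0 (D.unt c) :=
  D.coul_transport F.oadm D.oadm_aO (F.tm_f.omor ⟨_, F.ty', F.inv'⟩ F.f_aN)
    (F.tm_f'.omor ⟨_, F.ty, F.inv⟩ F.f'_aN) (Θ := fun u s m => D.hs u (s m))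
    (continuous_pi fun m => continuous_hs.comp (f := fun z : ℝ × (ℕ → D.Rep) => (z.1, z.2 m))
      (continuous_fst.prodMk ((continuous_apply m).comp continuous_snd)))
    (fun u => (tm_hs u).omor li_one (F.hs_aN u)) (fun u => (tm_hs u).omor li_one (hs_aN0 u))
    (fun s => funext fun m => F.f'_f _) (fun s => funext fun m => F.f_f' _)
    (fun s => funext fun m => hs_one _) h.toB

end Fv

end Qv

namespace Qd

variable {I P E κ : Type} [Fintype I] [DecidableEq I] [Fintype P] [DecidableEq P] [Fintype E]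
  [Fintype κ] [DecidableEq κ] {D : Qd I P E}

/-- the quiver with weights -/
abbrev q (D : Qd I P E) (t : E → κ → ℤ) (h : κ → ℤ) : Qv I P E κ := ⟨D.col, D.src, D.tgt, t, h⟩

theorem Fl.exists_fv [DecidableEq E] (F : D.Fl κ) :
    ∃ (t : E → κ → ℤ) (V : (D.q t F.h).Fv), V.M = F.M := by
  have h1 (τ : κ → Circle) := (D.q 0 F.h).tm_co (f := (F.M τ).mulVecLin)
    fun g hg hu y => F.comm τ y g ⟨hu, hg⟩
  obtain ⟨B, B', t, k1, k2, k3, k4, k5⟩ := torus_diag (fun e => (D.src e, D.tgt e))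
    (c := fun τ => (D.q 0 F.h).co (F.M τ).mulVecLin) (Qv.continuous_co F.cont)
    ((congrArg _ (LinearMap.ext F.one)).trans Qv.co_one)
    (fun σ τ => (congrArg _ ((congrArg _ (F.mul σ τ)).trans (mulVecLin_mul _ _))).trans
      (Qv.co_mul (h1 σ) (h1 τ)))
    fun τ e e' h => Prod.ext_iff.2 ((h1 τ).ty e e' h)
  refine ⟨t, ⟨F.M, F.cont, F.one, F.mul, B, B', fun e e' h => Prod.ext_iff.1 (k1 e e' h),
    fun e e' h => Prod.ext_iff.1 (k2 e e' h), k3, k4, fun τ => ?_⟩, rfl⟩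
  have h2 := h1 τ
  rw [k5 τ] at h2
  exact ⟨h2.ty, h2.scal, h2.eq⟩

theorem Fl.goal {k n : ℕ} {D : Qd (Fin k) (Fin n) E} (F : D.Fl κ) {ν : Fin k → ℤ}
    (hν : D.Reg ν) : Function.Bijective (F.dsc ν) ∧
      ∃ (A : Type) (_ : Ring A) (ι : F.Io A) (Φ : A → F.HM ν), F.IsBFN ι ∧ F.IsHik ι ν Φ := by
  classical
  obtain ⟨t, ⟨M, v1, v2, v3, B, B', v4, v5, v6, v7, v8⟩, e⟩ := F.exists_fv
  obtain rfl : M = F.M := e
  let V : (D.q t F.h).Fv := ⟨F.M, v1, v2, v3, B, B', v4, v5, v6, v7, v8⟩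
  obtain ⟨-, A, _, ι', Φ, h1, h2⟩ := (D.q t F.h).goal (ν := ν) hν
  obtain ⟨ι, k1, k2, k3⟩ := V.coul h1
  obtain ⟨l1, ψ, l2, l3, l4, l5⟩ := V.higgs ν
  have w (m : ℤ) : F.wsp ι ν m = (D.q t F.h).wsp ι' ν m :=
    congrArg AddSubgroup.closure (iUnion_congr fun p => k2 ν m p)
  refine ⟨l1, A, _, ι, ψ ∘ Φ, ⟨k1.inj, k1.incl, k1.surj, k1.mul, k1.one⟩, ?_, ?_, ?_, ?_, ?_, ?_⟩
  · simp only [w]
    exact fun x hx y hy => (congrArg ψ (h2.add x hx y hy)).trans (map_add ψ _ _)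
  · simp only [w]
    exact fun x hx y hy => ⟨(h2.mul x hx y hy).1,
      (congrArg ψ (h2.mul x hx y hy).2).trans (l3 _ _)⟩
  · simp only [w]
    exact fun x hx => (map_eq_zero_iff ψ l2.1).trans (h2.ker x hx)
  · simp only [w]
    intro y
    obtain ⟨z, rfl⟩ := l2.2 y
    obtain ⟨x, hx, rfl⟩ := h2.surj z
    exact ⟨x, hx, rfl⟩
  · intro c
    rw [w]
    exact ⟨(congrArg (· ∈ _) (k3 c)).mpr (h2.alg c).1,
      (congrArg ψ ((congrArg Φ (k3 c)).trans (h2.alg c).2)).trans (l5 c)⟩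
  · exact fun p x hx => l4 p _ (h2.deg p x (k2 ν 0 p ▸ hx))

end Qd

end Pool.Agent.Work.MP_849ab0_ag.G
end
end
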